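import Mathlib
import Pool.Graph.R_seed8.Y920.EP.Base

set_option autoImplicit false

/-! Translates of finite sets inside one class of a multiplicative subgroup of finite index of an
infinite field, by the Hales-Jewett theorem. -/

namespace Pool.Agent.Helper58.ET

open Pool.Agent.Y920.EP

section

variable {F : Type} [Field F] {A : Type} [CommGroup A] {φ : Fˣ →* A}

/-- weights without vanishing subset sums -/
lemma weights [Infinite F] {ι : Type} [DecidableEq ι] (t : Finset ι) :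
    ∃ s : ι → F, ∀ J : Finset ι, J ⊆ t → J.Nonempty → ∑ i ∈ J, s i ≠ 0 := by
  classical
  induction t using Finset.induction_on with
  | empty =>
    refine ⟨fun _ => 0, fun J hJ hJ' => ?_⟩
    rw [Finset.subset_empty] at hJ
    rw [hJ] at hJ'
    exact absurd hJ' Finset.not_nonempty_empty
  | insert a t ha ih =>
    obtain ⟨s, hs⟩ := ih
    obtain ⟨v, hv⟩ := Infinite.exists_notMem_finset (t.powerset.image fun J => -∑ i ∈ J, s i)
    refine ⟨Function.update s a v, fun J hJ hJ' => ?_⟩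
    have hsub : J.erase a ⊆ t := by
      intro i hi
      rw [Finset.mem_erase] at hi
      exact (Finset.mem_insert.1 (hJ hi.2)).resolve_left hi.1
    have hsum : ∑ i ∈ J.erase a, Function.update s a v i = ∑ i ∈ J.erase a, s i := by
      refine Finset.sum_congr rfl fun i hi => ?_
      rw [Function.update_of_ne (Finset.ne_of_mem_erase hi)]
    by_cases haJ : a ∈ J
    · rw [← Finset.add_sum_erase _ _ haJ, hsum, Function.update_self]
      intro e
      apply hv
      rw [Finset.mem_image]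
      exact ⟨J.erase a, Finset.mem_powerset.2 hsub, by linear_combination (-1) * e⟩
    · rw [← Finset.erase_eq_of_notMem haJ, hsum]
      refine hs _ hsub ?_
      rwa [Finset.erase_eq_of_notMem haJ]

/-- a finite set has a translate in one class -/
lemma mono [Infinite F] [Finite A] (X : Finset F) :
    ∃ (y : F) (g : A), ∀ x ∈ X, ∃ z : Fˣ, (z : F) = y + x ∧ φ z = g := by
  classical
  obtain ⟨X', hX', h0, h1⟩ : ∃ X' : Finset F, X ⊆ X' ∧ (0 : F) ∈ X' ∧ (1 : F) ∈ X' :=
    ⟨insert 0 (insert 1 X), fun x hx => Finset.mem_insert_of_mem (Finset.mem_insert_of_mem hx),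
      Finset.mem_insert_self _ _, Finset.mem_insert_of_mem (Finset.mem_insert_self _ _)⟩
  obtain ⟨ι, _, hι⟩ := Combinatorics.Line.exists_mono_in_high_dimension X' (Option A)
  obtain ⟨s, hs⟩ := weights (F := F) (Finset.univ : Finset ι)
  obtain ⟨l, c, hc⟩ := hι fun v =>
    if h : ∑ i, s i * (v i : F) = 0 then none else some (φ (Units.mk0 _ h))
  -- the line
  obtain ⟨J, hJ⟩ : ∃ J : Finset ι, ∀ i, i ∈ J ↔ l.idxFun i = none :=
    ⟨Finset.univ.filter fun i => l.idxFun i = none, fun i => by simp⟩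
  obtain ⟨σ, hσ⟩ : ∃ σ, σ = ∑ i ∈ J, s i := ⟨_, rfl⟩
  have hσ0 : σ ≠ 0 := by
    rw [hσ]
    obtain ⟨i, hi⟩ := l.proper
    exact hs J (Finset.subset_univ _) ⟨i, (hJ i).2 hi⟩
  obtain ⟨y, hy⟩ : ∃ y : F, ∀ x : X', ∑ i, s i * ((l x i : X') : F) = y + σ * x := by
    refine ⟨∑ i ∈ Jᶜ, s i * ((l ⟨0, h0⟩ i : X') : F), fun x => ?_⟩
    rw [← Finset.sum_add_sum_compl J, add_comm, hσ, Finset.sum_mul]
    congr 1
    · refine Finset.sum_congr rfl fun i hi => ?_
      rw [Finset.mem_compl, hJ] at hi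
      obtain ⟨b, hb⟩ := Option.ne_none_iff_exists'.1 hi
      rw [Combinatorics.Line.apply_def, Combinatorics.Line.apply_def]
      dsimp only
      rw [hb]
      rfl
    · refine Finset.sum_congr rfl fun i hi => ?_
      rw [hJ] at hi
      rw [Combinatorics.Line.apply_none _ _ _ hi]
  cases c with
  | none =>
    exfalso
    have e0 := hc ⟨0, h0⟩
    have e1 := hc ⟨1, h1⟩
    dsimp only at e0 e1
    rw [dite_eq_left_iff] at e0 e1
    have e0' : ∑ i, s i * ((l ⟨0, h0⟩ i : X') : F) = 0 := by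
      by_contra h
      exact absurd (e0 h) (by simp)
    have e1' : ∑ i, s i * ((l ⟨1, h1⟩ i : X') : F) = 0 := by
      by_contra h
      exact absurd (e1 h) (by simp)
    rw [hy] at e0' e1'
    apply hσ0
    linear_combination e1' - e0'
  | some g =>
    refine ⟨y / σ, g / φ (Units.mk0 σ hσ0), fun x hx => ?_⟩
    have e := hc ⟨x, hX' hx⟩
    dsimp only at e
    have h2 : ¬ ∑ i, s i * ((l ⟨x, hX' hx⟩ i : X') : F) = 0 := by
      intro h
      rw [dif_pos h] at e
      exact absurd e (by simp)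
    rw [dif_neg h2, Option.some_inj] at e
    refine ⟨Units.mk0 _ h2 / Units.mk0 σ hσ0, ?_, by rw [map_div, e]⟩
    rw [Units.val_div_eq_div_val, Units.val_mk0, Units.val_mk0, hy]
    field_simp

/-- a finite set has a translate in a given class, by an element of this class -/
lemma hj [Infinite F] [Finite A] (hφ : Function.Surjective φ) (X : Finset F) (b : A) :
    ∃ y : Fˣ, φ y = b ∧ ∀ x ∈ X, ∃ z : Fˣ, (z : F) = y + x ∧ φ z = b := by
  classical
  have _ := Fintype.ofFinite A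
  choose r hr using hφ
  obtain ⟨y, g, hyg⟩ := mono (φ := φ) (insert 0
    (Finset.univ.biUnion fun a : A => X.image fun x => ((r a)⁻¹ : Fˣ) * x))
  obtain ⟨z, hz, hzg⟩ := hyg 0 (Finset.mem_insert_self _ _)
  rw [add_zero] at hz
  refine ⟨r (b / g) * z, by rw [map_mul, hr, hzg, div_mul_cancel], fun x hx => ?_⟩
  obtain ⟨w, hw, hwg⟩ := hyg (((r (b / g))⁻¹ : Fˣ) * x) (by
    refine Finset.mem_insert_of_mem (Finset.mem_biUnion.2 ⟨b / g, Finset.mem_univ _, ?_⟩)
    exact Finset.mem_image.2 ⟨x, hx, rfl⟩)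
  refine ⟨r (b / g) * w, ?_, by rw [map_mul, hr, hwg, div_mul_cancel]⟩
  rw [Units.val_mul, Units.val_mul, hw, hz, mul_add, Units.mul_inv_cancel_left]

/-- `u` is small with respect to `E` -/
def Sm (φ : Fˣ →* A) (E : Finset Fˣ) (u : Fˣ) : Prop := ∀ e ∈ E, Ml φ u e ∧ Ml φ (-u) e

lemma Sm.mono {E E' : Finset Fˣ} (h : E ⊆ E') {u : Fˣ} (hu : Sm φ E' u) : Sm φ E u :=
  fun e he => hu e (h he)

lemma Sm.neg {E : Finset Fˣ} {u : Fˣ} (hu : Sm φ E u) : Sm φ E (-u) :=
  fun e he => ⟨(hu e he).2, by rw [neg_neg]; exact (hu e he).1⟩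

/-- there are small elements in all classes -/
lemma exists_small [Infinite F] [Finite A] (hφ : Function.Surjective φ) (E : Finset Fˣ) (b : A) :
    ∃ u : Fˣ, φ u = b ∧ Sm φ E u := by
  classical
  obtain ⟨y, hy, h⟩ := hj hφ ((E.image fun e => ((e⁻¹ : Fˣ) : F)) ∪
    (E.image fun e => -((e⁻¹ : Fˣ) : F))) b⁻¹
  have hy0 : (y : F) ≠ 0 := y.ne_zero
  refine ⟨y⁻¹, by rw [map_inv, hy, inv_inv], fun e he => ⟨?_, ?_⟩⟩
  · obtain ⟨z, hz, hzb⟩ := h _ (Finset.mem_union_left _ (Finset.mem_image.2 ⟨e, he, rfl⟩))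
    have he0 : (e : F) ≠ 0 := e.ne_zero
    refine ⟨e * z * y⁻¹, ?_, by rw [map_mul, map_mul, map_inv, hzb, hy, mul_inv_cancel_right]⟩
    rw [Units.val_mul, Units.val_mul, hz, Units.val_inv_eq_inv_val, Units.val_inv_eq_inv_val]
    field_simp
  · obtain ⟨z, hz, hzb⟩ := h _ (Finset.mem_union_right _ (Finset.mem_image.2 ⟨e, he, rfl⟩))
    have he0 : (e : F) ≠ 0 := e.ne_zero
    refine ⟨e * z * y⁻¹, ?_, by rw [map_mul, map_mul, map_inv, hzb, hy, mul_inv_cancel_right]⟩
    rw [Units.val_neg, Units.val_mul, Units.val_mul, hz, Units.val_inv_eq_inv_val,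
      Units.val_inv_eq_inv_val]
    field_simp

end

end Pool.Agent.Helper58.ET
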