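import Mathlib
import Pool.Agent.Helper58.ET.HJ

set_option autoImplicit false

/-! The dichotomy: with respect to suitable finite sets, elements are small or dominate all small
elements. -/

namespace Pool.Agent.Helper58.ET

open Pool.Agent.Y920.EP

/-- a homomorphism from the units of a field onto a group `A` and a symmetric system of subgroups
`N(a)` of `A` with `φ (1 + u) ∈ N(φ u)` and with trivial intersection -/
structure Nd {F : Type} [Field F] {A : Type} [CommGroup A] (φ : Fˣ →* A)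
    (Nn : A → Subgroup A) : Prop where
  surj : Function.Surjective φ
  neg : φ (-1) = 1
  symm : ∀ a b : A, b ∈ Nn a → a ∈ Nn b
  sum : ∀ u v : Fˣ, (v : F) = 1 + u → φ v ∈ Nn (φ u)
  nd : ∀ g : A, (∀ a, g ∈ Nn a) → g = 1

/-- the group is the orthogonal product of `H` and `K`, and the components of `φ u` and
`φ (1 + u)` are orthogonal -/
structure Split {F : Type} [Field F] {A : Type} [CommGroup A] (φ : Fˣ →* A)
    (Nn : A → Subgroup A) (H K : Subgroup A) : Prop where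
  sup : H ⊔ K = ⊤
  inf : H ⊓ K = ⊥
  orth : ∀ h ∈ H, ∀ k ∈ K, k ∈ Nn h
  pr : ∀ u v : Fˣ, (v : F) = 1 + u → ∀ h ∈ H, ∀ k ∈ K, ∀ h' ∈ H, ∀ k' ∈ K,
    φ u = h * k → φ v = h' * k' → h' ∈ Nn h ∧ k' ∈ Nn k

/-- the group is not an orthogonal product -/
def Indec {F : Type} [Field F] {A : Type} [CommGroup A] (φ : Fˣ →* A)
    (Nn : A → Subgroup A) : Prop :=
  ∀ H K : Subgroup A, Split φ Nn H K → H = ⊥ ∨ K = ⊥

section

variable {F : Type} [Field F] {A : Type} [CommGroup A] {φ : Fˣ →* A} {Nn : A → Subgroup A}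

lemma Nd.sum' (h : Nd φ Nn) {x y z : Fˣ} (hz : (z : F) = x + y) : φ z / φ y ∈ Nn (φ x / φ y) := by
  rw [← map_div, ← map_div]
  apply h.sum
  rw [Units.val_div_eq_div_val, Units.val_div_eq_div_val, hz]
  have hy : (y : F) ≠ 0 := y.ne_zero
  field_simp
  ring

/-- the key computation -/
lemma Nd.key (h : Nd φ Nn) {x y z xu v : Fˣ} {u : F} (hz : (z : F) = x + y)
    (hxu : (xu : F) = x + u) (hxu' : φ xu = φ x) (hv : (v : F) = z + u) :
    φ v / φ z ∈ Nn (φ x / φ y) := by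
  have h1 := h.sum' hz
  have h2 : φ v / φ y ∈ Nn (φ xu / φ y) := h.sum' (by rw [hv, hz, hxu]; ring)
  rw [hxu'] at h2
  have h3 := div_mem h2 h1
  rwa [div_div_div_cancel_right] at h3

/-- the group generated by the quotients of `e + x` and `e` -/
def Hs (φ : Fˣ →* A) (E : Finset Fˣ) (x : Fˣ) : Subgroup A :=
  Subgroup.closure {g | ∃ e ∈ E, ∃ w : Fˣ, (w : F) = e + x ∧ g = φ w / φ e}

/-- the orthogonal group -/
def perp (Nn : A → Subgroup A) (H : Subgroup A) : Subgroup A := ⨅ h ∈ H, Nn h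

lemma mem_perp {H : Subgroup A} {g : A} : g ∈ perp Nn H ↔ ∀ h ∈ H, g ∈ Nn h := by
  unfold perp
  rw [Subgroup.mem_iInf]
  simp_rw [Subgroup.mem_iInf]

lemma Hs_mono {E E' : Finset Fˣ} (hE : E ⊆ E') (x : Fˣ) : Hs φ E x ≤ Hs φ E' x := by
  apply Subgroup.closure_mono
  rintro g ⟨e, he, w, hw, rfl⟩
  exact ⟨e, hE he, w, hw, rfl⟩

/-- small elements change classes only within the orthogonal group -/
lemma Nd.small (h : Nd φ Nn) {E : Finset Fˣ} {x ε v : Fˣ} (hε : Sm φ E ε)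
    (hv : (v : F) = x + ε) : φ v / φ x ∈ perp Nn (Hs φ E x) := by
  rw [mem_perp]
  have key : Hs φ E x ≤ Nn (φ v / φ x) := by
    unfold Hs
    rw [Subgroup.closure_le]
    rintro g ⟨e, he, w, hw, rfl⟩
    obtain ⟨t, ht, ht1⟩ := (hε e he).2
    have h1 := h.key (x := -e) (y := w) (z := x) (xu := -t) (u := (ε : F)) (v := v)
      (by rw [Units.val_neg, hw]; ring) (by rw [Units.val_neg, Units.val_neg, ht, Units.val_neg]; ring)
      (by rw [phi_neg h.neg, phi_neg h.neg, ht1]) hv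
    rw [phi_neg h.neg] at h1
    have h2 := h.symm _ _ h1
    have h3 := inv_mem h2
    rwa [inv_div] at h3
  intro g hg
  exact h.symm _ _ (key hg)

/-- the group and its orthogonal group have trivial intersection if they generate everything -/
lemma Nd.disj (h : Nd φ Nn) {H : Subgroup A} (hH : H ⊔ perp Nn H = ⊤) : H ⊓ perp Nn H = ⊥ := by
  rw [eq_bot_iff]
  rintro g ⟨hg1, hg2⟩
  rw [Subgroup.mem_bot]
  apply h.nd
  intro a
  apply h.symm
  have ha : a ∈ H ⊔ perp Nn H := by rw [hH]; exact Subgroup.mem_top a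
  rw [Subgroup.mem_sup] at ha
  obtain ⟨b, hb, k, hk, rfl⟩ := ha
  refine mul_mem ?_ (mem_perp.1 hk g hg1)
  exact h.symm _ _ (mem_perp.1 hg2 b hb)

lemma Nd.mem_one (h : Nd φ Nn) (a : A) : a ∈ Nn 1 := h.symm _ _ (one_mem _)

lemma Nd.split_bot (h : Nd φ Nn) : Split φ Nn ⊥ ⊤ where
  sup := by simp
  inf := by simp
  orth := by
    intro a ha k _
    rw [Subgroup.mem_bot] at ha
    rw [ha]
    exact h.mem_one k
  pr := by
    intro u v huv a ha k _ a' ha' k' _ hu hv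
    rw [Subgroup.mem_bot] at ha ha'
    refine ⟨by rw [ha']; exact one_mem _, ?_⟩
    have := h.sum u v huv
    rw [ha, one_mul] at hu
    rw [ha', one_mul] at hv
    rwa [hu, hv] at this

/-- the step -/
lemma Nd.step (h : Nd φ Nn) [Infinite F] [Finite A] (E : Finset Fˣ) :
    ∃ E' : Finset Fˣ, E ⊆ E' ∧ ∀ x : Fˣ, Hs φ E' x ≤ Hs φ E x →
      Split φ Nn (Hs φ E x) (perp Nn (Hs φ E x)) := by
  classical
  have _ := Fintype.ofFinite A
  have hsurj := h.surj
  choose r hr using hsurj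
  -- representatives of the pairs of classes
  have hrep : ∀ q : A × A, ∃ w : Fˣ × Fˣ, (∃ u v : Fˣ, (v : F) = 1 + u ∧ φ u = q.1 ∧ φ v = q.2) →
      (w.2 : F) = 1 + w.1 ∧ φ w.1 = q.1 ∧ φ w.2 = q.2 := by
    intro q
    by_cases hq : ∃ u v : Fˣ, (v : F) = 1 + u ∧ φ u = q.1 ∧ φ v = q.2
    · obtain ⟨u, v, huv⟩ := hq
      exact ⟨(u, v), fun _ => huv⟩
    · exact ⟨(1, 1), fun h => absurd h hq⟩
  choose w hw using hrep
  obtain ⟨E₁, h1E, hvE, hviE⟩ : ∃ E₁ : Finset Fˣ, 1 ∈ E₁ ∧ (∀ q, (w q).2 ∈ E₁) ∧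
      ∀ q, (w q).2⁻¹ ∈ E₁ := by
    refine ⟨insert 1 ((Finset.univ.image fun q => (w q).2) ∪
      (Finset.univ.image fun q => (w q).2⁻¹)), Finset.mem_insert_self _ _, fun q => ?_,
      fun q => ?_⟩
    · exact Finset.mem_insert_of_mem (Finset.mem_union_left _
        (Finset.mem_image.2 ⟨q, Finset.mem_univ _, rfl⟩))
    · exact Finset.mem_insert_of_mem (Finset.mem_union_right _
        (Finset.mem_image.2 ⟨q, Finset.mem_univ _, rfl⟩))
  obtain ⟨E₂, hE₂, hrE⟩ : ∃ E₂ : Finset Fˣ, E₁ ⊆ E₂ ∧ ∀ a, r a ∈ E₂ :=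
    ⟨E₁ ∪ Finset.univ.image r, Finset.subset_union_left, fun a =>
      Finset.mem_union_right _ (Finset.mem_image.2 ⟨a, Finset.mem_univ _, rfl⟩)⟩
  obtain ⟨δ, -, hδ⟩ := exists_small h.surj ((E ×ˢ E₂).image fun q => q.1 / q.2) 1
  have hδ' : ∀ b ∈ E₂, Sm φ E (b * δ) := by
    intro b hb e he
    have h1 := hδ (e / b) (Finset.mem_image.2 ⟨(e, b), by simp [he, hb], rfl⟩)
    have e1 : e = b * (e / b) := by rw [mul_div_cancel]
    refine ⟨?_, ?_⟩
    · rw [e1, ml_mul]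
      exact h1.1
    · rw [e1, ← mul_neg, ml_mul]
      exact h1.2
  refine ⟨E ∪ E₂.image fun b => b * δ, Finset.subset_union_left, fun x hx => ?_⟩
  -- the case of small elements
  by_cases hw0 : ∃ b ∈ E₂, (x : F) + b * δ = 0
  · obtain ⟨b, hb, hw0⟩ := hw0
    have e1 : x = -(b * δ) := by
      ext
      rw [Units.val_neg, Units.val_mul]
      linear_combination hw0
    have h1 : Hs φ E x = ⊥ := by
      rw [eq_bot_iff]
      unfold Hs
      rw [Subgroup.closure_le]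
      rintro g ⟨e, he, z, hz, rfl⟩
      obtain ⟨z', hz', hz1⟩ := (hδ' b hb e he).2
      rw [← e1] at hz'
      rw [SetLike.mem_coe, Subgroup.mem_bot, Units.ext (hz.trans hz'.symm), hz1, div_self']
    have h2 : perp Nn (⊥ : Subgroup A) = ⊤ := by
      rw [eq_top_iff]
      intro a _
      rw [mem_perp]
      intro g hg
      rw [Subgroup.mem_bot] at hg
      rw [hg]
      exact h.mem_one a
    rw [h1, h2]
    exact h.split_bot
  push Not at hw0
  have hz : ∀ b ∈ E₂, ∃ z : Fˣ, (z : F) = x + b * δ ∧ φ z / φ x ∈ perp Nn (Hs φ E x) ∧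
      φ z / φ (b * δ) ∈ Hs φ E x := by
    intro b hb
    obtain ⟨z, hz⟩ : ∃ z : Fˣ, (z : F) = x + b * δ := ⟨Units.mk0 _ (hw0 b hb), Units.val_mk0 _⟩
    refine ⟨z, hz, h.small (hδ' b hb) (by rw [hz, Units.val_mul]), ?_⟩
    apply hx
    apply Subgroup.subset_closure
    exact ⟨b * δ, Finset.mem_union_right _ (Finset.mem_image.2 ⟨b, hb, rfl⟩), z,
      by rw [hz, Units.val_mul, add_comm], rfl⟩
  have hsup : Hs φ E x ⊔ perp Nn (Hs φ E x) = ⊤ := by
    rw [eq_top_iff]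
    rintro b -
    obtain ⟨a, rfl⟩ : ∃ a, b = φ (r a * δ) / φ x := by
      refine ⟨b * φ x / φ δ, ?_⟩
      rw [map_mul, hr, div_mul_cancel, mul_div_cancel_right]
    obtain ⟨z, -, h1, h2⟩ := hz (r a) (hrE a)
    have h3 : φ (r a * δ) / φ x = (φ z / φ (r a * δ))⁻¹ * (φ z / φ x) := by
      rw [inv_div, div_mul_div_cancel]
    rw [h3]
    exact mul_mem (Subgroup.mem_sup_left (inv_mem h2)) (Subgroup.mem_sup_right h1)
  have hinf := h.disj hsup
  have horth : ∀ a ∈ Hs φ E x, ∀ k ∈ perp Nn (Hs φ E x), k ∈ Nn a :=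
    fun a ha _ hk => mem_perp.1 hk a ha
  -- components are determined
  have huniq : ∀ g a k : A, g ∈ Hs φ E x → a ∈ Hs φ E x → k ∈ perp Nn (Hs φ E x) →
      g / (a * k) ∈ perp Nn (Hs φ E x) → g = a := by
    intro g a k hg ha hk hgk
    have h1 : g / a ∈ Hs φ E x ⊓ perp Nn (Hs φ E x) := by
      refine Subgroup.mem_inf.2 ⟨div_mem hg ha, ?_⟩
      have := mul_mem hgk hk
      rwa [div_mul_eq_div_div, div_mul_cancel] at this
    rw [hinf, Subgroup.mem_bot] at h1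
    exact div_eq_one.1 h1
  have huniq' : ∀ g a k : A, g ∈ perp Nn (Hs φ E x) → a ∈ Hs φ E x →
      k ∈ perp Nn (Hs φ E x) → g / (a * k) ∈ Hs φ E x → g = k := by
    intro g a k hg ha hk hgk
    have h1 : g / k ∈ Hs φ E x ⊓ perp Nn (Hs φ E x) := by
      refine Subgroup.mem_inf.2 ⟨?_, div_mem hg hk⟩
      have := mul_mem hgk ha
      rwa [mul_comm a k, div_mul_eq_div_div, div_mul_cancel] at this
    rw [hinf, Subgroup.mem_bot] at h1
    exact div_eq_one.1 h1
  refine ⟨hsup, hinf, horth, ?_⟩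
  intro u₀ v₀ huv₀ a ha k hk a' ha' k' hk' hu₀ hv₀
  obtain ⟨huv, hu, hv⟩ := hw (φ u₀, φ v₀) ⟨u₀, v₀, huv₀, rfl, rfl⟩
  have hvE' := hvE (φ u₀, φ v₀)
  have hviE' := hviE (φ u₀, φ v₀)
  obtain ⟨u, v, hwuv⟩ : ∃ u v : Fˣ, w (φ u₀, φ v₀) = (u, v) := ⟨_, _, rfl⟩
  rw [hwuv] at huv hu hv hvE' hviE'
  dsimp only at huv hu hv hvE' hviE'
  rw [hu₀] at hu
  rw [hv₀] at hv
  obtain ⟨z₁, hz₁, hz₁k, hz₁h⟩ := hz 1 (hE₂ h1E)
  obtain ⟨z₂, hz₂, hz₂k, hz₂h⟩ := hz v (hE₂ hvE')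
  obtain ⟨z₃, hz₃, hz₃k, hz₃h⟩ := hz v⁻¹ (hE₂ hviE')
  have hz₁0 : (z₁ : F) ≠ 0 := z₁.ne_zero
  have hv0 : (v : F) ≠ 0 := v.ne_zero
  rw [one_mul] at hz₁h
  rw [Units.val_one, one_mul] at hz₁
  constructor
  · -- `y = u x / (x + δ)`
    have h1 : φ (v * z₃ / z₁) ∈ Nn (φ (u * x / z₁)) := by
      apply h.sum
      rw [Units.val_div_eq_div_val, Units.val_div_eq_div_val, Units.val_mul, Units.val_mul, hz₃,
        Units.val_inv_eq_inv_val]
      field_simp
      rw [hz₁, huv]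
      ring
    have h2 : φ (v * z₃ / z₁) = a' := by
      refine huniq _ a' k' ?_ ha' hk' ?_
      · have e1 : φ (v * z₃ / z₁) = (φ z₃ / φ (v⁻¹ * δ)) / (φ z₁ / φ δ) := by
          rw [map_div, map_mul, map_mul, map_inv]
          simp only [div_eq_mul_inv, mul_inv, inv_inv]
          rw [show φ z₃ * (φ v * (φ δ)⁻¹) * ((φ z₁)⁻¹ * φ δ) =
            φ v * φ z₃ * (φ z₁)⁻¹ * ((φ δ)⁻¹ * φ δ) by ac_rfl, inv_mul_cancel, mul_one]
        rw [e1]
        exact div_mem hz₃h hz₁h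
      · have e1 : φ (v * z₃ / z₁) / (a' * k') = (φ z₃ / φ x) / (φ z₁ / φ x) := by
          rw [map_div, map_mul, ← hv, div_div_div_cancel_right, mul_div_assoc, mul_div_cancel_left]
        rw [e1]
        exact div_mem hz₃k hz₁k
    rw [h2] at h1
    have h3 := h.symm _ _ h1
    have h4 : (φ z₁ / φ x) ∈ Nn a' := horth a' ha' _ hz₁k
    have h5 : k ∈ Nn a' := horth a' ha' _ hk
    have e2 : φ (u * x / z₁) = a * k / (φ z₁ / φ x) := by
      rw [map_div, map_mul, hu, div_div_eq_mul_div]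
    rw [e2] at h3
    have h6 := mul_mem h3 h4
    rw [div_mul_cancel] at h6
    have h7 := div_mem h6 h5
    rw [mul_div_cancel_right] at h7
    exact h.symm _ _ h7
  · -- `y = u δ / (x + δ)`
    have h1 : φ (z₂ / z₁) ∈ Nn (φ (u * δ / z₁)) := by
      apply h.sum
      rw [Units.val_div_eq_div_val, Units.val_div_eq_div_val, Units.val_mul, hz₂]
      field_simp
      rw [hz₁, huv]
      ring
    have h2 : φ (z₂ / z₁) = k' := by
      refine huniq' _ a' k' ?_ ha' hk' ?_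
      · have e1 : φ (z₂ / z₁) = (φ z₂ / φ x) / (φ z₁ / φ x) := by
          rw [map_div, div_div_div_cancel_right]
        rw [e1]
        exact div_mem hz₂k hz₁k
      · have e1 : φ (z₂ / z₁) / (a' * k') = (φ z₂ / φ (v * δ)) / (φ z₁ / φ δ) := by
          rw [map_div, map_mul, ← hv]
          simp only [div_eq_mul_inv, mul_inv, inv_inv]
          rw [show φ z₂ * ((φ v)⁻¹ * (φ δ)⁻¹) * ((φ z₁)⁻¹ * φ δ) =
            φ z₂ * (φ z₁)⁻¹ * (φ v)⁻¹ * ((φ δ)⁻¹ * φ δ) by ac_rfl, inv_mul_cancel, mul_one]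
        rw [e1]
        exact div_mem hz₂h hz₁h
    rw [h2] at h1
    have h3 := h.symm _ _ h1
    have h4 : (φ z₁ / φ δ) ∈ Nn k' := h.symm _ _ (horth _ hz₁h k' hk')
    have h5 : a ∈ Nn k' := h.symm _ _ (horth a ha k' hk')
    have e2 : φ (u * δ / z₁) = a * k / (φ z₁ / φ δ) := by
      rw [map_div, map_mul, hu, div_div_eq_mul_div]
    rw [e2] at h3
    have h6 := mul_mem h3 h4
    rw [div_mul_cancel] at h6
    have h7 := div_mem h6 h5
    rw [mul_comm a k, mul_div_cancel_right] at h7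
    exact h.symm _ _ h7

/-- a chain of subgroups has a repetition -/
lemma chain_rep [Finite A] (H : ℕ → Subgroup A) (hH : ∀ i, H i ≤ H (i + 1)) :
    ∃ i, i ≤ Nat.card A ∧ H (i + 1) ≤ H i := by
  by_contra hc
  push Not at hc
  have h1 : ∀ i, i ≤ Nat.card A + 1 → i ≤ Nat.card (H i) - 1 := by
    intro i
    induction i with
    | zero => intro _; exact Nat.zero_le _
    | succ i ih =>
      intro hi
      have h2 := ih (by omega)
      have h3 : Nat.card (H i) < Nat.card (H (i + 1)) := by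
        refine lt_of_le_of_ne (Subgroup.card_le_of_le (hH i)) fun e => hc i (by omega) ?_
        exact (Subgroup.eq_of_le_of_card_ge (hH i) e.ge).ge
      have h4 : 0 < Nat.card (H i) := Nat.card_pos
      omega
  have h2 := h1 (Nat.card A + 1) le_rfl
  have h3 : Nat.card (H (Nat.card A + 1)) ≤ Nat.card A := by
    have := Subgroup.card_le_card_group (H (Nat.card A + 1))
    exact this
  omega

/-- the dichotomy, first form -/
lemma Nd.dich0 (h : Nd φ Nn) (hi : Indec φ Nn) [Infinite F] [Finite A] (E₀ : Finset Fˣ) :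
    ∃ E₁ : Finset Fˣ, E₀ ⊆ E₁ ∧ ∀ x : Fˣ, Hs φ E₀ x = ⊥ ∨
      ∀ ε v : Fˣ, Sm φ E₁ ε → (v : F) = x + ε → φ v = φ x := by
  choose f hf1 hf2 using fun E => h.step (φ := φ) E
  obtain ⟨E, hE0, hE⟩ : ∃ E : ℕ → Finset Fˣ, E 0 = E₀ ∧ ∀ i, E (i + 1) = f (E i) :=
    ⟨fun n => f^[n] E₀, rfl, fun i => Function.iterate_succ_apply' f i E₀⟩
  have hmono : ∀ i, E i ⊆ E (i + 1) := fun i => by rw [hE]; exact hf1 _
  have hmono' : ∀ i j, i ≤ j → E i ⊆ E j := fun i j hij => monotone_nat_of_le_succ hmono hij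
  refine ⟨E (Nat.card A), hE0 ▸ hmono' 0 _ (Nat.zero_le _), fun x => ?_⟩
  obtain ⟨i, hi1, hi2⟩ := chain_rep (fun i => Hs φ (E i) x) fun i => Hs_mono (hmono i) x
  rw [hE] at hi2
  rcases hi _ _ (hf2 _ x hi2) with h1 | h1
  · left
    rw [eq_bot_iff, ← h1, ← hE0]
    exact Hs_mono (hmono' _ _ (Nat.zero_le _)) x
  · right
    intro ε v hε hv
    have h2 := h.small (hε.mono (hmono' _ _ hi1)) hv
    rw [h1, Subgroup.mem_bot] at h2
    exact div_eq_one.1 h2

/-- The dichotomy. -/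
theorem Nd.dich (h : Nd φ Nn) (hi : Indec φ Nn) [Infinite F] [Finite A] [Nontrivial A]
    (E₀ : Finset Fˣ) :
    ∃ E₁ : Finset Fˣ, E₀ ⊆ E₁ ∧ ∀ x : Fˣ, Sm φ E₀ x ∨ ∀ ε : Fˣ, Sm φ E₁ ε → Ml φ ε x := by
  classical
  -- an auxiliary element
  obtain ⟨c, d, hc, hd⟩ : ∃ c d : Fˣ, (d : F) = c - 1 ∧ φ d ≠ φ c := by
    obtain ⟨a, ha⟩ := exists_ne (1 : A)
    obtain ⟨t, ht⟩ := h.surj a
    have h1 : (1 : F) - t ≠ 0 := by
      intro e
      apply ha
      have : t = 1 := by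
        ext
        rw [Units.val_one]
        linear_combination (-1) * e
      rw [← ht, this, map_one]
    have ht0 : (t : F) ≠ 0 := t.ne_zero
    refine ⟨(Units.mk0 _ h1)⁻¹, t * (Units.mk0 _ h1)⁻¹, ?_, ?_⟩
    · rw [Units.val_mul, Units.val_inv_eq_inv_val, Units.val_mk0]
      field_simp
      ring
    · rw [map_mul, ht]
      intro e
      exact ha (mul_eq_right.1 e)
  obtain ⟨E₁, hE, hd1⟩ := h.dich0 hi (E₀ ∪ E₀.image fun e => c * e)
  refine ⟨E₁, Finset.subset_union_left.trans hE, ?_⟩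
  -- the first alternative
  have h1 : ∀ x : Fˣ, Hs φ (E₀ ∪ E₀.image fun e => c * e) x = ⊥ → ∀ e ∈ E₀, Ml φ x e := by
    intro x hx e he
    have h2 : ∀ e' ∈ E₀ ∪ E₀.image (fun e => c * e), ∀ w : Fˣ, (w : F) = e' + x →
        φ w = φ e' := by
      intro e' he' w hw
      have : φ w / φ e' ∈ Hs φ (E₀ ∪ E₀.image fun e => c * e) x :=
        Subgroup.subset_closure ⟨e', he', w, hw, rfl⟩
      rw [hx, Subgroup.mem_bot] at this
      exact div_eq_one.1 this
    have h3 : (e : F) + x ≠ 0 := by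
      intro h0
      have h4 := h2 (c * e) (Finset.mem_union_right _ (Finset.mem_image.2 ⟨e, he, rfl⟩)) (d * e)
        (by rw [Units.val_mul, Units.val_mul, hc]; linear_combination (-1) * h0)
      rw [map_mul, map_mul] at h4
      exact hd (mul_right_cancel h4)
    exact ⟨Units.mk0 _ h3, Units.val_mk0 _, h2 e (Finset.mem_union_left _ he) _ (Units.val_mk0 _)⟩
  intro x
  by_cases hs : Sm φ E₀ x
  · exact Or.inl hs
  right
  -- the second alternative holds for `x` or for `-x`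
  have h2 : (∀ ε v : Fˣ, Sm φ E₁ ε → (v : F) = x + ε → φ v = φ x) ∨
      ∀ ε v : Fˣ, Sm φ E₁ ε → (v : F) = -x + ε → φ v = φ x := by
    by_contra hc
    push Not at hc
    obtain ⟨⟨ε, v, h3, h4, h5⟩, ε', v', h3', h4', h5'⟩ := hc
    apply hs
    intro e he
    refine ⟨h1 x ?_ e he, h1 (-x) ?_ e he⟩
    · exact (hd1 x).resolve_right fun h6 => h5 (h6 ε v h3 h4)
    · refine (hd1 (-x)).resolve_right fun h6 => h5' ?_
      rw [h6 ε' v' h3' (by rw [Units.val_neg]; exact h4'), phi_neg h.neg]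
  have h3 : ∀ ε v : Fˣ, Sm φ E₁ ε → (v : F) = x + ε → φ v = φ x := by
    rcases h2 with h2 | h2
    · exact h2
    · intro ε v hε hv
      have := h2 (-ε) (-v) hε.neg (by rw [Units.val_neg, Units.val_neg, hv]; ring)
      rwa [phi_neg h.neg] at this
  intro ε hε
  have h4 : (x : F) + ε ≠ 0 := by
    intro e
    have : ε = -x := by
      ext
      rw [Units.val_neg]
      linear_combination e
    apply hs
    rw [this] at hε
    have h5 := (hε.mono (Finset.subset_union_left.trans hE)).neg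
    rwa [neg_neg] at h5
  exact ⟨Units.mk0 _ h4, Units.val_mk0 _, h3 ε _ hε (Units.val_mk0 _)⟩

end

end Pool.Agent.Helper58.ET
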