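import Mathlib

set_option autoImplicit false

/-! Extensions of valuation rings to algebraic extensions: denominators, incomparability,
conjugacy and weak approximation. -/

namespace Pool.Agent.Helper58.ET

section

variable {F M : Type} [Field F] [Field M] [Algebra F M]

lemma v_lt_one_iff (O : ValuationSubring F) {x : F} :
    O.valuation x < 1 ↔ x = 0 ∨ x⁻¹ ∉ O := by
  by_cases hx0 : x = 0
  · simp [hx0]
  · have h0 : 0 < O.valuation x := zero_lt_iff.2 ((Valuation.ne_zero_iff _).2 hx0)
    rw [← O.valuation_le_one_iff, map_inv₀, not_le, one_lt_inv₀ h0]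
    simp [hx0]

/-- the maximal ideal of a valuation ring lying over `O` -/
lemma over_lt {O : ValuationSubring F} {W : ValuationSubring M}
    (hW : W.comap (algebraMap F M) = O) (f : F) :
    W.valuation (algebraMap F M f) < 1 ↔ O.valuation f < 1 := by
  rw [v_lt_one_iff, v_lt_one_iff, ← hW, ValuationSubring.mem_comap, map_inv₀, map_eq_zero]

lemma over_le {O : ValuationSubring F} {W : ValuationSubring M}
    (hW : W.comap (algebraMap F M) = O) (f : F) :
    algebraMap F M f ∈ W ↔ f ∈ O := by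
  rw [← hW, ValuationSubring.mem_comap]

/-- denominators -/
lemma denom [Algebra.IsAlgebraic F M] (O : ValuationSubring F) {x : M} (hx : x ≠ 0) :
    ∃ y z : M, y * x = z ∧
      (∀ W : ValuationSubring M, (∀ f ∈ O, algebraMap F M f ∈ W) → y ∈ W ∧ z ∈ W) ∧
      ∀ W : ValuationSubring M, W.comap (algebraMap F M) = O → x ∈ W →
        W.valuation (y - 1) < 1 := by
  classical
  obtain ⟨q, hq0, hq⟩ := Algebra.IsAlgebraic.isAlgebraic (R := F) x
  obtain ⟨k, hk, hmax⟩ := Finset.exists_max_image q.support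
    (fun j => (toLex (O.valuation (q.coeff j), j) : O.ValueGroup ×ₗ ℕ))
    (Polynomial.support_nonempty.2 hq0)
  have hk0 : q.coeff k ≠ 0 := Polynomial.mem_support_iff.1 hk
  have hkv : 0 < O.valuation (q.coeff k) := zero_lt_iff.2 ((Valuation.ne_zero_iff _).2 hk0)
  obtain ⟨c, hc⟩ : ∃ c : ℕ → F, ∀ j, c j = q.coeff j / q.coeff k := ⟨_, fun _ => rfl⟩
  have hck : c k = 1 := by rw [hc, div_self hk0]
  have hcO : ∀ j, c j ∈ O := by
    intro j
    rw [← O.valuation_le_one_iff, hc, map_div₀, div_le_one₀ hkv]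
    by_cases hj : q.coeff j = 0
    · rw [hj, map_zero]
      exact zero_le
    · have h1 := hmax j (Polynomial.mem_support_iff.2 hj)
      rw [Prod.Lex.toLex_le_toLex] at h1
      rcases h1 with h1 | h1
      · exact h1.le
      · exact h1.1.le
  have hcm : ∀ j, k < j → O.valuation (c j) < 1 := by
    intro j hkj
    rw [hc, map_div₀, div_lt_one₀ hkv]
    by_cases hj : q.coeff j = 0
    · rw [hj, map_zero]
      exact hkv
    · have h1 := hmax j (Polynomial.mem_support_iff.2 hj)
      rw [Prod.Lex.toLex_le_toLex] at h1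
      rcases h1 with h1 | h1
      · exact h1
      · exact absurd h1.2 (not_le.2 hkj)
  obtain ⟨m, hm⟩ : ∃ m, q.natDegree + 1 = k + (m + 1) := by
    have := Polynomial.le_natDegree_of_mem_supp k hk
    exact ⟨q.natDegree - k, by omega⟩
  have hsum : ∑ j ∈ Finset.range k, algebraMap F M (c j) * x ^ j +
      ∑ j ∈ Finset.range (m + 1), algebraMap F M (c (k + j)) * x ^ (k + j) = 0 := by
    rw [← Finset.sum_range_add, ← hm]
    rw [Polynomial.aeval_eq_sum_range] at hq
    have h1 : ∀ j, algebraMap F M (c j) * x ^ j =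
        (algebraMap F M (q.coeff k))⁻¹ * (q.coeff j • x ^ j) := by
      intro j
      rw [hc, map_div₀, Algebra.smul_def]
      ring
    simp_rw [h1]
    rw [← Finset.mul_sum, hq, mul_zero]
  obtain ⟨y, hy⟩ : ∃ y, y = ∑ j ∈ Finset.range (m + 1), algebraMap F M (c (k + j)) * x ^ j :=
    ⟨_, rfl⟩
  obtain ⟨z, hz⟩ : ∃ z, z = -∑ j ∈ Finset.range k, algebraMap F M (c j) * x⁻¹ ^ (k - 1 - j) :=
    ⟨_, rfl⟩
  have hyz : y * x = z := by
    have h1 : x ^ k * (y * x) = x ^ k * z := by
      have e1 : x ^ k * (y * x) = x * ∑ j ∈ Finset.range (m + 1),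
          algebraMap F M (c (k + j)) * x ^ (k + j) := by
        rw [hy, Finset.sum_mul, Finset.mul_sum, Finset.mul_sum]
        refine Finset.sum_congr rfl fun j _ => ?_
        ring
      have e2 : x ^ k * z = -(x * ∑ j ∈ Finset.range k, algebraMap F M (c j) * x ^ j) := by
        rw [hz, mul_neg, Finset.mul_sum, Finset.mul_sum]
        congr 1
        refine Finset.sum_congr rfl fun j hj => ?_
        rw [Finset.mem_range] at hj
        have e3 : x ^ k = x ^ (k - 1 - j) * (x * x ^ j) := by
          rw [← pow_succ', ← pow_add]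
          congr 1
          omega
        rw [e3, inv_pow]
        have h0 : x ^ (k - 1 - j) ≠ 0 := pow_ne_zero _ hx
        field_simp
      rw [e1, e2]
      linear_combination x * hsum
    exact mul_left_cancel₀ (pow_ne_zero _ hx) h1
  refine ⟨y, z, hyz, ?_, ?_⟩
  · intro W hW
    rcases W.mem_or_inv_mem x with h1 | h1
    · have h2 : y ∈ W := by
        rw [hy]
        exact sum_mem fun j _ => W.mul_mem _ _ (hW _ (hcO _)) (W.toSubring.pow_mem h1 j)
      refine ⟨h2, ?_⟩
      rw [← hyz]
      exact W.mul_mem _ _ h2 h1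
    · have h2 : z ∈ W := by
        rw [hz]
        exact W.neg_mem _ (sum_mem fun j _ =>
          W.mul_mem _ _ (hW _ (hcO _)) (W.toSubring.pow_mem h1 _))
      refine ⟨?_, h2⟩
      have e1 : y = z * x⁻¹ := by rw [← hyz, mul_inv_cancel_right₀ hx]
      rw [e1]
      exact W.mul_mem _ _ h2 h1
  · intro W hW hxW
    rw [hy, Finset.sum_range_succ', add_zero, hck, map_one, pow_zero, mul_one,
      add_sub_cancel_right]
    refine Valuation.map_sum_lt _ one_ne_zero fun j _ => ?_
    rw [map_mul]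
    refine mul_lt_one_of_nonneg_of_lt_one_left zero_le ?_ ?_
    · rw [over_lt hW]
      exact hcm _ (by omega)
    · rw [map_pow]
      exact pow_le_one₀ zero_le ((W.valuation_le_one_iff _).2 hxW)

/-- elements integral over `O` -/
def Bb (M : Type) [Field M] [Algebra F M] (O : ValuationSubring F) : Subring M where
  carrier := {x | ∀ W : ValuationSubring M, (∀ f ∈ O, algebraMap F M f ∈ W) → x ∈ W}
  mul_mem' := fun ha hb W hW => W.mul_mem _ _ (ha W hW) (hb W hW)
  one_mem' := fun W _ => W.one_mem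
  add_mem' := fun ha hb W hW => W.add_mem _ _ (ha W hW) (hb W hW)
  zero_mem' := fun W _ => W.zero_mem
  neg_mem' := fun ha W hW => W.neg_mem _ (ha W hW)

lemma mem_Bb {O : ValuationSubring F} {x : M} : x ∈ Bb M O ↔
    ∀ W : ValuationSubring M, (∀ f ∈ O, algebraMap F M f ∈ W) → x ∈ W := Iff.rfl

lemma Bb_le {O : ValuationSubring F} {W : ValuationSubring M}
    (hW : W.comap (algebraMap F M) = O) {x : M} (hx : x ∈ Bb M O) : x ∈ W :=
  hx W fun f hf => (over_le hW f).2 hf

/-- the centre on the integral elements -/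
def cen {O : ValuationSubring F} (W : ValuationSubring M)
    (hW : W.comap (algebraMap F M) = O) : Ideal (Bb M O) where
  carrier := {x | W.valuation (x : M) < 1}
  add_mem' := by
    intro a b ha hb
    have ha' : W.valuation (a : M) < 1 := ha
    have hb' : W.valuation (b : M) < 1 := hb
    change W.valuation ((a + b : Bb M O) : M) < 1
    rw [Subring.coe_add]
    exact Valuation.map_add_lt _ ha' hb'
  zero_mem' := by
    change W.valuation ((0 : Bb M O) : M) < 1
    rw [ZeroMemClass.coe_zero, map_zero]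
    exact zero_lt_one
  smul_mem' := by
    intro c x hx
    have hx' : W.valuation (x : M) < 1 := hx
    change W.valuation ((c * x : Bb M O) : M) < 1
    rw [Subring.coe_mul, map_mul]
    exact mul_lt_one_of_nonneg_of_lt_one_right ((W.valuation_le_one_iff _).2 (Bb_le hW c.2))
      zero_le hx'

lemma mem_cen {O : ValuationSubring F} {W : ValuationSubring M}
    {hW : W.comap (algebraMap F M) = O} {x : Bb M O} :
    x ∈ cen W hW ↔ W.valuation (x : M) < 1 := Iff.rfl

lemma cen_prime {O : ValuationSubring F} (W : ValuationSubring M)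
    (hW : W.comap (algebraMap F M) = O) : (cen W hW).IsPrime := by
  refine ⟨?_, ?_⟩
  · rw [Ideal.ne_top_iff_one, mem_cen, OneMemClass.coe_one, map_one]
    exact lt_irrefl _
  · intro x y h
    rw [mem_cen, Subring.coe_mul, map_mul] at h
    rw [mem_cen, mem_cen]
    by_contra hc
    rw [not_or, not_lt, not_lt] at hc
    exact absurd h (not_lt.2 (one_le_mul hc.1 hc.2))

variable [Algebra.IsAlgebraic F M] {O : ValuationSubring F}

/-- incomparability -/
lemma incomp {P S : ValuationSubring M} (hP : P.comap (algebraMap F M) = O)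
    (hS : S.comap (algebraMap F M) = O) (h : P ≤ S) : P = S := by
  refine le_antisymm h fun s hs => ?_
  by_contra hsP
  have hs0 : s ≠ 0 := fun e => hsP (e ▸ P.zero_mem)
  obtain ⟨y, z, hyz, h1, h2⟩ := denom (F := F) O hs0
  obtain ⟨hyP, hzP⟩ := h1 P fun f hf => (over_le hP f).2 hf
  have h3 := h2 S hS hs
  have hy0 : y ≠ 0 := by
    rintro rfl
    rw [zero_sub, Valuation.map_neg, map_one] at h3
    exact lt_irrefl _ h3
  -- `y` is not a unit of `P`
  have h4 : y⁻¹ ∉ P := by
    intro h5
    apply hsP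
    have e1 : s = z * y⁻¹ := by
      rw [← hyz]
      field_simp
    rw [e1]
    exact P.mul_mem _ _ hzP h5
  have h5 : P.valuation y < 1 := (v_lt_one_iff P).2 (Or.inr h4)
  -- `y - 1` is not a unit of `P`
  have h6 : P.valuation (y - 1) < 1 := by
    rw [v_lt_one_iff] at h3 ⊢
    exact h3.imp id fun h7 h8 => h7 (h h8)
  have h7 := Valuation.map_sub_lt P.valuation h5 h6
  rw [sub_sub_cancel, map_one] at h7
  exact lt_irrefl _ h7

/-- the centre determines the ring -/
lemma eq_of_cen {P S : ValuationSubring M} (hP : P.comap (algebraMap F M) = O)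
    (hS : S.comap (algebraMap F M) = O) (h : cen P hP ≤ cen S hS) : P = S := by
  refine incomp hP hS fun x hx => ?_
  by_cases hx0 : x = 0
  · rw [hx0]
    exact S.zero_mem
  obtain ⟨y, z, hyz, h1, h2⟩ := denom (F := F) O hx0
  have h3 := h2 P hP hx
  have hyB : y ∈ Bb M O := fun W hW => (h1 W hW).1
  have hzB : z ∈ Bb M O := fun W hW => (h1 W hW).2
  have h4 : S.valuation (y - 1) < 1 :=
    h (show (⟨y, hyB⟩ - 1 : Bb M O) ∈ cen P hP from h3)
  have h5 : S.valuation y = 1 := by
    have h6 : y = 1 + (y - 1) := by ring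
    rw [h6, Valuation.map_one_add_of_lt _ h4]
  have hy0 : y ≠ 0 := by
    rintro rfl
    rw [map_zero] at h5
    exact zero_ne_one h5
  have e1 : x = z * y⁻¹ := by
    rw [← hyz]
    field_simp
  rw [e1]
  refine S.mul_mem _ _ (Bb_le hS hzB) ?_
  rw [← S.valuation_le_one_iff, map_inv₀, h5, inv_one]

/-- powers of the elements of the maximal ideal -/
lemma arch_lift {P : ValuationSubring M} (hP : P.comap (algebraMap F M) = O) {d : F}
    (hd0 : d ≠ 0)
    (hd : ∀ f : F, O.valuation f < 1 → ∃ j : ℕ, O.valuation f ^ j ≤ O.valuation d)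
    {x : M} (hx : P.valuation x < 1) :
    ∃ j : ℕ, P.valuation x ^ j ≤ P.valuation (algebraMap F M d) := by
  by_cases hx0 : x = 0
  · exact ⟨1, by rw [hx0, map_zero, pow_one]; exact zero_le⟩
  have hxP : x ∈ P := (P.valuation_le_one_iff _).1 hx.le
  let R : Subring M :=
    { carrier := {y | ∃ j : ℕ, x ^ j * y ∈ P}
      mul_mem' := by
        rintro a b ⟨i, hi⟩ ⟨j, hj⟩
        refine ⟨i + j, ?_⟩
        have := P.mul_mem _ _ hi hj
        have e : x ^ (i + j) * (a * b) = (x ^ i * a) * (x ^ j * b) := by ring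
        rwa [e]
      one_mem' := ⟨0, by rw [pow_zero, one_mul]; exact P.one_mem⟩
      add_mem' := by
        rintro a b ⟨i, hi⟩ ⟨j, hj⟩
        refine ⟨i + j, ?_⟩
        have h1 := P.mul_mem _ _ (P.toSubring.pow_mem hxP j) hi
        have h2 := P.mul_mem _ _ (P.toSubring.pow_mem hxP i) hj
        have e : x ^ (i + j) * (a + b) = x ^ j * (x ^ i * a) + x ^ i * (x ^ j * b) := by
          ring
        rw [e]
        exact P.add_mem _ _ h1 h2
      zero_mem' := ⟨0, by rw [mul_zero]; exact P.zero_mem⟩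
      neg_mem' := by
        rintro a ⟨i, hi⟩
        exact ⟨i, by rw [mul_neg]; exact P.neg_mem _ hi⟩ }
  have hPR : P.toSubring ≤ R := by
    intro y hy
    exact ⟨0, by rw [pow_zero, one_mul]; exact hy⟩
  obtain ⟨S, hSR⟩ : ∃ S : ValuationSubring M, ∀ y, y ∈ S ↔ ∃ j : ℕ, x ^ j * y ∈ P :=
    ⟨P.ofLE R hPR, fun y => Iff.rfl⟩
  have hPS : P ≤ S := fun y hy => (hSR y).2 ⟨0, by rw [pow_zero, one_mul]; exact hy⟩
  have hxS : x⁻¹ ∈ S := (hSR _).2 ⟨1, by rw [pow_one, mul_inv_cancel₀ hx0]; exact P.one_mem⟩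
  have hxP' : x⁻¹ ∉ P := by
    rw [v_lt_one_iff] at hx
    exact hx.resolve_left hx0
  have hne : S.comap (algebraMap F M) ≠ O := by
    intro e
    rw [incomp hP e hPS] at hxP'
    exact hxP' hxS
  have hle : O ≤ S.comap (algebraMap F M) := by
    intro f hf
    rw [ValuationSubring.mem_comap]
    exact hPS ((over_le hP f).2 hf)
  obtain ⟨f, hf1, hf2⟩ : ∃ f, f ∈ S.comap (algebraMap F M) ∧ f ∉ O := by
    by_contra hc
    push Not at hc
    exact hne (le_antisymm (fun f hf => hc f hf) hle)
  rw [ValuationSubring.mem_comap] at hf1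
  have hf0 : f ≠ 0 := fun e => hf2 (e ▸ O.zero_mem)
  obtain ⟨j, hj⟩ := hd f⁻¹ (by
    rw [v_lt_one_iff]
    right
    rwa [inv_inv])
  have h1 : f⁻¹ ^ j / d ∈ O := by
    rw [← O.valuation_le_one_iff, map_div₀, map_pow, div_le_one₀]
    · exact hj
    · exact zero_lt_iff.2 ((Valuation.ne_zero_iff _).2 hd0)
  have h2 : (algebraMap F M d)⁻¹ ∈ S := by
    have h3 := S.mul_mem _ _ (S.toSubring.pow_mem hf1 j) (hPS ((over_le hP _).2 h1))
    rw [← map_pow, ← map_mul, inv_pow, div_eq_mul_inv, mul_inv_cancel_left₀ (pow_ne_zero _ hf0),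
      map_inv₀] at h3
    exact h3
  rw [hSR] at h2
  obtain ⟨k, hk⟩ := h2
  refine ⟨k, ?_⟩
  rw [← P.valuation_le_one_iff, map_mul, map_pow, map_inv₀, ← div_eq_mul_inv, div_le_one₀] at hk
  · exact hk
  · rw [zero_lt_iff, Valuation.ne_zero_iff, Ne, map_eq_zero]
    exact hd0

end

end Pool.Agent.Helper58.ET
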