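import Mathlib
import Pool.Agent.Helper58.ET.Ext

set_option autoImplicit false

/-! Conjugacy of the extensions of a valuation ring to a finite Galois extension, approximation,
and uniqueness of the extension in degree `p` if the `p`-th powers are open. -/

namespace Pool.Agent.Helper58.ET

section

variable {F M : Type} [Field F] [Field M] [Algebra F M] {O : ValuationSubring F}

/-- the conjugate ring -/
abbrev cj (P : ValuationSubring M) (σ : M ≃ₐ[F] M) : ValuationSubring M :=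
  P.comap (σ : M →+* M)

lemma mem_cj {P : ValuationSubring M} {σ : M ≃ₐ[F] M} {x : M} : x ∈ cj P σ ↔ σ x ∈ P := Iff.rfl

lemma cj_over {P : ValuationSubring M} (hP : P.comap (algebraMap F M) = O) (σ : M ≃ₐ[F] M) :
    (cj P σ).comap (algebraMap F M) = O := by
  ext f
  rw [ValuationSubring.mem_comap, mem_cj, AlgEquiv.commutes, over_le hP]

lemma cj_lt {P : ValuationSubring M} {σ : M ≃ₐ[F] M} {x : M} :
    (cj P σ).valuation x < 1 ↔ P.valuation (σ x) < 1 := by
  rw [v_lt_one_iff, v_lt_one_iff, mem_cj, map_inv₀, EmbeddingLike.map_eq_zero_iff]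

lemma cj_mul (P : ValuationSubring M) (σ τ : M ≃ₐ[F] M) : cj P (σ * τ) = cj (cj P σ) τ := rfl

lemma Bb_map {x : M} (hx : x ∈ Bb M O) (σ : M ≃ₐ[F] M) : σ x ∈ Bb M O := by
  intro W hW
  refine hx (cj W σ) fun f hf => ?_
  rw [mem_cj, AlgEquiv.commutes]
  exact hW f hf

variable [FiniteDimensional F M]

/-- conjugacy -/
theorem conj [IsGalois F M] {P S : ValuationSubring M} (hP : P.comap (algebraMap F M) = O)
    (hS : S.comap (algebraMap F M) = O) : ∃ σ : M ≃ₐ[F] M, cj P σ = S := by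
  classical
  have key : ((cen S hS : Ideal (Bb M O)) : Set (Bb M O)) ⊆
      ⋃ σ ∈ ((Finset.univ : Finset (M ≃ₐ[F] M)) : Set (M ≃ₐ[F] M)),
        (cen (cj P σ) (cj_over hP σ) : Set (Bb M O)) := by
    intro b hb
    have hb' : S.valuation (b : M) < 1 := hb
    have h1 : S.valuation (algebraMap F M (Algebra.norm F (b : M))) < 1 := by
      rw [Algebra.norm_eq_prod_automorphisms, map_prod,
        ← Finset.mul_prod_erase Finset.univ _ (Finset.mem_univ (1 : M ≃ₐ[F] M))]
      refine mul_lt_one_of_nonneg_of_lt_one_left zero_le hb' (Finset.prod_le_one' fun σ _ => ?_)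
      exact (S.valuation_le_one_iff _).2 (Bb_le hS (Bb_map b.2 σ))
    rw [over_lt hS, ← over_lt hP, Algebra.norm_eq_prod_automorphisms, map_prod] at h1
    obtain ⟨σ, hσ⟩ : ∃ σ : M ≃ₐ[F] M, P.valuation (σ (b : M)) < 1 := by
      by_contra hc
      push Not at hc
      exact absurd h1 (not_lt.2 (Finset.one_le_prod' fun σ _ => hc σ))
    refine Set.mem_biUnion (Finset.mem_coe.2 (Finset.mem_univ σ)) ?_
    exact cj_lt.2 hσ
  rw [Ideal.subset_union_prime 1 1 fun σ _ _ _ => cen_prime _ _] at key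
  obtain ⟨σ, -, hσ⟩ := key
  exact ⟨σ, (eq_of_cen hS (cj_over hP σ) hσ).symm⟩

/-- approximation of the first order -/
lemma approx0 {P : ValuationSubring M} (hP : P.comap (algebraMap F M) = O)
    (hd : ∀ σ : M ≃ₐ[F] M, σ ≠ 1 → cj P σ ≠ P) :
    ∃ u : M, P.valuation (u - 1) < 1 ∧ ∀ σ : M ≃ₐ[F] M, σ ≠ 1 → P.valuation (σ u) < 1 := by
  classical
  have h1 : ¬ (Finset.univ.erase (1 : M ≃ₐ[F] M)).inf
      (fun σ => cen (cj P σ) (cj_over hP σ)) ≤ cen P hP := by
    intro h
    rw [Ideal.IsPrime.inf_le' (cen_prime P hP)] at h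
    obtain ⟨σ, hσ, h⟩ := h
    exact hd σ (Finset.ne_of_mem_erase hσ) (eq_of_cen _ _ h)
  rw [SetLike.not_le_iff_exists] at h1
  obtain ⟨b, hb, hbP⟩ := h1
  rw [Submodule.mem_finsetInf] at hb
  have hbP' : ¬ P.valuation (b : M) < 1 := hbP
  have hb1 : P.valuation (b : M) = 1 :=
    le_antisymm ((P.valuation_le_one_iff _).2 (Bb_le hP b.2)) (not_lt.1 hbP')
  have hb0 : (b : M) ≠ 0 := by
    intro e
    rw [e, map_zero] at hb1
    exact zero_ne_one hb1
  obtain ⟨y, z, hyz, h2, h3⟩ := denom (F := F) O (inv_ne_zero hb0)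
  have hzB : z ∈ Bb M O := fun W hW => (h2 W hW).2
  refine ⟨y, h3 P hP ?_, fun σ hσ => ?_⟩
  · rw [← P.valuation_le_one_iff, map_inv₀, hb1, inv_one]
  · have e1 : y = z * b := by
      rw [← hyz]
      field_simp
    rw [e1, map_mul, map_mul]
    refine mul_lt_one_of_nonneg_of_lt_one_right ?_ zero_le ?_
    · exact (P.valuation_le_one_iff _).2 (Bb_le hP (Bb_map hzB σ))
    · exact cj_lt.1 (hb σ (Finset.mem_erase.2 ⟨hσ, Finset.mem_univ _⟩))

/-- `(1 + a)^n - 1` is divisible by `a` -/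
lemma sub_one_pow_le (P : ValuationSubring M) {a : M} (ha : P.valuation a ≤ 1) (n : ℕ) :
    P.valuation ((1 + a) ^ n - 1) ≤ P.valuation a := by
  have h1 : (1 + a) ^ n - 1 = (∑ i ∈ Finset.range n, (1 + a) ^ i) * a := by
    have := geom_sum_mul (1 + a) n
    rw [← this]
    ring
  rw [h1, map_mul]
  refine mul_le_of_le_one_left zero_le ?_
  rw [P.valuation_le_one_iff]
  refine sum_mem fun i _ => P.toSubring.pow_mem ?_ i
  exact P.add_mem _ _ P.one_mem ((P.valuation_le_one_iff _).1 ha)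

/-- approximation -/
lemma approx {P : ValuationSubring M} (hP : P.comap (algebraMap F M) = O)
    (hcj : ∀ σ : M ≃ₐ[F] M, σ ≠ 1 → cj P σ ≠ P) {d : F} (hd0 : d ≠ 0)
    (hd : ∀ f : F, O.valuation f < 1 → ∃ j : ℕ, O.valuation f ^ j ≤ O.valuation d) :
    ∃ u : M, P.valuation (u - 1) ≤ P.valuation (algebraMap F M d) ∧
      ∀ σ : M ≃ₐ[F] M, σ ≠ 1 → P.valuation (σ u) ≤ P.valuation (algebraMap F M d) := by
  classical
  obtain ⟨u, hu, huσ⟩ := approx0 hP hcj
  have h1 : ∀ x : M, ∃ j : ℕ, P.valuation x < 1 → ∀ n, j ≤ n →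
      P.valuation x ^ n ≤ P.valuation (algebraMap F M d) := by
    intro x
    by_cases hx : P.valuation x < 1
    · obtain ⟨j, hj⟩ := arch_lift hP hd0 hd hx
      exact ⟨j, fun _ n hn => (pow_le_pow_right_of_le_one' hx.le hn).trans hj⟩
    · exact ⟨0, fun h => absurd h hx⟩
  choose j hj using h1
  obtain ⟨n, hn0, hn1, hn2⟩ : ∃ n, 1 ≤ n ∧ j (u - 1) ≤ n ∧ ∀ σ : M ≃ₐ[F] M, j (σ u) ≤ n := by
    refine ⟨1 + j (u - 1) + ∑ σ : M ≃ₐ[F] M, j (σ u), by omega, by omega, fun σ => ?_⟩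
    have := Finset.single_le_sum (f := fun σ : M ≃ₐ[F] M => j (σ u)) (fun _ _ => Nat.zero_le _)
      (Finset.mem_univ σ)
    omega
  refine ⟨1 - (1 - u ^ n) ^ n, ?_, fun σ hσ => ?_⟩
  · rw [show (1 : M) - (1 - u ^ n) ^ n - 1 = -(1 - u ^ n) ^ n by ring, Valuation.map_neg, map_pow]
    refine (pow_le_pow_left₀ zero_le ?_ n).trans (hj _ hu n hn1)
    rw [show (1 : M) - u ^ n = -((1 + (u - 1)) ^ n - 1) by ring, Valuation.map_neg]
    exact sub_one_pow_le P hu.le n
  · have h2 := hj _ (huσ σ hσ) n (hn2 σ)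
    have h3 : P.valuation (-(σ u) ^ n) ≤ 1 := by
      rw [Valuation.map_neg, map_pow]
      exact pow_le_one₀ zero_le (huσ σ hσ).le
    have h4 : σ (1 - (1 - u ^ n) ^ n) = -((1 + -(σ u) ^ n) ^ n - 1) := by
      simp only [map_sub, map_pow, map_one]
      ring
    rw [h4, Valuation.map_neg]
    refine (sub_one_pow_le P h3 n).trans ?_
    rwa [Valuation.map_neg, map_pow]

/-- the `p`-th powers are open for the valuation ring `O` -/
structure Op (p : ℕ) (O : ValuationSubring F) (d : F) : Prop where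
  ne : d ≠ 0
  lt : O.valuation d < 1
  opn : ∀ v : F, O.valuation v ≤ O.valuation d → ∃ y : F, y ^ p = 1 + v
  arch : ∀ f : F, O.valuation f < 1 → ∃ j : ℕ, O.valuation f ^ j ≤ O.valuation d

/-- the valuation ring does not split completely in an extension of degree `p` -/
theorem not_split [IsGalois F M] {p : ℕ} (hp : p.Prime) (hζ : ∃ ζ : F, IsPrimitiveRoot ζ p)
    (hM : Module.finrank F M = p) {d : F} (hO : Op p O d) {P : ValuationSubring M}
    (hP : P.comap (algebraMap F M) = O) : ∃ σ : M ≃ₐ[F] M, σ ≠ 1 ∧ cj P σ = P := by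
  classical
  by_contra hcj
  push Not at hcj
  have _ : Fact p.Prime := ⟨hp⟩
  have hcard : Nat.card (M ≃ₐ[F] M) = p := by rw [IsGalois.card_aut_eq_finrank, hM]
  have _ : IsCyclic (M ≃ₐ[F] M) := isCyclic_of_prime_card hcard
  obtain ⟨ζ, hζ⟩ := hζ
  have hζ0 : ζ ≠ 0 := hζ.ne_zero hp.ne_zero
  obtain ⟨α, ⟨a, ha⟩, hα⟩ := exists_root_adjoin_eq_top_of_isCyclic (K := F) (L := M)
    ⟨ζ, by rw [hM, mem_primitiveRoots hp.pos]; exact hζ⟩
  rw [hM] at ha
  have hαF : α ∉ Set.range (algebraMap F M) := by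
    rintro ⟨b, rfl⟩
    have h1 : (⊥ : IntermediateField F M) = ⊤ := by
      rw [← hα, eq_comm, IntermediateField.adjoin_simple_eq_bot_iff]
      exact algebraMap_mem _ b
    have h2 := IntermediateField.bot_eq_top_iff_finrank_eq_one.1 h1
    rw [hM] at h2
    exact hp.one_lt.ne' h2
  have hα0 : α ≠ 0 := by
    rintro rfl
    exact hαF ⟨0, map_zero _⟩
  -- the action on `α`
  have hω : ∀ σ : M ≃ₐ[F] M, ∃ i : ℕ, σ α = algebraMap F M (ζ ^ i) * α := by
    intro σ
    have h1 : (σ α / α) ^ p = 1 := by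
      rw [div_pow, ← map_pow, ← ha, AlgEquiv.commutes, div_self]
      rw [ha]
      exact pow_ne_zero _ hα0
    obtain ⟨i, -, hi⟩ := (hζ.map_of_injective (algebraMap F M).injective).eq_pow_of_pow_eq_one h1
    refine ⟨i, ?_⟩
    rw [map_pow, hi, div_mul_cancel₀ _ hα0]
  choose i hi using hω
  obtain ⟨u, hu, huσ⟩ := approx hP hcj hO.ne hO.arch
  -- the trace of `u α`
  obtain ⟨f, hf⟩ : ∃ f : F, algebraMap F M f = ∑ σ : M ≃ₐ[F] M, σ (u * α) :=
    ⟨Algebra.trace F M (u * α), by rw [trace_eq_sum_automorphisms]⟩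
  obtain ⟨w, hw⟩ : ∃ w, w = algebraMap F M f / α - 1 := ⟨_, rfl⟩
  have hwd : P.valuation w ≤ P.valuation (algebraMap F M d) := by
    have h1 : w = (u - 1) + ∑ σ ∈ Finset.univ.erase (1 : M ≃ₐ[F] M),
        algebraMap F M (ζ ^ i σ) * σ u := by
      have h2 : algebraMap F M f = (u + ∑ σ ∈ Finset.univ.erase (1 : M ≃ₐ[F] M),
          algebraMap F M (ζ ^ i σ) * σ u) * α := by
        rw [hf, ← Finset.add_sum_erase Finset.univ _ (Finset.mem_univ (1 : M ≃ₐ[F] M)), add_mul,
          Finset.sum_mul]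
        congr 1
        refine Finset.sum_congr rfl fun σ _ => ?_
        rw [map_mul, hi]
        ring
      rw [hw, h2, mul_div_cancel_right₀ _ hα0]
      ring
    rw [h1]
    refine Valuation.map_add_le _ hu (Valuation.map_sum_le _ fun σ hσ => ?_)
    rw [map_mul]
    refine (mul_le_of_le_one_left zero_le ?_).trans (huσ σ (Finset.ne_of_mem_erase hσ))
    have h3 : P.valuation (algebraMap F M (ζ ^ i σ)) ^ p = 1 := by
      rw [← map_pow, ← map_pow, ← pow_mul, mul_comm, pow_mul, hζ.pow_eq_one, one_pow, map_one,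
        map_one]
    exact ((pow_eq_one_iff_of_nonneg zero_le hp.ne_zero).1 h3).le
  have ha0 : a ≠ 0 := by
    rintro rfl
    rw [map_zero] at ha
    exact pow_ne_zero _ hα0 ha.symm
  have hd1 : P.valuation (algebraMap F M d) < 1 := (over_lt hP d).2 hO.lt
  have hw1 : P.valuation w ≤ 1 := hwd.trans hd1.le
  -- `f ^ p / a` is close to one
  have h1 : algebraMap F M (f ^ p / a - 1) = (1 + w) ^ p - 1 := by
    rw [map_sub, map_div₀, map_pow, ha, map_one, hw, ← div_pow]
    congr 2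
    ring
  have h2 : O.valuation (f ^ p / a - 1) ≤ O.valuation d := by
    have h3 := (sub_one_pow_le P hw1 p).trans hwd
    rw [← h1] at h3
    have hd' : 0 < O.valuation d := zero_lt_iff.2 ((Valuation.ne_zero_iff _).2 hO.ne)
    have hd'' : 0 < P.valuation (algebraMap F M d) := by
      rw [zero_lt_iff, Valuation.ne_zero_iff, Ne, map_eq_zero]
      exact hO.ne
    rw [← div_le_one₀ hd'', ← map_div₀, P.valuation_le_one_iff, ← map_div₀, over_le hP,
      ← O.valuation_le_one_iff, map_div₀, div_le_one₀ hd'] at h3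
    exact h3
  obtain ⟨g, hg⟩ := hO.opn _ h2
  have hf0 : f ≠ 0 := by
    rintro rfl
    have hw' : w = -1 := by rw [hw, map_zero, zero_div]; ring
    rw [hw', Valuation.map_neg, map_one] at hwd
    exact absurd hwd (not_le.2 hd1)
  have hg1 : g ^ p = f ^ p / a := by
    rw [hg]
    ring
  have hg0 : g ≠ 0 := by
    rintro rfl
    rw [zero_pow hp.ne_zero] at hg1
    exact (div_ne_zero (pow_ne_zero _ hf0) ha0) hg1.symm
  have h4 : (α / algebraMap F M (f / g)) ^ p = 1 := by
    have h5 : a = (f / g) ^ p := by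
      rw [div_pow, hg1]
      have := pow_ne_zero p hf0
      field_simp
    rw [div_pow, ← ha, h5, ← map_pow, div_self]
    rw [map_pow]
    refine pow_ne_zero _ ?_
    rw [Ne, map_eq_zero]
    exact div_ne_zero hf0 hg0
  obtain ⟨k, -, hk⟩ := (hζ.map_of_injective (algebraMap F M).injective).eq_pow_of_pow_eq_one h4
  apply hαF
  refine ⟨ζ ^ k * (f / g), ?_⟩
  rw [map_mul, map_pow, hk, div_mul_cancel₀]
  rw [Ne, map_eq_zero]
  exact div_ne_zero hf0 hg0

end

end Pool.Agent.Helper58.ET
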