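import Mathlib
import Pool.Agent.Helper58.ET.Conj
import Pool.Graph.R_seed8.Y920.EP.GalP

set_option autoImplicit false

/-! Valuation rings for which the `p`-th powers are open have a unique extension to the maximal
`p`-extension. -/

namespace Pool.Agent.Helper58.ET

open Pool.Agent.Y920.EP

/-- extensions of a valuation ring with open `p`-th powers are invariant -/
theorem invariant {F M : Type} [Field F] [Field M] [Algebra F M] [FiniteDimensional F M]
    [IsGalois F M] {p : ℕ} (hp : p.Prime) (hζ : ∃ ζ : F, IsPrimitiveRoot ζ p) {k : ℕ}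
    (hM : Module.finrank F M = p ^ k) {O : ValuationSubring F} {d : F} (hO : Op p O d)
    {P : ValuationSubring M} (hP : P.comap (algebraMap F M) = O) (σ : M ≃ₐ[F] M) :
    cj P σ = P := by
  classical
  have _ : Fact p.Prime := ⟨hp⟩
  have hcard : Nat.card (M ≃ₐ[F] M) = p ^ k := by rw [IsGalois.card_aut_eq_finrank, hM]
  -- the decomposition group
  let Z : Subgroup (M ≃ₐ[F] M) :=
    { carrier := {σ | cj P σ = P}
      mul_mem' := by
        intro σ τ hσ hτ
        have hσ' : cj P σ = P := hσ
        have hτ' : cj P τ = P := hτ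
        change cj P (σ * τ) = P
        rw [cj_mul, hσ', hτ']
      one_mem' := rfl
      inv_mem' := by
        intro σ hσ
        have hσ' : cj P σ = P := hσ
        change cj P σ⁻¹ = P
        have h1 : cj (cj P σ) σ⁻¹ = P := by
          rw [← cj_mul, mul_inv_cancel]
          rfl
        rwa [hσ'] at h1 }
  by_cases hZ : Z = ⊤
  · have : σ ∈ Z := by rw [hZ]; exact Subgroup.mem_top σ
    exact this
  exfalso
  -- a normal subgroup of index `p`
  obtain ⟨m, hm⟩ : ∃ m, Nat.card Z = p ^ m := by
    have h1 : Nat.card Z ∣ p ^ k := by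
      rw [← hcard]
      exact Subgroup.card_subgroup_dvd_card Z
    obtain ⟨m, -, hm⟩ := (Nat.dvd_prime_pow hp).1 h1
    exact ⟨m, hm⟩
  have hmk : m < k := by
    by_contra hc
    rw [not_lt] at hc
    apply hZ
    apply Subgroup.eq_top_of_le_card
    rw [hm, hcard]
    exact Nat.pow_le_pow_right hp.pos hc
  obtain ⟨l, rfl⟩ : ∃ l, k = l + 1 := ⟨k - 1, by omega⟩
  obtain ⟨U, hU, hZU⟩ := Sylow.exists_subgroup_card_pow_prime_le (G := M ≃ₐ[F] M) p (n := m)
    (m := l) (by rw [hcard]; exact pow_dvd_pow p (Nat.le_succ l)) Z hm (by omega)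
  have hpos : 0 < p ^ l := pow_pos hp.pos l
  have hind : U.index = p := by
    have h3 := U.card_mul_index
    rw [hU, hcard, pow_succ] at h3
    exact Nat.eq_of_mul_eq_mul_left hpos h3
  have hnor : U.Normal := by
    apply Subgroup.normal_of_index_eq_minFac_card
    rw [hind, hcard, hp.pow_minFac (Nat.succ_ne_zero l)]
  have hEM : Module.finrank (IntermediateField.fixedField U) M = p ^ l := by
    rw [IntermediateField.finrank_fixedField_eq_card, hU]
  have hFE : Module.finrank F (IntermediateField.fixedField U) = p := by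
    have h3 := Module.finrank_mul_finrank F (IntermediateField.fixedField U) M
    rw [hEM, hM, pow_succ, mul_comm] at h3
    exact Nat.eq_of_mul_eq_mul_left hpos h3
  have hgal : IsGalois F (IntermediateField.fixedField U) := inferInstance
  obtain ⟨E, hE⟩ : ∃ E, E = IntermediateField.fixedField U := ⟨_, rfl⟩
  rw [← hE] at hEM hFE hgal
  have hgal' : IsGalois E M := inferInstance
  have hPE : (P.comap (algebraMap E M)).comap (algebraMap F E) = O := by
    rw [← hP]
    rfl
  obtain ⟨τ, hτ1, hτ⟩ := not_split hp hζ hFE hO hPE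
  -- lift
  have hnormal : Normal F E := hgal.to_normal
  obtain ⟨τ', hτ'⟩ := AlgEquiv.restrictNormalHom_surjective (F := F) (K₁ := E) M τ
  have hcomm : ∀ x : E, algebraMap E M (τ x) = τ' (algebraMap E M x) := by
    intro x
    rw [← hτ']
    exact AlgEquiv.restrictNormal_commutes τ' E x
  have h1 : (cj P τ').comap (algebraMap E M) = P.comap (algebraMap E M) := by
    conv_rhs => rw [← hτ]
    ext x
    rw [ValuationSubring.mem_comap, mem_cj, mem_cj, ValuationSubring.mem_comap, hcomm]
  obtain ⟨ρ, hρ⟩ := conj (F := E) (M := M) (P := cj P τ') (S := P) h1 rfl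
  -- `τ' ρ` is in the decomposition group
  have h2 : τ' * (ρ.restrictScalars F) ∈ Z := by
    change cj P (τ' * (ρ.restrictScalars F)) = P
    rw [cj_mul]
    exact hρ
  have h3 := hZU h2
  have h4 : ρ.restrictScalars F ∈ U := by
    rw [← IntermediateField.fixingSubgroup_fixedField U, ← hE,
      IntermediateField.mem_fixingSubgroup_iff]
    intro x hx
    exact ρ.commutes ⟨x, hx⟩
  have h5 : τ' ∈ U := by
    have := mul_mem h3 (inv_mem h4)
    rwa [mul_inv_cancel_right] at this
  apply hτ1
  ext x
  have h6 : τ' (algebraMap E M x) = algebraMap E M x := by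
    rw [← IntermediateField.fixingSubgroup_fixedField U, ← hE,
      IntermediateField.mem_fixingSubgroup_iff] at h5
    exact h5 _ x.2
  rw [← hcomm] at h6
  exact congrArg Subtype.val ((algebraMap E M).injective h6)

/-- the decomposition group of a valuation ring with open `p`-th powers -/
theorem decInert' (h : AllG) (p : ℕ) (hp : p.Prime) (F : Type) [Field F]
    (hζ : ∃ ζ : F, IsPrimitiveRoot ζ p) (O : ValuationSubring F) {d : F} (hO : Op p O d)
    (hc : ∃ c : Fˣ, ∀ f : Fˣ, ¬ (((c * f ^ p : Fˣ) : F) ∈ O ∧ (((c * f ^ p)⁻¹ : Fˣ) : F) ∈ O))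
    (K : IntermediateField F (AlgebraicClosure F)) (hK : IsMaxP p F K) : DecInert F K := by
  obtain ⟨hG, hL, hsq⟩ := h.mx p hp F hζ K hK
  obtain ⟨O₁, hO₁⟩ := Pool.Agent.Y620.ET.t_EXTV F K O
  have hmem : ∀ f : F, algebraMap F K f ∈ O₁ ↔ f ∈ O := by
    intro f
    rw [← hO₁, ValuationSubring.mem_comap]
  have hinv : ∀ (σ : K ≃ₐ[F] K) (x : K), σ x ∈ O₁ ↔ x ∈ O₁ := by
    intro σ x
    obtain ⟨L, hxL, hfd, hgal, k, hk⟩ := hL x
    let O₂ : ValuationSubring K := O₁.comap (σ : K →+* K)
    have h1 : (O₁.comap (algebraMap L K)).comap (algebraMap F L) = O := by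
      rw [← hO₁]
      ext f
      rw [ValuationSubring.mem_comap, ValuationSubring.mem_comap, ValuationSubring.mem_comap]
      rfl
    have h3 : (O₂.comap (algebraMap L K)).comap (algebraMap F L) = O := by
      rw [← hO₁]
      ext f
      rw [ValuationSubring.mem_comap, ValuationSubring.mem_comap, ValuationSubring.mem_comap,
        ValuationSubring.mem_comap]
      have : (σ : K →+* K) (algebraMap L K (algebraMap F L f)) = algebraMap F K f := σ.commutes f
      rw [this]
    obtain ⟨τ, hτ⟩ := conj h1 h3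
    have h4 : O₁.comap (algebraMap L K) = O₂.comap (algebraMap L K) := by
      rw [← hτ]
      exact (invariant hp hζ hk hO h1 τ).symm
    have h5 : (⟨x, hxL⟩ : L) ∈ O₁.comap (algebraMap L K) ↔
        (⟨x, hxL⟩ : L) ∈ O₂.comap (algebraMap L K) := by rw [h4]
    rw [ValuationSubring.mem_comap, ValuationSubring.mem_comap, ValuationSubring.mem_comap] at h5
    exact h5.symm
  obtain ⟨c, hc⟩ := hc
  obtain ⟨y, hy⟩ := hsq (c : F)
  obtain ⟨σ, hσ1, hσ⟩ := h.inert p hp F K hζ O₁ hinv (c : F) y c.ne_zero hy (by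
    intro f hf h3 h4
    rw [hmem] at h3 h4
    refine hc (Units.mk0 f hf) ⟨?_, ?_⟩
    · rw [Units.val_mul, Units.val_pow_eq_pow_val, Units.val_mk0]
      exact h3
    · rw [Units.val_inv_eq_inv_val, Units.val_mul, Units.val_pow_eq_pow_val, Units.val_mk0]
      exact h4)
  refine ⟨O₁.ValueGroup, inferInstance, O₁.valuation, ?_, σ, hσ1, ?_⟩
  · intro σ x
    rw [ValuationSubring.valuation_le_one_iff, ValuationSubring.valuation_le_one_iff]
    exact hinv σ x
  · intro x hx
    exact hσ x ((ValuationSubring.valuation_le_one_iff _ _).1 hx)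

end Pool.Agent.Helper58.ET
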