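import Mathlib
import Pool.Agent.Helper58.ET.Key

set_option autoImplicit false

/-! A subgroup of finite index with a nondegenerate indecomposable system of norm groups is open
for a valuation. -/

namespace Pool.Agent.Helper58.ET

open Pool.Agent.Y920.EP

section

variable {F : Type} [Field F] {A : Type} [CommGroup A] {φ : Fˣ →* A} {Nn : A → Subgroup A}

/-- the quotients `(c - c') / c'` have all classes -/
def Cube (φ : Fˣ →* A) (C : Finset Fˣ) : Prop :=
  ∀ c ∈ C, ∀ a : A, ∃ c' ∈ C, ∃ d : Fˣ, (d : F) = c - c' ∧ φ d / φ c' = a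

lemma exists_cube (h : Nd φ Nn) [Infinite F] [Finite A] :
    ∃ C : Finset Fˣ, Cube φ C ∧ 1 ∈ C ∧ ∀ a : A, ∃ c ∈ C, φ c = a := by
  classical
  have _ := Fintype.ofFinite A
  have hsurj := h.surj
  choose r hr using hsurj
  have h1 : ∀ a : A, ∃ w v : Fˣ, φ w = a ∧ (v : F) = 1 + w ∧ φ v = 1 := by
    intro a
    obtain ⟨w, hw, hs⟩ := exists_small h.surj {1} a
    obtain ⟨z, hz, hz1⟩ := (hs 1 (Finset.mem_singleton_self 1)).1
    exact ⟨w, z, hw, by rw [hz, Units.val_one], by rw [hz1, map_one]⟩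
  choose w v hw hv hv1 using h1
  have hprod : ∀ B : Finset A, φ (∏ b ∈ B, v b) = 1 := by
    intro B
    rw [map_prod]
    exact Finset.prod_eq_one fun b _ => hv1 b
  refine ⟨(insert 1 (Finset.univ.image r) ×ˢ (Finset.univ : Finset (Finset A))).image
    fun q => q.1 * ∏ b ∈ q.2, v b, ?_, ?_, ?_⟩
  · intro c hc a
    rw [Finset.mem_image] at hc
    obtain ⟨⟨e, B⟩, he, rfl⟩ := hc
    rw [Finset.mem_product] at he
    have he1 := he.1
    dsimp only at he1 ⊢
    by_cases ha : a ∈ B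
    · refine ⟨e * ∏ b ∈ B.erase a, v b, Finset.mem_image.2 ⟨(e, B.erase a), ?_, rfl⟩,
        e * (∏ b ∈ B.erase a, v b) * w a, ?_, ?_⟩
      · rw [Finset.mem_product]
        exact ⟨he1, Finset.mem_univ _⟩
      · rw [← Finset.mul_prod_erase B v ha]
        simp only [Units.val_mul]
        rw [hv a]
        ring
      · rw [map_mul _ _ (w a), mul_div_cancel_left, hw]
    · refine ⟨e * ∏ b ∈ insert a B, v b, Finset.mem_image.2 ⟨(e, insert a B), ?_, rfl⟩,
        -(e * (∏ b ∈ B, v b) * w a), ?_, ?_⟩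
      · rw [Finset.mem_product]
        exact ⟨he1, Finset.mem_univ _⟩
      · rw [Finset.prod_insert ha]
        simp only [Units.val_mul, Units.val_neg]
        rw [hv a]
        ring
      · rw [phi_neg h.neg, map_mul _ _ (w a), map_mul _ e, map_mul _ e, hprod, hprod,
          mul_div_cancel_left, hw]
  · refine Finset.mem_image.2 ⟨(1, ∅), ?_, by simp⟩
    rw [Finset.mem_product]
    exact ⟨Finset.mem_insert_self _ _, Finset.mem_univ _⟩
  · intro a
    refine ⟨r a, Finset.mem_image.2 ⟨(r a, ∅), ?_, by simp⟩, hr a⟩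
    rw [Finset.mem_product]
    exact ⟨Finset.mem_insert_of_mem (Finset.mem_image.2 ⟨a, Finset.mem_univ _, rfl⟩),
      Finset.mem_univ _⟩

/-- the differences -/
noncomputable def Dl [DecidableEq F] (C : Finset Fˣ) : Finset Fˣ :=
  (C ×ˢ C).biUnion fun q => if h : (q.1 : F) - q.2 = 0 then ∅ else {Units.mk0 _ h}

lemma mem_Dl [DecidableEq F] {C : Finset Fˣ} {d : Fˣ} :
    d ∈ Dl C ↔ ∃ c ∈ C, ∃ c' ∈ C, (d : F) = c - c' := by
  unfold Dl
  rw [Finset.mem_biUnion]
  constructor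
  · rintro ⟨⟨c, c'⟩, hq, hd⟩
    rw [Finset.mem_product] at hq
    dsimp only at hd hq
    split_ifs at hd with h
    · exact absurd hd (Finset.notMem_empty _)
    · rw [Finset.mem_singleton] at hd
      exact ⟨c, hq.1, c', hq.2, by rw [hd, Units.val_mk0]⟩
  · rintro ⟨c, hc, c', hc', hd⟩
    refine ⟨(c, c'), Finset.mem_product.2 ⟨hc, hc'⟩, ?_⟩
    dsimp only
    have h : (c : F) - c' ≠ 0 := by rw [← hd]; exact d.ne_zero
    rw [dif_neg h, Finset.mem_singleton]
    ext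
    rw [Units.val_mk0, hd]

/-- `c + x` has the class of `c` -/
def Gd (φ : Fˣ →* A) (C : Finset Fˣ) (x : F) : Prop :=
  ∀ c ∈ C, ∃ z : Fˣ, (z : F) = c + x ∧ φ z = φ c

/-- the group generated by the small elements -/
def gr [DecidableEq F] (φ : Fˣ →* A) (C : Finset Fˣ) : AddSubgroup F :=
  AddSubgroup.closure {x | ∃ u : Fˣ, (u : F) = x ∧ Sm φ (Dl C) u}

lemma gd_add (h : Nd φ Nn) [Nontrivial A] [DecidableEq F] {C : Finset Fˣ} (hC : Cube φ C)
    {x : F} (hx : Gd φ C x) {u : Fˣ} (hu : Sm φ (Dl C) u) : Gd φ C (x + u) := by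
  intro c hc
  obtain ⟨z, hz, hz1⟩ := hx c hc
  have h0 : (z : F) + u ≠ 0 := by
    intro e
    obtain ⟨a, ha⟩ := exists_ne (1 : A)
    obtain ⟨c', hc', d, hd, hda⟩ := hC c hc a
    obtain ⟨t, ht, ht1⟩ := (hu d (mem_Dl.2 ⟨c, hc, c', hc', hd⟩)).1
    obtain ⟨z', hz', hz1'⟩ := hx c' hc'
    have e1 : t = -z' := by
      ext
      rw [Units.val_neg, ht, hz', hd]
      rw [hz] at e
      linear_combination e
    rw [e1, phi_neg h.neg, hz1'] at ht1
    apply ha
    rw [← hda, ht1, div_self']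
  obtain ⟨v, hv⟩ : ∃ v : Fˣ, (v : F) = z + u := ⟨Units.mk0 _ h0, Units.val_mk0 _⟩
  refine ⟨v, by rw [hv, hz]; ring, ?_⟩
  rw [← hz1]
  apply div_eq_one.1
  apply h.nd
  intro a
  obtain ⟨c', hc', d, hd, hda⟩ := hC c hc a
  obtain ⟨t, ht, ht1⟩ := (hu d (mem_Dl.2 ⟨c, hc, c', hc', hd⟩)).1
  obtain ⟨z', hz', hz1'⟩ := hx c' hc'
  rw [← hda, ← hz1']
  exact h.key (x := d) (y := z') (z := z) (xu := t) (u := (u : F)) (by rw [hz, hd, hz']; ring)
    ht ht1 hv

lemma gd_gr (h : Nd φ Nn) [Nontrivial A] [DecidableEq F] {C : Finset Fˣ} (hC : Cube φ C)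
    {x : F} (hx : x ∈ gr φ C) : Gd φ C x := by
  unfold gr at hx
  induction hx using AddSubgroup.closure_induction_right with
  | zero =>
    intro c hc
    exact ⟨c, by rw [add_zero], rfl⟩
  | add_right x hx y hy ih =>
    obtain ⟨u, rfl, hu⟩ := hy
    exact gd_add h hC ih hu
  | add_neg_cancel x hx y hy ih =>
    obtain ⟨u, rfl, hu⟩ := hy
    have := gd_add h hC ih hu.neg
    rwa [Units.val_neg] at this

/-- boundedness -/
lemma bdd (h : Nd φ Nn) [Nontrivial A] [DecidableEq F] {C : Finset Fˣ} (hC : Cube φ C)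
    (hC' : ∀ a : A, ∃ c ∈ C, φ c = a) {E : Finset Fˣ}
    (hE : ∀ δ ∈ Dl C, ∀ c ∈ C, δ / c ∈ E) {y g : Fˣ} (hy : Sm φ E y) (hg : (g : F) ∈ gr φ C) :
    ∀ δ ∈ Dl C, Ml φ (g * y) δ := by
  intro δ hδ
  have hgd := gd_gr h hC hg
  -- `δ - c y` has the class of `δ`
  have h1 : ∀ c ∈ C, ∃ t : Fˣ, (t : F) = δ - c * y ∧ φ t = φ δ := by
    intro c hc
    obtain ⟨t, ht, ht1⟩ := (hy _ (hE δ hδ c hc)).2
    refine ⟨c * t, ?_, by rw [map_mul, ht1, ← map_mul, mul_div_cancel]⟩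
    have hc0 : (c : F) ≠ 0 := c.ne_zero
    rw [Units.val_mul, ht, Units.val_div_eq_div_val, Units.val_neg]
    field_simp
    ring
  have h0 : (δ : F) + g * y ≠ 0 := by
    intro e
    obtain ⟨a, ha⟩ := exists_ne (1 : A)
    obtain ⟨c, hc, hca⟩ := hC' (φ δ * a / φ y)
    obtain ⟨t, ht, ht1⟩ := h1 c hc
    obtain ⟨z, hz, hz1⟩ := hgd c hc
    have e1 : z * y = -t := by
      ext
      rw [Units.val_mul, hz, Units.val_neg, ht]
      linear_combination e
    have e2 := congrArg φ e1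
    rw [map_mul, hz1, hca, phi_neg h.neg, ht1, div_mul_cancel] at e2
    exact ha (mul_eq_left.1 e2)
  obtain ⟨v, hv⟩ : ∃ v : Fˣ, (v : F) = δ + g * y := ⟨Units.mk0 _ h0, Units.val_mk0 _⟩
  refine ⟨v, by rw [hv, Units.val_mul], ?_⟩
  apply div_eq_one.1
  apply h.nd
  intro a
  obtain ⟨c, hc, hca⟩ := hC' (φ δ * a / φ y)
  obtain ⟨t, ht, ht1⟩ := h1 c hc
  obtain ⟨z, hz, hz1⟩ := hgd c hc
  have h2 := h.key (x := c * y) (y := t) (z := δ) (xu := z * y) (u := (g : F) * y) (v := v)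
    (by rw [Units.val_mul, ht]; ring) (by rw [Units.val_mul, Units.val_mul, hz]; ring)
    (by rw [map_mul, map_mul, hz1]) hv
  rw [ht1, map_mul, hca, div_mul_cancel, mul_div_cancel_left] at h2
  exact h2

/-- The main construction. -/
theorem exists_open' (h : Nd φ Nn) (hi : Indec φ Nn) [Infinite F] [Finite A] [Nontrivial A] :
    ∃ (V : ValuationSubring F) (c : Fˣ), (c : F) ∈ V ∧ ((c⁻¹ : Fˣ) : F) ∉ V ∧
      ∀ v ∈ V, ∃ z : Fˣ, (z : F) = 1 + c * v ∧ φ z = 1 := by
  classical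
  obtain ⟨C, hC, hC1, hCa⟩ := exists_cube (φ := φ) h
  -- the ring of multipliers
  let R : Subring F :=
    { carrier := {y | ∀ g ∈ gr φ C, y * g ∈ gr φ C}
      mul_mem' := by
        intro a b ha hb g hg
        rw [mul_assoc]
        exact ha _ (hb _ hg)
      one_mem' := by
        intro g hg
        rwa [one_mul]
      add_mem' := by
        intro a b ha hb g hg
        rw [add_mul]
        exact add_mem (ha g hg) (hb g hg)
      zero_mem' := by
        intro g hg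
        rw [zero_mul]
        exact zero_mem _
      neg_mem' := by
        intro a ha g hg
        rw [neg_mul]
        exact neg_mem (ha g hg) }
  have hmem : ∀ u : Fˣ, Sm φ (Dl C) u → (u : F) ∈ gr φ C := fun u hu =>
    AddSubgroup.subset_closure ⟨u, rfl, hu⟩
  obtain ⟨E₂, hE₂⟩ : ∃ E₂ : Finset Fˣ, E₂ = (Dl C ×ˢ C).image fun q => q.1 / q.2 := ⟨_, rfl⟩
  have hE₂' : ∀ δ ∈ Dl C, ∀ c ∈ C, δ / c ∈ E₂ := by
    intro δ hδ c hc
    rw [hE₂, Finset.mem_image]
    exact ⟨(δ, c), Finset.mem_product.2 ⟨hδ, hc⟩, rfl⟩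
  have hR : ∀ y : Fˣ, Sm φ E₂ y → (y : F) ∈ R := by
    intro y hy g hg
    by_cases hg0 : g = 0
    · rw [hg0, mul_zero]
      exact zero_mem _
    obtain ⟨g', rfl⟩ : ∃ g' : Fˣ, (g' : F) = g := ⟨Units.mk0 _ hg0, Units.val_mk0 _⟩
    rw [mul_comm, ← Units.val_mul]
    apply hmem
    intro δ hδ
    refine ⟨bdd h hC hCa hE₂' hy hg δ hδ, ?_⟩
    rw [← neg_mul]
    exact bdd h hC hCa hE₂' hy (by rw [Units.val_neg]; exact neg_mem hg) δ hδ
  obtain ⟨E₃, hE₃, hdich⟩ := h.dich hi E₂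
  obtain ⟨d, -, hd⟩ := exists_small h.surj
    ((E₃ ×ˢ E₂).image (fun q => q.1 * q.2) ∪ (Dl C ∪ E₂)) 1
  have hd1 : Sm φ (Dl C) d := hd.mono (Finset.subset_union_left.trans Finset.subset_union_right)
  have hd2 : Sm φ E₂ d := hd.mono (Finset.subset_union_right.trans Finset.subset_union_right)
  have hd3 : ∀ e ∈ E₂, Sm φ E₃ (d / e) := by
    intro e he f hf
    have h1 := hd (f * e) (Finset.mem_union_left _
      (Finset.mem_image.2 ⟨(f, e), Finset.mem_product.2 ⟨hf, he⟩, rfl⟩))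
    have e1 : f * e = e * f := mul_comm _ _
    have e2 : d = e * (d / e) := by rw [mul_div_cancel]
    constructor
    · have h2 := h1.1
      rwa [e1, e2, ml_mul] at h2
    · have h2 := h1.2
      rwa [e1, e2, ← mul_neg, ml_mul] at h2
  have hdR : (d : F) ∈ R := hR d hd2
  have hdG : (d : F) ∈ gr φ C := hmem d hd1
  have hcomp : ∀ x : Fˣ, (x : F) ∈ R ∨ ((d / x : Fˣ) : F) ∈ R := by
    intro x
    rcases hdich x with h1 | h1
    · exact Or.inl (hR x h1)
    · right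
      apply hR
      intro e he
      have h2 : ∀ ε : Fˣ, Ml φ (ε / e) x → Ml φ (ε / x) e := by
        rintro ε ⟨z, hz, hz1⟩
        refine ⟨z * (e / x), ?_, by rw [map_mul, hz1, ← map_mul, mul_div_cancel]⟩
        have hx0 : (x : F) ≠ 0 := x.ne_zero
        have he0 : (e : F) ≠ 0 := e.ne_zero
        rw [Units.val_mul, hz, Units.val_div_eq_div_val, Units.val_div_eq_div_val,
          Units.val_div_eq_div_val]
        field_simp
      refine ⟨h2 d (h1 _ (hd3 e he)), ?_⟩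
      have e1 : -(d / x) = -d / x := by
        rw [← neg_div]
      have e2 : -(d / e) = -d / e := by
        rw [← neg_div]
      rw [e1]
      apply h2
      rw [← e2]
      exact h1 _ (hd3 e he).neg
  have hdinv : ((d⁻¹ : Fˣ) : F) ∉ R := by
    intro h1
    have h2 := h1 _ hdG
    rw [Units.inv_mul] at h2
    obtain ⟨z, hz, -⟩ := gd_gr h hC (neg_mem h2) 1 hC1
    apply z.ne_zero
    rw [hz, Units.val_one]
    ring
  have hI : (Ideal.span {(⟨(d : F), hdR⟩ : R)}) ≠ ⊤ := by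
    intro h1
    rw [Ideal.span_singleton_eq_top, isUnit_iff_exists_inv] at h1
    obtain ⟨y, hy⟩ := h1
    apply hdinv
    have h2 : (d : F) * y = 1 := congrArg Subtype.val hy
    have h3 : ((d⁻¹ : Fˣ) : F) = y := by
      rw [Units.val_inv_eq_inv_val]
      exact inv_eq_of_mul_eq_one_right h2
    rw [h3]
    exact y.2
  obtain ⟨V, hV1, hV2⟩ := Ideal.image_subset_nonunits_valuationSubring _ hI
  have hdV : (d : F) ∈ V := hV1 hdR
  have hdVi : ((d⁻¹ : Fˣ) : F) ∉ V := by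
    have h1 : (d : F) ∈ V.nonunits := hV2 ⟨_, Ideal.subset_span rfl, rfl⟩
    rw [Units.val_inv_eq_inv_val]
    intro h2
    rw [ValuationSubring.mem_nonunits_iff] at h1
    have h3 := (V.valuation_le_one_iff _).2 h2
    rw [map_inv₀] at h3
    have h4 : V.valuation (d : F) ≠ 0 := by
      rw [Valuation.ne_zero_iff]
      exact d.ne_zero
    have h5 : (1 : V.ValueGroup) < (V.valuation (d : F))⁻¹ :=
      (one_lt_inv₀ (zero_lt_iff.2 h4)).2 h1
    exact absurd h3 (not_le.2 h5)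
  have hcan : ∀ a b : Fˣ, (a : F) ∈ V → (b : F) ∈ V → a * b = d⁻¹ → False := by
    intro a b ha hb e
    apply hdVi
    rw [← e, Units.val_mul]
    exact V.mul_mem _ _ ha hb
  refine ⟨V, d * (d * d), ?_, ?_, ?_⟩
  · rw [Units.val_mul, Units.val_mul]
    exact V.mul_mem _ _ hdV (V.mul_mem _ _ hdV hdV)
  · intro h1
    refine hcan (d * d) ((d * (d * d))⁻¹) ?_ h1 ?_
    · rw [Units.val_mul]
      exact V.mul_mem _ _ hdV hdV
    · rw [mul_inv, mul_comm, inv_mul_cancel_right]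
  · intro v hv
    by_cases hv0 : v = 0
    · refine ⟨1, ?_, map_one _⟩
      rw [hv0, mul_zero, add_zero, Units.val_one]
    obtain ⟨w, rfl⟩ : ∃ w : Fˣ, (w : F) = v := ⟨Units.mk0 v hv0, Units.val_mk0 _⟩
    have h1 : ((d * d * w : Fˣ) : F) ∈ R := by
      rcases hcomp (d * d * w) with h1 | h1
      · exact h1
      · exfalso
        refine hcan w (d / (d * d * w)) hv (hV1 h1) ?_
        rw [mul_assoc d d w, div_mul_cancel_left, mul_inv, mul_comm w, inv_mul_cancel_right]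
    obtain ⟨z, hz, hz1⟩ := gd_gr h hC (h1 _ hdG) 1 hC1
    refine ⟨z, ?_, by rw [hz1, map_one]⟩
    rw [hz]
    simp only [Units.val_mul, Units.val_one]
    ring

end

end Pool.Agent.Helper58.ET
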