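import Mathlib
import Pool.Agent.Helper58.ET.Cube
import Pool.Agent.Helper58.EB.Res

set_option autoImplicit false

/-! From open valuation rings to compatible ones or to ones of mixed characteristic. -/

namespace Pool.Agent.Helper58.ET

open Pool.Agent.Y920.EP Pool.Agent.Helper58.EB

section

variable {F : Type} [Field F] {A : Type} [CommGroup A] {φ : Fˣ →* A}

/-- the units `1 + v` for `v` in the ball of `d` have trivial class -/
def Opn (φ : Fˣ →* A) (O : ValuationSubring F) (d : Fˣ) : Prop :=
  O.valuation (d : F) < 1 ∧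
    ∀ v : F, O.valuation v ≤ O.valuation (d : F) → ∃ u : Fˣ, (u : F) = 1 + v ∧ φ u = 1

/-- rank one -/
def Arch (O : ValuationSubring F) : Prop :=
  ∀ x : F, O.valuation x < 1 → ∀ y : Fˣ, ∃ j : ℕ, O.valuation x ^ j ≤ O.valuation (y : F)

theorem coarse (V : ValuationSubring F) {c : Fˣ} (hcV : (c : F) ∈ V)
    (hcV' : ((c⁻¹ : Fˣ) : F) ∉ V)
    (hc : ∀ v ∈ V, ∃ z : Fˣ, (z : F) = 1 + c * v ∧ φ z = 1) :
    (∃ O : ValuationSubring F, O ≠ ⊤ ∧ Cmp φ O) ∨
      ∃ (O : ValuationSubring F) (d : Fˣ), O ≠ ⊤ ∧ O.valuation (d : F) < 1 ∧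
        (∀ v : F, O.valuation v ≤ O.valuation (d : F) → ∃ u : Fˣ, (u : F) = 1 + v ∧ φ u = 1) ∧
        ∀ x : F, O.valuation x < 1 → ∀ y : Fˣ, ∃ j : ℕ,
          O.valuation x ^ j ≤ O.valuation (y : F) := by
  classical
  have hcv : V.valuation (c : F) < 1 := by
    rw [← V.valuation_le_one_iff, Units.val_inv_eq_inv_val, map_inv₀, not_le] at hcV'
    exact (one_lt_inv₀ (val_pos V c)).1 hcV'
  by_cases hV : ∀ x : F, ∃ j : ℕ, (c : F) ^ j * x ∈ V
  · -- the rank one coarsening
    let R : Subring F :=
      { carrier := {x | ∀ j : ℕ, V.valuation (c : F) * V.valuation x ^ j ≤ 1}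
        mul_mem' := by
          intro a b ha hb j
          rw [map_mul]
          rcases le_total (V.valuation a) (V.valuation b) with h | h
          · refine le_trans (mul_le_mul_right ?_ _) (hb (j + j))
            rw [mul_pow, pow_add]
            exact mul_le_mul_left (pow_le_pow_left₀ zero_le h j) _
          · refine le_trans (mul_le_mul_right ?_ _) (ha (j + j))
            rw [mul_pow, pow_add]
            exact mul_le_mul_right (pow_le_pow_left₀ zero_le h j) _
        one_mem' := by
          intro j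
          rw [map_one, one_pow, mul_one]
          exact hcv.le
        add_mem' := by
          intro a b ha hb j
          have h := Valuation.map_add V.valuation a b
          rcases le_max_iff.1 h with h | h
          · exact (mul_le_mul_right (pow_le_pow_left₀ zero_le h j) _).trans (ha j)
          · exact (mul_le_mul_right (pow_le_pow_left₀ zero_le h j) _).trans (hb j)
        zero_mem' := by
          intro j
          rw [map_zero]
          refine mul_le_one₀ hcv.le zero_le ?_
          exact pow_le_one₀ zero_le zero_le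
        neg_mem' := by
          intro a ha j
          rw [Valuation.map_neg]
          exact ha j }
    have hVR : V.toSubring ≤ R := by
      intro x hx j
      exact mul_le_one₀ hcv.le zero_le
        (pow_le_one₀ zero_le ((V.valuation_le_one_iff x).2 hx))
    obtain ⟨O, hOR⟩ : ∃ O : ValuationSubring F, ∀ x, x ∈ O ↔ x ∈ R :=
      ⟨V.ofLE R hVR, fun x => Iff.rfl⟩
    have hVO : ∀ x ∈ V, x ∈ O := fun x hx => (hOR x).2 (hVR hx)
    have hO1 : ∀ x : F, x ∈ O → (c : F) * x ∈ V := by
      intro x hx
      rw [← V.valuation_le_one_iff, map_mul]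
      have := (hOR x).1 hx 1
      rwa [pow_one] at this
    have hcO : ((c⁻¹ : Fˣ) : F) ∉ O := by
      intro h
      have h1 := (hOR _).1 h 2
      rw [Units.val_inv_eq_inv_val, map_inv₀, inv_pow, pow_two, mul_inv,
        mul_inv_cancel_left₀ (val_ne V c)] at h1
      exact absurd h1 (not_le.2 ((one_lt_inv₀ (val_pos V c)).2 hcv))
    have hcOv : O.valuation (c : F) < 1 := by
      rw [← O.valuation_le_one_iff, Units.val_inv_eq_inv_val, map_inv₀, not_le] at hcO
      exact (one_lt_inv₀ (val_pos O c)).1 hcO
    have hlt : ∀ x : F, O.valuation x < 1 → ∃ j : ℕ, V.valuation x ^ j ≤ V.valuation (c : F) := by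
      intro x hx
      by_cases hx0 : x = 0
      · exact ⟨1, by rw [hx0, map_zero, pow_one]; exact zero_le⟩
      have h1 : x⁻¹ ∉ O := by
        intro h
        rw [← O.valuation_le_one_iff, map_inv₀] at h
        have h0 : 0 < O.valuation x := zero_lt_iff.2 ((Valuation.ne_zero_iff _).2 hx0)
        exact absurd h (not_le.2 ((one_lt_inv₀ h0).2 hx))
      rw [hOR] at h1
      have h2 : ¬ ∀ j : ℕ, V.valuation (c : F) * V.valuation x⁻¹ ^ j ≤ 1 := h1
      push Not at h2
      obtain ⟨j, hj⟩ := h2
      refine ⟨j, ?_⟩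
      have h0 : 0 < V.valuation x ^ j := pow_pos (zero_lt_iff.2 ((Valuation.ne_zero_iff _).2 hx0)) j
      rw [map_inv₀, inv_pow, ← div_eq_mul_inv, one_lt_div₀ h0] at hj
      exact hj.le
    have hle : ∀ x y : F, V.valuation x ≤ V.valuation y → O.valuation x ≤ O.valuation y := by
      intro x y hxy
      by_cases hy0 : y = 0
      · rw [hy0, map_zero, le_zero_iff, map_eq_zero] at hxy
        rw [hxy, hy0]
      have h0 : 0 < V.valuation y := zero_lt_iff.2 ((Valuation.ne_zero_iff _).2 hy0)
      have h0' : 0 < O.valuation y := zero_lt_iff.2 ((Valuation.ne_zero_iff _).2 hy0)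
      rw [← div_le_one₀ h0'] 
      rw [← div_le_one₀ h0] at hxy
      rw [← map_div₀] at hxy ⊢
      rw [O.valuation_le_one_iff]
      exact hVO _ ((V.valuation_le_one_iff _).1 hxy)
    have harch : ∀ x : F, O.valuation x < 1 → ∀ y : Fˣ, ∃ j : ℕ,
        O.valuation x ^ j ≤ O.valuation (y : F) := by
      intro x hx y
      obtain ⟨i, hi⟩ := hlt x hx
      obtain ⟨k, hk⟩ := hV ((y⁻¹ : Fˣ) : F)
      refine ⟨i * k, ?_⟩
      rw [← map_pow]
      apply hle
      rw [map_pow, pow_mul]
      refine (pow_le_pow_left₀ zero_le hi k).trans ?_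
      rw [← V.valuation_le_one_iff, map_mul, map_pow, Units.val_inv_eq_inv_val, map_inv₀,
        ← div_eq_mul_inv, div_le_one₀ (val_pos V y)] at hk
      exact hk
    have hOtop : O ≠ ⊤ := by
      rintro rfl
      exact hcO (ValuationSubring.mem_top _)
    right
    refine ⟨O, c * c, hOtop, ?_, ?_, harch⟩
    · rw [Units.val_mul, map_mul]
      exact mul_lt_one_of_nonneg_of_lt_one_left zero_le hcOv hcOv.le
    · intro v hv
      have hc0 : (c : F) ≠ 0 := c.ne_zero
      have h1 : v / (c * c) ∈ O := by
        rw [← O.valuation_le_one_iff, map_div₀, div_le_one₀]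
        · rw [Units.val_mul] at hv
          exact hv
        · rw [map_mul]
          exact mul_pos (val_pos O c) (val_pos O c)
      obtain ⟨z, hz, hz1⟩ := hc _ (hO1 _ h1)
      refine ⟨z, ?_, hz1⟩
      rw [hz]
      field_simp
  · left
    let R : Subring F :=
      { carrier := {x | ∃ j : ℕ, (c : F) ^ j * x ∈ V}
        mul_mem' := by
          rintro a b ⟨i, hi⟩ ⟨j, hj⟩
          refine ⟨i + j, ?_⟩
          have := V.mul_mem _ _ hi hj
          have e : (c : F) ^ (i + j) * (a * b) = (c ^ i * a) * (c ^ j * b) := by ring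
          rwa [e]
        one_mem' := ⟨0, by rw [pow_zero, one_mul]; exact V.one_mem⟩
        add_mem' := by
          rintro a b ⟨i, hi⟩ ⟨j, hj⟩
          refine ⟨i + j, ?_⟩
          have h1 := V.mul_mem _ _ (V.toSubring.pow_mem hcV j) hi
          have h2 := V.mul_mem _ _ (V.toSubring.pow_mem hcV i) hj
          have e : (c : F) ^ (i + j) * (a + b) = c ^ j * (c ^ i * a) + c ^ i * (c ^ j * b) := by
            ring
          rw [e]
          exact V.add_mem _ _ h1 h2
        zero_mem' := ⟨0, by rw [mul_zero]; exact V.zero_mem⟩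
        neg_mem' := by
          rintro a ⟨i, hi⟩
          exact ⟨i, by rw [mul_neg]; exact V.neg_mem _ hi⟩ }
    have hVR : V.toSubring ≤ R := by
      intro x hx
      exact ⟨0, by rw [pow_zero, one_mul]; exact hx⟩
    obtain ⟨O, hOR⟩ : ∃ O : ValuationSubring F, ∀ x, x ∈ O ↔ x ∈ R :=
      ⟨V.ofLE R hVR, fun x => Iff.rfl⟩
    have hOtop : O ≠ ⊤ := by
      rintro rfl
      apply hV
      intro x
      exact (hOR x).1 (ValuationSubring.mem_top x)
    have hC : Cmp φ O := by
      intro x hx
      by_cases hx0 : x = 0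
      · exact ⟨1, by rw [hx0, add_zero, Units.val_one], map_one _⟩
      have h1 : x⁻¹ ∉ O := by
        intro h
        rw [← O.valuation_le_one_iff, map_inv₀] at h
        have h0 : 0 < O.valuation x := zero_lt_iff.2 ((Valuation.ne_zero_iff _).2 hx0)
        exact absurd h (not_le.2 ((one_lt_inv₀ h0).2 hx))
      have h2 : x / c ∈ V := by
        have hc0 : (c : F) ≠ 0 := c.ne_zero
        rcases V.mem_or_inv_mem (x / c) with h | h
        · exact h
        · exfalso
          apply h1
          rw [hOR]
          refine ⟨1, ?_⟩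
          rw [pow_one]
          rw [inv_div] at h
          rwa [← div_eq_mul_inv]
      obtain ⟨z, hz, hz1⟩ := hc _ h2
      refine ⟨z, ?_, hz1⟩
      rw [hz, mul_div_cancel₀ _ c.ne_zero]
    exact ⟨O, hOtop, hC⟩

end

end Pool.Agent.Helper58.ET
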