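import Mathlib
import Pool.Agent.Helper58.ET.Coarse

set_option autoImplicit false

/-! The mixed characteristic case. -/

namespace Pool.Agent.Helper58.ET

open Pool.Agent.Y920.EP Pool.Agent.Helper58.EB

/-- an algebraic lemma on fields of characteristic `p` -/
lemma perf_aux {k : Type} [Field k] {p : ℕ} [Fact p.Prime] [CharP k p] {η t : k} (hη : η ≠ 0)
    {n m : ℕ} (hnm : n < m) (h : η + (η ^ n) ^ p = (η + (η ^ m) ^ p) * t ^ p) :
    ∃ s : k, s ^ p = η := by
  have hp : p.Prime := Fact.out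
  have hinj : ∀ a b : k, a ^ p = b ^ p → a = b := fun a b hab => frobenius_inj k p hab
  by_cases ht : t = 1
  · rw [ht, one_pow, mul_one, add_right_inj] at h
    have h1 := hinj _ _ h
    -- `η` is a root of unity
    have h2 : η ^ (m - n) = 1 := by
      have h3 : η ^ n * η ^ (m - n) = η ^ n * 1 := by
        rw [← pow_add, mul_one, h1]
        congr 1
        omega
      exact mul_left_cancel₀ (pow_ne_zero _ hη) h3
    have hN : 0 < m - n := by omega
    obtain ⟨i, j, hij, e⟩ := Finite.exists_ne_map_eq_of_infinite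
      (fun i : ℕ => (⟨p ^ i % (m - n), Nat.mod_lt _ hN⟩ : Fin (m - n)))
    have e2 : p ^ i % (m - n) = p ^ j % (m - n) := congrArg Fin.val e
    have e' : η ^ p ^ i = η ^ p ^ j := by
      rw [pow_eq_pow_mod (p ^ i) h2, pow_eq_pow_mod (p ^ j) h2, e2]
    have key : ∀ i j : ℕ, i < j → η ^ p ^ i = η ^ p ^ j → ∃ s : k, s ^ p = η := by
      intro i
      induction i with
      | zero =>
        intro j hj e
        obtain ⟨l, rfl⟩ : ∃ l, j = l + 1 := ⟨j - 1, by omega⟩
        refine ⟨η ^ p ^ l, ?_⟩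
        rw [← pow_mul, ← pow_succ, ← e, pow_zero, pow_one]
      | succ i ih =>
        intro j hj e
        obtain ⟨l, rfl⟩ : ∃ l, j = l + 1 := ⟨j - 1, by omega⟩
        apply ih l (by omega)
        apply hinj
        rwa [← pow_mul, ← pow_mul, ← pow_succ, ← pow_succ]
    rcases lt_or_gt_of_ne hij with h3 | h3
    · exact key i j h3 e'
    · exact key j i h3 e'.symm
  · have ht1 : (1 : k) - t ≠ 0 := fun e => ht (by linear_combination (-1) * e)
    refine ⟨(η ^ m * t - η ^ n) / (1 - t), ?_⟩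
    rw [div_pow, sub_pow_char, sub_pow_char, one_pow, mul_pow,
      div_eq_iff (by
        have := pow_ne_zero p ht1
        rwa [sub_pow_char, one_pow] at this)]
    linear_combination (-1) * h

section

variable {F : Type} [Field F] {A : Type} [CommGroup A] {φ : Fˣ →* A}
  {p : ℕ} (hp : p.Prime) (hp2 : p ≠ 2) (O : ValuationSubring F)

lemma charP_res (hp : p.Prime) (hpO : O.valuation (p : F) < 1) :
    CharP (IsLocalRing.ResidueField O) p := by
  have h1 : ((p : ℕ) : IsLocalRing.ResidueField O) = 0 := by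
    have e1 : (p : IsLocalRing.ResidueField O) = IsLocalRing.residue O (p : O) := by
      rw [map_natCast]
    rw [e1, residue_eq_zero_iff]
    have h8 : (((p : O)) : F) = (p : F) := by push_cast; rfl
    rwa [h8]
  obtain ⟨q, hq⟩ := CharP.exists (IsLocalRing.ResidueField O)
  have h2 : q ∣ p := (CharP.cast_eq_zero_iff _ q p).1 h1
  rcases (Nat.dvd_prime hp).1 h2 with h3 | h3
  · exfalso
    rw [h3] at hq
    exact CharP.false_of_nontrivial_of_char_one (R := IsLocalRing.ResidueField O)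
  · rwa [h3] at hq

include hp hp2 in
/-- the residue field is perfect on units -/
lemma perf [Finite A] (hk : ∀ u : Fˣ, φ u = 1 ↔ ∃ c : Fˣ, u = c ^ p)
    (hpO : O.valuation (p : F) < 1) {y : Fˣ} (hy : O.valuation (y : F) = 1) :
    φ y ∈ BB φ O := by
  have _ : Fact p.Prime := ⟨hp⟩
  have _ := charP_res O hp hpO
  have hodd : Odd p := hp.odd_of_ne_two hp2
  have hyO : (y : F) ∈ O := (O.valuation_le_one_iff _).1 hy.le
  obtain ⟨η, hη⟩ : ∃ η, η = IsLocalRing.residue O ⟨y, hyO⟩ := ⟨_, rfl⟩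
  have hη0 : η ≠ 0 := by
    rw [hη, Ne, residue_eq_zero_iff, not_lt]
    exact hy.ge
  -- it suffices that the residue is a `p`-th power
  have key : (∃ s : IsLocalRing.ResidueField O, s ^ p = η) → φ y ∈ BB φ O := by
    rintro ⟨s, hs⟩
    obtain ⟨s', rfl⟩ := IsLocalRing.residue_surjective s
    have hs0 : IsLocalRing.residue O s' ≠ 0 := by
      intro e
      rw [e, zero_pow hp.ne_zero] at hs
      exact hη0 hs.symm
    have hsv := valuation_eq_one_of O s' hs0
    have hsF : (s' : F) ≠ 0 := by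
      intro e
      rw [e, map_zero] at hsv
      exact zero_ne_one hsv
    have h1 : O.valuation ((y : F) - (s' : F) ^ p) < 1 := by
      have h2 := residue_eq_zero_iff O (⟨y, hyO⟩ - s' ^ p)
      rw [map_sub, map_pow, hs, ← hη, sub_self] at h2
      have h3 := h2.1 rfl
      exact h3
    have h2 : φ y = φ (y / (Units.mk0 _ hsF) ^ p) := by
      rw [map_div, (hk ((Units.mk0 _ hsF) ^ p)).2 ⟨_, rfl⟩, div_one]
    rw [h2]
    apply mem_BB
    rw [Units.val_div_eq_div_val, Units.val_pow_eq_pow_val, Units.val_mk0,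
      div_sub_one (pow_ne_zero _ hsF), map_div₀, map_pow, hsv, one_pow, div_one]
    exact h1
  by_cases hz : ∃ n : ℕ, η + (η ^ n) ^ p = 0
  · obtain ⟨n, hn⟩ := hz
    apply key
    refine ⟨-η ^ n, ?_⟩
    rw [hodd.neg_pow]
    linear_combination (-1) * hn
  push Not at hz
  have hun : ∀ n : ℕ, ∃ u : Fˣ, (u : F) = y + ((y : F) ^ n) ^ p ∧ O.valuation (u : F) = 1 := by
    intro n
    have h1 : IsLocalRing.residue O (⟨y, hyO⟩ + (⟨y, hyO⟩ ^ n) ^ p) ≠ 0 := by
      rw [map_add, map_pow, map_pow, ← hη]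
      exact hz n
    have h2 := valuation_eq_one_of O _ h1
    have e : (((⟨y, hyO⟩ + (⟨y, hyO⟩ ^ n) ^ p : O)) : F) = y + ((y : F) ^ n) ^ p := by
      push_cast
      rfl
    rw [e] at h2
    have h3 : (y : F) + ((y : F) ^ n) ^ p ≠ 0 := by
      intro e
      rw [e, map_zero] at h2
      exact zero_ne_one h2
    exact ⟨Units.mk0 _ h3, Units.val_mk0 _, by rw [Units.val_mk0]; exact h2⟩
  choose u hu hu1 using hun
  obtain ⟨i, j, hij, e⟩ : ∃ i j, i < j ∧ φ (u i) = φ (u j) := by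
    obtain ⟨i, j, hij, e⟩ := Finite.exists_ne_map_eq_of_infinite fun n => φ (u n)
    rcases lt_or_gt_of_ne hij with h | h
    · exact ⟨i, j, h, e⟩
    · exact ⟨j, i, h, e.symm⟩
  obtain ⟨t, ht⟩ : ∃ t : Fˣ, u i = u j * t ^ p := by
    have h1 : φ (u i / u j) = 1 := by rw [map_div, e, div_self']
    obtain ⟨t, ht⟩ := (hk _).1 h1
    exact ⟨t, by rw [← ht, mul_div_cancel]⟩
  have htv : O.valuation (t : F) = 1 := by
    have h1 : O.valuation (u i : F) = O.valuation ((u j * t ^ p : Fˣ) : F) := by rw [ht]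
    rw [Units.val_mul, Units.val_pow_eq_pow_val, map_mul, hu1, hu1, one_mul, map_pow] at h1
    exact (pow_eq_one_iff_of_nonneg zero_le hp.ne_zero).1 h1.symm
  have htO : (t : F) ∈ O := (O.valuation_le_one_iff _).1 htv.le
  apply key
  refine perf_aux (t := IsLocalRing.residue O ⟨t, htO⟩) hη0 hij ?_
  rw [hη]
  simp only [← map_pow, ← map_add, ← map_mul]
  congr 1
  ext
  push_cast
  have h1 := congrArg Units.val ht
  rw [Units.val_mul, Units.val_pow_eq_pow_val, hu, hu] at h1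
  exact h1

/-- a valuation ring of rank one with residue characteristic `p`, for which the `p`-th powers are
open, and with a class without units -/
structure Mx (φ : Fˣ →* A) (p : ℕ) (O : ValuationSubring F) (d c : Fˣ) : Prop where
  pv : O.valuation (p : F) < 1
  dv : O.valuation (d : F) < 1
  opn : ∀ v : F, O.valuation v ≤ O.valuation (d : F) → ∃ u : Fˣ, (u : F) = 1 + v ∧ φ u = 1
  arch : ∀ x : F, O.valuation x < 1 → ∀ y : Fˣ, ∃ j : ℕ, O.valuation x ^ j ≤ O.valuation (y : F)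
  nu : ∀ f : Fˣ, O.valuation ((c * f ^ p : Fˣ) : F) ≠ 1

variable {Nn : A → Subgroup A}

include hp hp2 in
/-- in the mixed characteristic case there is a class without units -/
lemma exists_nu [Finite A] (h : Nd φ Nn) {ζ : Fˣ} (hζ : IsPrimitiveRoot ζ p)
    (hk : ∀ u : Fˣ, φ u = 1 ↔ ∃ c : Fˣ, u = c ^ p) {r s : Fˣ} (hP : Pair φ r s)
    (hpO : O.valuation (p : F) < 1) {d : Fˣ} (hd1 : O.valuation (d : F) < 1)
    (hd : ∀ v : F, O.valuation v ≤ O.valuation (d : F) → ∃ u : Fˣ, (u : F) = 1 + v ∧ φ u = 1)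
    (harch : ∀ x : F, O.valuation x < 1 → ∀ y : Fˣ, ∃ j : ℕ,
      O.valuation x ^ j ≤ O.valuation (y : F)) :
    ∃ c : Fˣ, ∀ f : Fˣ, O.valuation ((c * f ^ p : Fˣ) : F) ≠ 1 := by
  classical
  by_contra hcon
  push Not at hcon
  -- all classes are classes of one-units
  have hall : ∀ b : A, b ∈ BB φ O := by
    intro b
    obtain ⟨c, rfl⟩ := h.surj b
    obtain ⟨f, hf⟩ := hcon c
    have h1 := perf hp hp2 O hk hpO hf
    rwa [map_mul, (hk (f ^ p)).2 ⟨_, rfl⟩, mul_one] at h1
  have hC : ¬ Cmp φ O := fun hC => not_res hp hp2 hζ O h.neg hP hk hC hpO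
  unfold Cmp at hC
  push Not at hC
  obtain ⟨x₀, hx₀, hx₀1⟩ := hC
  -- representatives of the classes of one-units
  have hrep : ∀ b : A, ∃ u : Fˣ, O.valuation ((u : F) - 1) < 1 ∧ φ u = b := by
    intro b
    obtain ⟨u, hu, hub⟩ := hall b
    exact ⟨u, (O.mem_principalUnitGroup_iff u).1 hu, hub⟩
  choose rep hrep1 hrep2 using hrep
  obtain ⟨ε, hε1, hε2⟩ : ∃ ε : Fˣ, O.valuation (ε : F) < 1 ∧
      ∀ b, O.valuation ((rep b : F) - 1) ≤ O.valuation (ε : F) := by
    obtain ⟨b₀, hb₀⟩ := Finite.exists_max fun b =>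
      max (O.valuation ((rep b : F) - 1)) (O.valuation (d : F))
    by_cases h0 : O.valuation ((rep b₀ : F) - 1) ≤ O.valuation (d : F)
    · refine ⟨d, hd1, fun b => ?_⟩
      have := (le_max_left _ _).trans (hb₀ b)
      rwa [max_eq_right h0] at this
    · rw [not_le] at h0
      have hne : (rep b₀ : F) - 1 ≠ 0 := by
        intro e
        rw [e, map_zero] at h0
        exact absurd h0 (not_lt.2 zero_le)
      refine ⟨Units.mk0 _ hne, by rw [Units.val_mk0]; exact hrep1 b₀, fun b => ?_⟩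
      have := (le_max_left _ _).trans (hb₀ b)
      rwa [max_eq_left h0.le] at this
  -- an element `1 + x` not in the kernel which is close to one
  obtain ⟨x, hx, hx1, hxε⟩ : ∃ x : F, O.valuation x < 1 ∧
      (∀ u : Fˣ, (u : F) = 1 + x → φ u ≠ 1) ∧
      ∀ v : F, O.valuation v ≤ O.valuation x * O.valuation (ε : F) →
        ∃ u : Fˣ, (u : F) = 1 + v ∧ φ u = 1 := by
    have hex : ∃ n : ℕ, ∀ v : F, O.valuation v ≤ O.valuation x₀ * O.valuation (ε : F) ^ n →
        ∃ u : Fˣ, (u : F) = 1 + v ∧ φ u = 1 := by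
      obtain ⟨j, hj⟩ := harch _ hε1 d
      refine ⟨j, fun v hv => hd v (hv.trans ?_)⟩
      exact (mul_le_of_le_one_left zero_le hx₀.le).trans hj
    obtain ⟨n, hn, hmin⟩ : ∃ n : ℕ, (∀ v : F, O.valuation v ≤
        O.valuation x₀ * O.valuation (ε : F) ^ n → ∃ u : Fˣ, (u : F) = 1 + v ∧ φ u = 1) ∧
        ∀ m < n, ¬ ∀ v : F, O.valuation v ≤ O.valuation x₀ * O.valuation (ε : F) ^ m →
          ∃ u : Fˣ, (u : F) = 1 + v ∧ φ u = 1 :=
      ⟨Nat.find hex, Nat.find_spec hex, fun m hm => Nat.find_min hex hm⟩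
    have hn0 : n ≠ 0 := by
      rintro rfl
      obtain ⟨u, hu, hu1⟩ := hn x₀ (by rw [pow_zero, mul_one])
      exact hx₀1 u hu hu1
    obtain ⟨m, rfl⟩ := Nat.exists_eq_succ_of_ne_zero hn0
    have hm := hmin m (Nat.lt_succ_self m)
    push Not at hm
    obtain ⟨x, hx, hx1⟩ := hm
    refine ⟨x, ?_, hx1, fun v hv => hn v (hv.trans ?_)⟩
    · refine hx.trans_lt ?_
      exact mul_lt_one_of_nonneg_of_lt_one_left zero_le hx₀ (pow_le_one₀ zero_le hε1.le)
    · rw [Nat.succ_eq_add_one, pow_succ, ← mul_assoc]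
      exact mul_le_mul_left hx _
  obtain ⟨g, hg, hg1⟩ := exists_unit_one_add O hx
  have hx0 : x ≠ 0 := by
    rintro rfl
    exact hx1 1 (by rw [Units.val_one, add_zero]) (map_one _)
  obtain ⟨x', hx'⟩ : ∃ x' : Fˣ, (x' : F) = x := ⟨Units.mk0 _ hx0, Units.val_mk0 _⟩
  have ha := hx1 g hg
  -- all classes are in the norm group of `g`
  have h1 : ∀ b : A, φ x' * b ∈ Nn (φ g) := by
    intro b
    have hg0 : (g : F) ≠ 0 := g.ne_zero
    obtain ⟨t, ht, ht1⟩ := hxε (x * ((rep b : F) - 1) / g) (by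
      rw [map_div₀, map_mul, hg1, div_one]
      exact mul_le_mul_right (hε2 b) _)
    have h2 : φ (-(x' * rep b)) ∈ Nn (φ (-(g * t))) := by
      apply h.sum
      rw [Units.val_neg, Units.val_neg, Units.val_mul, Units.val_mul, ht, hx', mul_add,
        mul_div_cancel₀ _ hg0, hg]
      ring
    rwa [phi_neg h.neg, phi_neg h.neg, map_mul, map_mul, ht1, mul_one, hrep2] at h2
  apply ha
  apply h.nd
  intro b
  apply h.symm
  have h2 := h1 ((φ x')⁻¹ * b)
  rwa [mul_inv_cancel_left] at h2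

include hp hp2 in
/-- Either a compatible valuation ring or the mixed characteristic case. -/
theorem weak' [Infinite F] [Finite A] [Nontrivial A] (h : Nd φ Nn) (hi : Indec φ Nn) {ζ : Fˣ}
    (hζ : IsPrimitiveRoot ζ p) (hk : ∀ u : Fˣ, φ u = 1 ↔ ∃ c : Fˣ, u = c ^ p) :
    (∃ O : ValuationSubring F, O ≠ ⊤ ∧ O.valuation (p : F) = 1 ∧ Cmp φ O) ∨
      ∃ (O : ValuationSubring F) (d c : Fˣ), Mx φ p O d c := by
  by_cases hP : ∃ r s : Fˣ, Pair φ r s
  swap
  · push Not at hP
    rcases rigid_ring hp hp2 hζ h.surj h.neg hk hP with h1 | h1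
    · exact Or.inl h1
    · exfalso
      have : Subsingleton A := (Nat.card_eq_one_iff_unique.1 h1).1
      exact not_subsingleton A this
  obtain ⟨r, s, hP⟩ := hP
  obtain ⟨V, c, hcV, hcV', hc⟩ := exists_open' h hi
  rcases coarse V hcV hcV' hc with ⟨O, hO, hC⟩ | ⟨O, d, hO, hd1, hd, harch⟩
  · left
    refine ⟨O, hO, ?_, hC⟩
    rcases (val_natCast_le O p).lt_or_eq with h1 | h1
    · exact absurd h1 (not_res hp hp2 hζ O h.neg hP hk hC)
    · exact h1
  · rcases (val_natCast_le O p).lt_or_eq with h1 | h1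
    · right
      obtain ⟨c, hc⟩ := exists_nu hp hp2 O h hζ hk hP h1 hd1 hd harch
      exact ⟨O, d, c, h1, hd1, hd, harch, hc⟩
    · left
      exact ⟨O, hO, h1, fun x hx => newton O h1 hk hd hx (harch x hx d)⟩

end

end Pool.Agent.Helper58.ET
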