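import Mathlib
import Pool.Agent.Helper58.ET.Mixed
import Pool.Agent.Helper58.ET.Inv

set_option autoImplicit false

/-! The ring for a nondegenerate indecomposable system. -/

namespace Pool.Agent.Helper58.ET

open Pool.Agent.Y920.EP Pool.Agent.Helper58.EB

section

variable {F : Type} [Field F] {A : Type} [CommGroup A] {φ : Fˣ →* A} {Nn : A → Subgroup A}

lemma Nd.self_mem (h : Nd φ Nn) (a : A) : a ∈ Nn a := by
  by_cases ha : a = 1
  · rw [ha]
    exact one_mem _
  obtain ⟨u, rfl⟩ := h.surj a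
  have hu0 : (u : F) ≠ 0 := u.ne_zero
  have h0 : (1 : F) + (-u : Fˣ) ≠ 0 := by
    intro e
    apply ha
    have : u = 1 := by
      ext
      rw [Units.val_neg] at e
      rw [Units.val_one]
      linear_combination (-1) * e
    rw [this, map_one]
  obtain ⟨w, hw⟩ : ∃ w : Fˣ, (w : F) = 1 + (-u : Fˣ) := ⟨Units.mk0 _ h0, Units.val_mk0 _⟩
  have h1 := h.sum _ _ hw
  have h2 : φ (-(w / u)) ∈ Nn (φ (-u⁻¹)) := by
    apply h.sum
    rw [Units.val_neg, Units.val_neg, Units.val_div_eq_div_val, hw, Units.val_inv_eq_inv_val,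
      Units.val_neg]
    field_simp
    ring
  rw [phi_neg h.neg] at h1
  rw [phi_neg h.neg, phi_neg h.neg, map_inv, map_div] at h2
  have h3 := h.symm _ _ (inv_mem (h.symm _ _ h2))
  rw [inv_inv] at h3
  have h4 := div_mem h1 h3
  rwa [div_div_cancel] at h4

lemma Nd.vv (h : Nd φ Nn) {a c : A} (hc : c ∈ Vv φ a) : c ∈ Nn a := by
  rcases hc with rfl | rfl | ⟨u, v, rfl, hv, rfl⟩
  · exact one_mem _
  · exact h.self_mem _
  · exact h.sum _ _ hv

/-- the field is infinite -/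
lemma Nd.infinite (h : Nd φ Nn) [Nontrivial A] : Infinite F := by
  by_contra hF
  rw [not_infinite_iff_finite] at hF
  have hA : IsCyclic A := isCyclic_of_surjective φ h.surj
  obtain ⟨a, ha⟩ := hA.exists_generator
  have h1 : a = 1 := by
    apply h.nd
    intro b
    apply h.symm
    exact (Subgroup.zpowers_le.2 (h.self_mem a)) (ha b)
  obtain ⟨b, hb⟩ := exists_ne (1 : A)
  apply hb
  have h2 := ha b
  rw [h1, Subgroup.zpowers_one_eq_bot, Subgroup.mem_bot] at h2
  exact h2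

/-- the composition of valuation rings -/
lemma exists_comp (O : ValuationSubring F) (O₁ : ValuationSubring (IsLocalRing.ResidueField O)) :
    ∃ R : ValuationSubring F, ∀ x, x ∈ R ↔
      ∃ h : x ∈ O, IsLocalRing.residue O ⟨x, h⟩ ∈ O₁ := by
  let R : ValuationSubring F :=
    { carrier := {x | ∃ h : x ∈ O, IsLocalRing.residue O ⟨x, h⟩ ∈ O₁}
      mul_mem' := by
        rintro a b ⟨ha, ha'⟩ ⟨hb, hb'⟩
        refine ⟨O.mul_mem _ _ ha hb, ?_⟩
        have := O₁.mul_mem _ _ ha' hb'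
        rwa [← map_mul] at this
      one_mem' := by
        refine ⟨O.one_mem, ?_⟩
        have e : (⟨1, O.one_mem⟩ : O) = 1 := rfl
        rw [e, map_one]
        exact O₁.one_mem
      add_mem' := by
        rintro a b ⟨ha, ha'⟩ ⟨hb, hb'⟩
        refine ⟨O.add_mem _ _ ha hb, ?_⟩
        have := O₁.add_mem _ _ ha' hb'
        rwa [← map_add] at this
      zero_mem' := by
        refine ⟨O.zero_mem, ?_⟩
        have e : (⟨0, O.zero_mem⟩ : O) = 0 := rfl
        rw [e, map_zero]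
        exact O₁.zero_mem
      neg_mem' := by
        rintro a ⟨ha, ha'⟩
        refine ⟨O.neg_mem _ ha, ?_⟩
        have := O₁.neg_mem _ ha'
        rwa [← map_neg] at this
      mem_or_inv_mem' := by
        intro x
        rcases O.mem_or_inv_mem x with hx | hx
        · by_cases h0 : IsLocalRing.residue O ⟨x, hx⟩ = 0
          · left
            refine ⟨hx, ?_⟩
            rw [h0]
            exact O₁.zero_mem
          · have h1 := valuation_eq_one_of O _ h0
            have hx0 : x ≠ 0 := by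
              rintro rfl
              rw [map_zero] at h1
              exact zero_ne_one h1
            have hxi : x⁻¹ ∈ O := by
              rw [← O.valuation_le_one_iff, map_inv₀, h1, inv_one]
            have e : IsLocalRing.residue O ⟨x⁻¹, hxi⟩ = (IsLocalRing.residue O ⟨x, hx⟩)⁻¹ := by
              apply eq_inv_of_mul_eq_one_left
              rw [← map_mul]
              have e2 : (⟨x⁻¹, hxi⟩ : O) * ⟨x, hx⟩ = 1 := by
                ext
                exact inv_mul_cancel₀ hx0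
              rw [e2, map_one]
            rcases O₁.mem_or_inv_mem (IsLocalRing.residue O ⟨x, hx⟩) with h | h
            · exact Or.inl ⟨hx, h⟩
            · right
              refine ⟨hxi, ?_⟩
              rw [e]
              exact h
        · by_cases h0 : IsLocalRing.residue O ⟨x⁻¹, hx⟩ = 0
          · right
            refine ⟨hx, ?_⟩
            rw [h0]
            exact O₁.zero_mem
          · have h1 := valuation_eq_one_of O _ h0
            have hx0 : x ≠ 0 := by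
              rintro rfl
              simp only [inv_zero, map_zero] at h1
              exact zero_ne_one h1
            have hxi : x ∈ O := by
              simp only [map_inv₀, inv_eq_one] at h1
              rw [← O.valuation_le_one_iff, h1]
            have e : IsLocalRing.residue O ⟨x, hxi⟩ = (IsLocalRing.residue O ⟨x⁻¹, hx⟩)⁻¹ := by
              apply eq_inv_of_mul_eq_one_left
              rw [← map_mul]
              have e2 : (⟨x, hxi⟩ : O) * ⟨x⁻¹, hx⟩ = 1 := by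
                ext
                exact mul_inv_cancel₀ hx0
              rw [e2, map_one]
            rcases O₁.mem_or_inv_mem (IsLocalRing.residue O ⟨x⁻¹, hx⟩) with h | h
            · exact Or.inr ⟨hx, h⟩
            · left
              refine ⟨hxi, ?_⟩
              rw [e]
              exact h }
  exact ⟨R, fun x => Iff.rfl⟩

variable {O : ValuationSubring F}

lemma res_inv {x : F} (hx : x ∈ O) (hxi : x⁻¹ ∈ O) (hx0 : x ≠ 0) :
    IsLocalRing.residue O ⟨x⁻¹, hxi⟩ = (IsLocalRing.residue O ⟨x, hx⟩)⁻¹ := by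
  apply eq_inv_of_mul_eq_one_left
  rw [← map_mul]
  have e2 : (⟨x⁻¹, hxi⟩ : O) * ⟨x, hx⟩ = 1 := by
    ext
    exact inv_mul_cancel₀ hx0
  rw [e2, map_one]

lemma res_mul {x y : F} (hx : x ∈ O) (hy : y ∈ O) :
    IsLocalRing.residue O ⟨x * y, O.mul_mem _ _ hx hy⟩ =
      IsLocalRing.residue O ⟨x, hx⟩ * IsLocalRing.residue O ⟨y, hy⟩ := by
  rw [← map_mul]
  rfl

lemma res_pow {x : F} (hx : x ∈ O) (n : ℕ) :
    IsLocalRing.residue O ⟨x ^ n, O.toSubring.pow_mem hx n⟩ =
      IsLocalRing.residue O ⟨x, hx⟩ ^ n := by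
  rw [← map_pow]
  rfl

variable {p : ℕ}

/-- the system for the residue field -/
lemma nd_res (h : Nd φ Nn) {ψ : (IsLocalRing.ResidueField O)ˣ →* AU φ O}
    (hψ : ∀ u : O.unitGroup, (ψ (O.unitGroupToResidueFieldUnits u) : A) = φ u)
    (htop : AU φ O = ⊤) : Nd ((AU φ O).subtype.comp ψ) Nn where
  surj := by
    intro a
    have ha : a ∈ AU φ O := by rw [htop]; exact Subgroup.mem_top a
    obtain ⟨x, hx⟩ := surj_res hψ ⟨a, ha⟩
    exact ⟨x, congrArg Subtype.val hx⟩
  neg := by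
    have := neg_res h.neg hψ
    exact congrArg Subtype.val this
  symm := h.symm
  sum := by
    intro u v huv
    have h1 : ψ v ∈ Vv ψ (ψ u) := Or.inr (Or.inr ⟨u, v, rfl, huv, rfl⟩)
    exact h.vv (vv_res hψ h1)
  nd := h.nd

lemma eq_of_mul {H K : Subgroup A} (hHK : H ⊓ K = ⊥) {a b c d : A} (ha : a ∈ H) (hb : b ∈ K)
    (hc : c ∈ H) (hd : d ∈ K) (e : a * b = c * d) : a = c ∧ b = d := by
  have h1 : a / c = d / b := by
    rw [div_eq_div_iff_mul_eq_mul, e, mul_comm c d]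
  have h2 : a / c ∈ H ⊓ K := Subgroup.mem_inf.2 ⟨div_mem ha hc, by rw [h1]; exact div_mem hd hb⟩
  rw [hHK, Subgroup.mem_bot] at h2
  rw [h2] at h1
  exact ⟨div_eq_one.1 h2, (div_eq_one.1 h1.symm).symm⟩

/-- decompositions over the residue field give decompositions -/
lemma split_res (h : Nd φ Nn) (hC : Cmp φ O)
    {ψ : (IsLocalRing.ResidueField O)ˣ →* AU φ O}
    (hψ : ∀ u : O.unitGroup, (ψ (O.unitGroupToResidueFieldUnits u) : A) = φ u)
    {H K : Subgroup A} (hS : Split ((AU φ O).subtype.comp ψ) Nn H K) : Split φ Nn H K where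
  sup := hS.sup
  inf := hS.inf
  orth := hS.orth
  pr := by
    intro u v huv a ha k hk a' ha' k' hk' hu hv
    rcases lt_trichotomy (O.valuation (u : F)) 1 with h1 | h1 | h1
    · obtain ⟨z, hz, hz1⟩ := hC _ h1
      rw [Units.ext (hz.trans huv.symm)] at hz1
      rw [hz1] at hv
      obtain ⟨e1, e2⟩ := eq_of_mul hS.inf (one_mem _) (one_mem _) ha' hk' (by rw [mul_one, hv])
      rw [← e1, ← e2]
      exact ⟨one_mem _, one_mem _⟩
    · have huO : (u : F) ∈ O := (O.valuation_le_one_iff _).1 h1.le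
      have hvO : (v : F) ∈ O := by rw [huv]; exact O.add_mem _ _ O.one_mem huO
      rcases ((O.valuation_le_one_iff _).2 hvO).lt_or_eq with h2 | h2
      · obtain ⟨z, hz, hz1⟩ := hC (-(v : F)) (by rw [Valuation.map_neg]; exact h2)
        have e1 : u = -z := by
          ext
          rw [Units.val_neg, hz, huv]
          ring
        rw [e1, phi_neg h.neg, hz1] at hu
        obtain ⟨e2, e3⟩ := eq_of_mul hS.inf (one_mem _) (one_mem _) ha hk (by rw [mul_one, hu])
        rw [← e2, ← e3]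
        exact ⟨h.mem_one _, h.mem_one _⟩
      · refine hS.pr (O.unitGroupToResidueFieldUnits ⟨u, h1⟩)
          (O.unitGroupToResidueFieldUnits ⟨v, h2⟩) ?_ a ha k hk a' ha' k' hk' ?_ ?_
        · rw [res_unit, res_unit, ← map_one (IsLocalRing.residue O), ← map_add]
          congr 1
          ext
          exact huv
        · rw [← hu, MonoidHom.comp_apply, Subgroup.coe_subtype, hψ]
        · rw [← hv, MonoidHom.comp_apply, Subgroup.coe_subtype, hψ]
    · obtain ⟨z, hz, hz1⟩ := hC ((u : F)⁻¹) (by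
        rw [map_inv₀]
        exact inv_lt_one_of_one_lt₀ h1)
      have e1 : v = u * z := by
        ext
        have hu0 : (u : F) ≠ 0 := u.ne_zero
        rw [Units.val_mul, hz, huv]
        field_simp
        ring
      rw [e1, map_mul, hz1, mul_one, hu] at hv
      obtain ⟨e2, e3⟩ := eq_of_mul hS.inf ha hk ha' hk' hv
      rw [← e2, ← e3]
      exact ⟨h.self_mem _, h.self_mem _⟩

/-- the composite ring -/
lemma op_comp (hp : p.Prime) (hk : ∀ u : Fˣ, φ u = 1 ↔ ∃ c : Fˣ, u = c ^ p)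
    (hC : Cmp φ O) {ψ : (IsLocalRing.ResidueField O)ˣ →* AU φ O}
    (hψ : ∀ u : O.unitGroup, (ψ (O.unitGroupToResidueFieldUnits u) : A) = φ u)
    {O₁ : ValuationSubring (IsLocalRing.ResidueField O)}
    {d₁ c₁ : (IsLocalRing.ResidueField O)ˣ} (hM : Mx ((AU φ O).subtype.comp ψ) p O₁ d₁ c₁) :
    ∃ (R : ValuationSubring F) (d : F), Op p R d ∧ ∃ c : Fˣ, ∀ f : Fˣ,
      ¬ (((c * f ^ p : Fˣ) : F) ∈ R ∧ (((c * f ^ p)⁻¹ : Fˣ) : F) ∈ R) := by
  obtain ⟨R, hR⟩ := exists_comp O O₁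
  obtain ⟨d, hd⟩ := lift_unit O d₁
  obtain ⟨c, hc⟩ := lift_unit O c₁
  have hdv : O.valuation ((d : Fˣ) : F) = 1 := d.2
  have hcv : O.valuation ((c : Fˣ) : F) = 1 := c.2
  have hdO : ((d : Fˣ) : F) ∈ O := (O.valuation_le_one_iff _).1 hdv.le
  have hcO : ((c : Fˣ) : F) ∈ O := (O.valuation_le_one_iff _).1 hcv.le
  have hd0 : ((d : Fˣ) : F) ≠ 0 := Units.ne_zero _
  have hdi : ((d : Fˣ) : F)⁻¹ ∈ O := by
    rw [← O.valuation_le_one_iff, map_inv₀, hdv, inv_one]
  have hdres : IsLocalRing.residue O ⟨_, hdO⟩ = d₁ := by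
    rw [← hd, res_unit]
  have hcres : IsLocalRing.residue O ⟨_, hcO⟩ = c₁ := by
    rw [← hc, res_unit]
  -- membership of quotients by `d`
  have hRd : ∀ x : F, x / ((d : Fˣ) : F) ∈ R ↔
      ∃ h : x ∈ O, O₁.valuation (IsLocalRing.residue O ⟨x, h⟩) ≤ O₁.valuation (d₁ : _) := by
    intro x
    have e1 : ∀ (h : x / ((d : Fˣ) : F) ∈ O) (h' : x ∈ O), IsLocalRing.residue O ⟨_, h⟩ =
        IsLocalRing.residue O ⟨_, h'⟩ / (d₁ : _) := by
      intro h h'
      have e2 : (⟨x / ((d : Fˣ) : F), h⟩ : O) = ⟨x * ((d : Fˣ) : F)⁻¹, O.mul_mem _ _ h' hdi⟩ := by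
        ext
        exact div_eq_mul_inv _ _
      rw [e2, res_mul h' hdi, res_inv hdO hdi hd0, hdres, div_eq_mul_inv]
    rw [hR]
    constructor
    · rintro ⟨h, h1⟩
      have h' : x ∈ O := by
        have := O.mul_mem _ _ h hdO
        rwa [div_mul_cancel₀ _ hd0] at this
      refine ⟨h', ?_⟩
      rw [e1 h h', ← O₁.valuation_le_one_iff, map_div₀, div_le_one₀ (val_pos O₁ d₁)] at h1
      exact h1
    · rintro ⟨h', h1⟩
      have h : x / ((d : Fˣ) : F) ∈ O := by
        rw [div_eq_mul_inv]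
        exact O.mul_mem _ _ h' hdi
      refine ⟨h, ?_⟩
      rw [e1 h h', ← O₁.valuation_le_one_iff, map_div₀, div_le_one₀ (val_pos O₁ d₁)]
      exact h1
  have hdR0 : 0 < R.valuation ((d : Fˣ) : F) := val_pos R d
  have hRd' : ∀ x : F, R.valuation x ≤ R.valuation ((d : Fˣ) : F) ↔ x / ((d : Fˣ) : F) ∈ R := by
    intro x
    rw [← R.valuation_le_one_iff, map_div₀, div_le_one₀ hdR0]
  refine ⟨R, ((d : Fˣ) : F), ⟨hd0, ?_, ?_, ?_⟩, c, ?_⟩
  · rw [v_lt_one_iff]
    right
    rw [hR]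
    rintro ⟨h, h1⟩
    rw [res_inv hdO h hd0, hdres, ← O₁.valuation_le_one_iff, map_inv₀] at h1
    exact absurd h1 (not_le.2 ((one_lt_inv₀ (val_pos O₁ d₁)).2 hM.dv))
  · intro v hv
    rw [hRd', hRd] at hv
    obtain ⟨hvO, hv1⟩ := hv
    obtain ⟨u₁, hu₁, hu1⟩ := hM.opn _ hv1
    obtain ⟨u, rfl⟩ := lift_unit O u₁
    have h3 : (ψ (O.unitGroupToResidueFieldUnits u) : A) = 1 := hu1
    rw [hψ] at h3
    have hu : O.valuation ((u : Fˣ) : F) = 1 := u.2
    have h4 : O.valuation ((1 + v) - ((u : Fˣ) : F)) < 1 := by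
      have h5 : (1 + v) - ((u : Fˣ) : F) ∈ O := by
        refine O.toSubring.sub_mem (O.add_mem _ _ O.one_mem hvO) (O.unitGroupMulEquiv u : O).2
      have h6 := residue_eq_zero_iff O ⟨_, h5⟩
      rw [← h6]
      have e2 : (⟨(1 + v) - ((u : Fˣ) : F), h5⟩ : O) =
          1 + ⟨v, hvO⟩ - ⟨((u : Fˣ) : F), (O.unitGroupMulEquiv u : O).2⟩ := rfl
      rw [e2, map_sub, map_add, map_one, ← hu₁, res_unit, sub_self]
    obtain ⟨w, hw, hw1⟩ := hC (((1 + v) - ((u : Fˣ) : F)) / ((u : Fˣ) : F)) (by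
      rw [map_div₀, hu, div_one]
      exact h4)
    obtain ⟨y, hy⟩ := (hk (u * w)).1 (by rw [map_mul, h3, hw1, one_mul])
    refine ⟨y, ?_⟩
    have hu0 : ((u : Fˣ) : F) ≠ 0 := Units.ne_zero _
    rw [← Units.val_pow_eq_pow_val, ← hy, Units.val_mul, hw]
    field_simp
    ring
  · intro f hf
    have hf' := hf
    rw [v_lt_one_iff] at hf
    by_cases hf0 : f = 0
    · exact ⟨1, by rw [hf0, map_zero, pow_one]; exact zero_le⟩
    have hf1 := hf.resolve_left hf0
    have hfR : f ∈ R := (R.valuation_le_one_iff _).1 hf'.le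
    obtain ⟨hfO, -⟩ := (hR f).1 hfR
    by_cases hfv : O.valuation f < 1
    · refine ⟨1, ?_⟩
      rw [pow_one, hRd', hRd]
      refine ⟨hfO, ?_⟩
      rw [(residue_eq_zero_iff O ⟨f, hfO⟩).2 hfv, map_zero]
      exact zero_le
    · have hfv1 : O.valuation f = 1 := le_antisymm ((O.valuation_le_one_iff _).2 hfO)
        (not_lt.1 hfv)
      have hfi : f⁻¹ ∈ O := by
        rw [← O.valuation_le_one_iff, map_inv₀, hfv1, inv_one]
      have h1 : O₁.valuation (IsLocalRing.residue O ⟨f, hfO⟩) < 1 := by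
        rw [v_lt_one_iff]
        right
        intro h2
        apply hf1
        rw [hR]
        refine ⟨hfi, ?_⟩
        rw [res_inv hfO hfi hf0]
        exact h2
      obtain ⟨j, hj⟩ := hM.arch _ h1 d₁
      refine ⟨j, ?_⟩
      rw [← map_pow, hRd', hRd]
      refine ⟨O.toSubring.pow_mem hfO j, ?_⟩
      rw [res_pow hfO, map_pow]
      exact hj
  · rintro f ⟨h1, h2⟩
    obtain ⟨h1O, h1'⟩ := (hR _).1 h1
    obtain ⟨h2O, h2'⟩ := (hR _).1 h2
    have hv : O.valuation (((c : Fˣ) * f ^ p : Fˣ) : F) = 1 := by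
      refine le_antisymm ((O.valuation_le_one_iff _).2 h1O) ?_
      have h3 := (O.valuation_le_one_iff _).2 h2O
      rw [Units.val_inv_eq_inv_val, map_inv₀] at h3
      exact (inv_le_one₀ (val_pos O _)).1 h3
    have hfv : O.valuation (f : F) = 1 := by
      rw [Units.val_mul, map_mul, hcv, one_mul, Units.val_pow_eq_pow_val, map_pow] at hv
      exact (pow_eq_one_iff_of_nonneg zero_le hp.ne_zero).1 hv
    have hfO : (f : F) ∈ O := (O.valuation_le_one_iff _).1 hfv.le
    obtain ⟨g, hg⟩ : ∃ g : (IsLocalRing.ResidueField O)ˣ,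
        (g : IsLocalRing.ResidueField O) = IsLocalRing.residue O ⟨f, hfO⟩ := by
      refine ⟨Units.mk0 (IsLocalRing.residue O ⟨f, hfO⟩) ?_, Units.val_mk0 _⟩
      rw [Ne, residue_eq_zero_iff, not_lt]
      exact hfv.ge
    apply hM.nu g
    have e1 : IsLocalRing.residue O ⟨(((c : Fˣ) * f ^ p : Fˣ) : F), h1O⟩ =
        ((c₁ * g ^ p : (IsLocalRing.ResidueField O)ˣ) : IsLocalRing.ResidueField O) := by
      have e0 : (⟨(((c : Fˣ) * f ^ p : Fˣ) : F), h1O⟩ : O) = ⟨((c : Fˣ) : F) * (f : F) ^ p,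
          O.mul_mem _ _ hcO (O.toSubring.pow_mem hfO p)⟩ := rfl
      rw [e0, res_mul hcO (O.toSubring.pow_mem hfO p), res_pow hfO, hcres, Units.val_mul,
        Units.val_pow_eq_pow_val, hg]
    have e2 : IsLocalRing.residue O ⟨((((c : Fˣ) * f ^ p)⁻¹ : Fˣ) : F), h2O⟩ =
        (((c₁ * g ^ p : (IsLocalRing.ResidueField O)ˣ) : IsLocalRing.ResidueField O))⁻¹ := by
      have h3 : (((c : Fˣ) * f ^ p : Fˣ) : F)⁻¹ ∈ O := by
        rw [← Units.val_inv_eq_inv_val]
        exact h2O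
      have e0 : (⟨((((c : Fˣ) * f ^ p)⁻¹ : Fˣ) : F), h2O⟩ : O) =
          ⟨(((c : Fˣ) * f ^ p : Fˣ) : F)⁻¹, h3⟩ := by
        apply Subtype.ext
        exact Units.val_inv_eq_inv_val ((c : Fˣ) * f ^ p)
      rw [e0, res_inv h1O h3 (Units.ne_zero _), e1]
    rw [e1, ← O₁.valuation_le_one_iff] at h1'
    rw [e2, ← O₁.valuation_le_one_iff, map_inv₀, inv_le_one₀ (val_pos O₁ _)] at h2'
    exact le_antisymm h1' h2'

/-- The rings of nondegenerate indecomposable systems. -/
theorem rings (hp : p.Prime) (hp2 : p ≠ 2) [Finite A] [Nontrivial A] (h : Nd φ Nn)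
    (hi : Indec φ Nn) {ζ : Fˣ} (hζ : IsPrimitiveRoot ζ p)
    (hk : ∀ u : Fˣ, φ u = 1 ↔ ∃ c : Fˣ, u = c ^ p) :
    (∃ O : ValuationSubring F, EB.Gd φ p O ∧ ∃ c : Fˣ, ∀ f : Fˣ,
      ¬ (((c * f ^ p : Fˣ) : F) ∈ O ∧ (((c * f ^ p)⁻¹ : Fˣ) : F) ∈ O)) ∨
    ∃ (O : ValuationSubring F) (d : F), Op p O d ∧ ∃ c : Fˣ, ∀ f : Fˣ,
      ¬ (((c * f ^ p : Fˣ) : F) ∈ O ∧ (((c * f ^ p)⁻¹ : Fˣ) : F) ∈ O) := by
  have hpF : (p : F) ≠ 0 := by
    have : NeZero p := ⟨hp.ne_zero⟩
    have hζ' : IsPrimitiveRoot (ζ : F) p := by rwa [IsPrimitiveRoot.coe_units_iff]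
    exact hζ'.neZero'.ne
  obtain ⟨O, hO, hmin⟩ := exists_min_gd (φ := φ) hpF
  by_cases htop : AU φ O = ⊤
  swap
  · left
    obtain ⟨a, ha⟩ : ∃ a, a ∉ AU φ O := by
      by_contra hc
      push Not at hc
      exact htop (eq_top_iff.2 fun a _ => hc a)
    obtain ⟨c, rfl⟩ := h.surj a
    refine ⟨O, hO, c, ?_⟩
    rintro f ⟨h1, h2⟩
    apply ha
    refine ⟨c * f ^ p, ?_, by rw [map_mul, (hk (f ^ p)).2 ⟨_, rfl⟩, mul_one]⟩
    apply mem_unitGroup_of
    refine le_antisymm ((O.valuation_le_one_iff _).2 h1) ?_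
    have h3 := (O.valuation_le_one_iff _).2 h2
    rw [Units.val_inv_eq_inv_val, map_inv₀] at h3
    exact (inv_le_one₀ (val_pos O _)).1 h3
  right
  obtain ⟨ψ, hψ⟩ := exists_psi O hO.cmp
  have hnd := nd_res h hψ htop
  have hinf := hnd.infinite
  obtain ⟨ξ, hξ⟩ := zeta_res hp hζ hO.pv
  have hk' : ∀ u : (IsLocalRing.ResidueField O)ˣ, (AU φ O).subtype.comp ψ u = 1 ↔
      ∃ c : (IsLocalRing.ResidueField O)ˣ, u = c ^ p := by
    intro u
    rw [← ker_res hp hk hψ u, MonoidHom.comp_apply, Subgroup.coe_subtype, OneMemClass.coe_eq_one]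
  have hi' : Indec ((AU φ O).subtype.comp ψ) Nn := fun H K hHK => hi H K (split_res h hO.cmp hψ hHK)
  rcases weak' hp hp2 hnd hi' hξ hk' with ⟨O₁, h1, h2, h3⟩ | ⟨O₁, d₁, c₁, hM⟩
  · exfalso
    have hC : Cmp ψ O₁ := by
      intro x hx
      obtain ⟨u, hu, hu1⟩ := h3 x hx
      exact ⟨u, hu, Subtype.ext hu1⟩
    obtain ⟨O', hO', hle, hnle⟩ := comp_res hpF hO hψ O₁ ⟨h2, hC⟩ h1
    exact hnle (hmin O' hO' hle)
  · exact op_comp hp hk hO.cmp hψ hM

end

end Pool.Agent.Helper58.ET
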