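import Mathlib
import Pool.Agent.Helper58.ET.Comp

set_option autoImplicit false

/-! Milnor `K₂` modulo a subgroup of the multiplicative group. -/

namespace Pool.Agent.Helper58.ET

open Pool.Agent.Y920.EP Pool.Agent.Helper58.EB
open scoped TensorProduct

section

variable {F : Type} [Field F] {A : Type} [CommGroup A] (φ : Fˣ →* A)

/-- the Steinberg relations -/
def St : AddSubgroup (Additive A ⊗[ℤ] Additive A) :=
  AddSubgroup.closure {x | ∃ u v : Fˣ, (u : F) + v = 1 ∧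
    x = Additive.ofMul (φ u) ⊗ₜ[ℤ] Additive.ofMul (φ v)}

/-- the elements orthogonal to `a` -/
def Ns (a : A) : Subgroup A where
  carrier := {b | Additive.ofMul a ⊗ₜ[ℤ] Additive.ofMul b ∈ St φ}
  mul_mem' := by
    intro b c hb hc
    have hb' : Additive.ofMul a ⊗ₜ[ℤ] Additive.ofMul b ∈ St φ := hb
    have hc' : Additive.ofMul a ⊗ₜ[ℤ] Additive.ofMul c ∈ St φ := hc
    change Additive.ofMul a ⊗ₜ[ℤ] Additive.ofMul (b * c) ∈ St φ
    rw [ofMul_mul, TensorProduct.tmul_add]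
    exact add_mem hb' hc'
  one_mem' := by
    change Additive.ofMul a ⊗ₜ[ℤ] Additive.ofMul 1 ∈ St φ
    rw [ofMul_one, TensorProduct.tmul_zero]
    exact zero_mem _
  inv_mem' := by
    intro b hb
    have hb' : Additive.ofMul a ⊗ₜ[ℤ] Additive.ofMul b ∈ St φ := hb
    change Additive.ofMul a ⊗ₜ[ℤ] Additive.ofMul b⁻¹ ∈ St φ
    rw [ofMul_inv, TensorProduct.tmul_neg]
    exact neg_mem hb'

variable {φ}

lemma mem_Ns {a b : A} : b ∈ Ns φ a ↔ Additive.ofMul a ⊗ₜ[ℤ] Additive.ofMul b ∈ St φ := Iff.rfl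

lemma st_one (hneg : φ (-1) = 1) {u v : Fˣ} (huv : (v : F) = 1 + u) :
    Additive.ofMul (φ u) ⊗ₜ[ℤ] Additive.ofMul (φ v) ∈ St φ := by
  rw [← phi_neg hneg u]
  apply AddSubgroup.subset_closure
  exact ⟨-u, v, by rw [Units.val_neg, huv]; ring, rfl⟩

lemma st_self (hφ : Function.Surjective φ) (hneg : φ (-1) = 1) (a : A) :
    Additive.ofMul a ⊗ₜ[ℤ] Additive.ofMul a ∈ St φ := by
  by_cases ha : a = 1
  · rw [ha, ofMul_one, TensorProduct.tmul_zero]
    exact zero_mem _
  obtain ⟨u, rfl⟩ := hφ a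
  have hu0 : (u : F) ≠ 0 := u.ne_zero
  have h0 : (1 : F) + (-u : Fˣ) ≠ 0 := by
    intro e
    apply ha
    have : u = 1 := by
      ext
      rw [Units.val_neg] at e
      rw [Units.val_one]
      linear_combination (-1) * e
    rw [this, map_one]
  obtain ⟨w, hw⟩ : ∃ w : Fˣ, (w : F) = 1 + (-u : Fˣ) := ⟨Units.mk0 _ h0, Units.val_mk0 _⟩
  have h1 := st_one hneg hw
  have h2 := st_one hneg (u := -u⁻¹) (v := -(w / u)) (by
    rw [Units.val_neg, Units.val_neg, Units.val_div_eq_div_val, hw, Units.val_inv_eq_inv_val,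
      Units.val_neg]
    field_simp
    ring)
  rw [phi_neg hneg] at h1
  rw [phi_neg hneg, phi_neg hneg, map_inv, map_div, ofMul_inv, ofMul_div, TensorProduct.neg_tmul,
    TensorProduct.tmul_sub, neg_sub] at h2
  have h3 := add_mem h1 h2
  rwa [add_sub_cancel] at h3

lemma st_symm (hφ : Function.Surjective φ) (hneg : φ (-1) = 1) (a b : A) :
    Additive.ofMul a ⊗ₜ[ℤ] Additive.ofMul b + Additive.ofMul b ⊗ₜ[ℤ] Additive.ofMul a ∈ St φ := by
  have h1 := st_self hφ hneg (a * b)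
  rw [ofMul_mul, TensorProduct.tmul_add, TensorProduct.add_tmul, TensorProduct.add_tmul] at h1
  have h2 := sub_mem (sub_mem h1 (st_self hφ hneg a)) (st_self hφ hneg b)
  have e : Additive.ofMul a ⊗ₜ[ℤ] Additive.ofMul b + Additive.ofMul b ⊗ₜ[ℤ] Additive.ofMul a =
      Additive.ofMul a ⊗ₜ[ℤ] Additive.ofMul a + Additive.ofMul b ⊗ₜ[ℤ] Additive.ofMul a +
      (Additive.ofMul a ⊗ₜ[ℤ] Additive.ofMul b + Additive.ofMul b ⊗ₜ[ℤ] Additive.ofMul b) -
      Additive.ofMul a ⊗ₜ[ℤ] Additive.ofMul a - Additive.ofMul b ⊗ₜ[ℤ] Additive.ofMul b := by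
    abel
  rw [e]
  exact h2

/-- the system of the symbols -/
lemma nd_k2 (hφ : Function.Surjective φ) (hneg : φ (-1) = 1)
    (hnd : ∀ a : A, (∀ b : A, Additive.ofMul a ⊗ₜ[ℤ] Additive.ofMul b ∈ St φ) → a = 1) :
    Nd φ (Ns φ) where
  surj := hφ
  neg := hneg
  symm := by
    intro a b hab
    rw [mem_Ns] at hab ⊢
    have h1 := sub_mem (st_symm hφ hneg a b) hab
    rwa [add_sub_cancel_left] at h1
  sum := fun u v huv => st_one hneg huv
  nd := by
    intro g hg
    apply hnd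
    intro b
    have h1 := sub_mem (st_symm hφ hneg g b) (hg b)
    rwa [add_sub_cancel_right] at h1

/-- the projection of a direct decomposition -/
lemma exists_proj {H K : Subgroup A} (hsup : H ⊔ K = ⊤) (hinf : H ⊓ K = ⊥) :
    ∃ π : A →* A, (∀ h ∈ H, π h = h) ∧ (∀ k ∈ K, π k = 1) ∧ ∀ a, π a ∈ H ∧
      ∃ k ∈ K, a = π a * k := by
  have h1 : ∀ a : A, ∃ h ∈ H, ∃ k ∈ K, a = h * k := by
    intro a
    have ha : a ∈ H ⊔ K := by rw [hsup]; exact Subgroup.mem_top a
    rw [Subgroup.mem_sup] at ha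
    obtain ⟨h, hh, k, hk, e⟩ := ha
    exact ⟨h, hh, k, hk, e.symm⟩
  choose f hf k hk e using h1
  have huniq : ∀ a h k', h ∈ H → k' ∈ K → a = h * k' → f a = h := by
    intro a h k' hh hk' e'
    exact (eq_of_mul hinf (hf a) (hk a) hh hk' ((e a).symm.trans e')).1
  refine ⟨MonoidHom.mk' f fun a b => ?_, fun h hh => ?_, fun k' hk' => ?_, fun a =>
    ⟨hf a, k a, hk a, e a⟩⟩
  · apply huniq (a * b) (f a * f b) (k a * k b) (mul_mem (hf a) (hf b)) (mul_mem (hk a) (hk b))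
    conv_lhs => rw [e a, e b]
    rw [mul_mul_mul_comm]
  · exact huniq h h 1 hh (one_mem _) (mul_one h).symm
  · exact huniq k' 1 k' (one_mem _) hk' (one_mul k').symm

/-- the tensors from a subgroup -/
def Ts (H : Subgroup A) : AddSubgroup (Additive A ⊗[ℤ] Additive A) :=
  AddSubgroup.closure {x | ∃ h ∈ H, ∃ h' ∈ H,
    x = Additive.ofMul h ⊗ₜ[ℤ] Additive.ofMul h'}

/-- in a decomposition the tensors are independent modulo the relations -/
lemma disj_of_split {H K : Subgroup A} (hS : Split φ (Ns φ) H K)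
    (hneg : φ (-1) = 1) {x y : Additive A ⊗[ℤ] Additive A}
    (hx : x ∈ Ts H) (hy : y ∈ Ts K) (hxy : x - y ∈ St φ) : x ∈ St φ := by
  obtain ⟨π, h1, h2, h3⟩ := exists_proj hS.sup hS.inf
  obtain ⟨P, hP⟩ : ∃ P : Additive A ⊗[ℤ] Additive A →ₗ[ℤ] Additive A ⊗[ℤ] Additive A,
      ∀ a b : A, P (Additive.ofMul a ⊗ₜ[ℤ] Additive.ofMul b) =
        Additive.ofMul (π a) ⊗ₜ[ℤ] Additive.ofMul (π b) :=
    ⟨TensorProduct.map (MonoidHom.toAdditive π).toIntLinearMap
      (MonoidHom.toAdditive π).toIntLinearMap, fun a b => rfl⟩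
  have hPS : ∀ z ∈ St φ, P z ∈ St φ := by
    intro z hz
    unfold St at hz
    induction hz using AddSubgroup.closure_induction with
    | mem z hz =>
      obtain ⟨u, v, huv, rfl⟩ := hz
      rw [hP]
      obtain ⟨h4, k, hk, e1⟩ := h3 (φ u)
      obtain ⟨h5, k', hk', e2⟩ := h3 (φ v)
      exact (hS.pr (-u) v (by rw [Units.val_neg]; linear_combination huv) _ h4 k hk _ h5 k' hk'
        (by rw [phi_neg hneg]; exact e1) e2).1
    | zero => rw [map_zero]; exact zero_mem _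
    | add a b _ _ ha hb => rw [map_add]; exact add_mem ha hb
    | neg a _ ha => rw [map_neg]; exact neg_mem ha
  have hPx : ∀ x ∈ Ts H, P x = x := by
    intro x hx
    unfold Ts at hx
    induction hx using AddSubgroup.closure_induction with
    | mem z hz =>
      obtain ⟨a, ha, b, hb, rfl⟩ := hz
      rw [hP, h1 a ha, h1 b hb]
    | zero => rw [map_zero]
    | add a b _ _ ha hb => rw [map_add, ha, hb]
    | neg a _ ha => rw [map_neg, ha]
  have hPy : ∀ y ∈ Ts K, P y = 0 := by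
    intro y hy
    unfold Ts at hy
    induction hy using AddSubgroup.closure_induction with
    | mem z hz =>
      obtain ⟨a, ha, b, hb, rfl⟩ := hz
      rw [hP, h2 a ha, h2 b hb, ofMul_one, TensorProduct.tmul_zero]
    | zero => rw [map_zero]
    | add a b _ _ ha hb => rw [map_add, ha, hb, add_zero]
    | neg a _ ha => rw [map_neg, ha, neg_zero]
  have h4 := hPS _ hxy
  rwa [map_sub, hPx x hx, hPy y hy, sub_zero] at h4

end

end Pool.Agent.Helper58.ET
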