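import Mathlib
import Pool.Agent.Helper58.ET.K2

set_option autoImplicit false

/-! Leaves of the decomposition: nondegenerate indecomposable systems for arbitrary subgroups which
contain the `p`-th powers. -/

namespace Pool.Agent.Helper58.ET

open Pool.Agent.Y920.EP Pool.Agent.Helper58.EB

section

variable {F : Type} [Field F] {A : Type} [CommGroup A] {φ : Fˣ →* A}

theorem coarse2 (V : ValuationSubring F) {c : Fˣ} (hcV : (c : F) ∈ V)
    (hcV' : ((c⁻¹ : Fˣ) : F) ∉ V)
    (hc : ∀ v ∈ V, ∃ z : Fˣ, (z : F) = 1 + c * v ∧ φ z = 1) :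
    (∃ O : ValuationSubring F, O ≠ ⊤ ∧ Cmp φ O ∧ V ≤ O ∧ ((c⁻¹ : Fˣ) : F) ∈ O) ∨
      ∃ (O : ValuationSubring F) (d : Fˣ), O ≠ ⊤ ∧ V ≤ O ∧ O.valuation (c : F) < 1 ∧
        O.valuation (d : F) < 1 ∧
        (∀ v : F, O.valuation v ≤ O.valuation (d : F) → ∃ u : Fˣ, (u : F) = 1 + v ∧ φ u = 1) ∧
        ∀ x : F, O.valuation x < 1 → ∀ y : Fˣ, ∃ j : ℕ,
          O.valuation x ^ j ≤ O.valuation (y : F) := by
  classical
  have hcv : V.valuation (c : F) < 1 := by
    rw [← V.valuation_le_one_iff, Units.val_inv_eq_inv_val, map_inv₀, not_le] at hcV'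
    exact (one_lt_inv₀ (val_pos V c)).1 hcV'
  by_cases hV : ∀ x : F, ∃ j : ℕ, (c : F) ^ j * x ∈ V
  · -- the rank one coarsening
    let R : Subring F :=
      { carrier := {x | ∀ j : ℕ, V.valuation (c : F) * V.valuation x ^ j ≤ 1}
        mul_mem' := by
          intro a b ha hb j
          rw [map_mul]
          rcases le_total (V.valuation a) (V.valuation b) with h | h
          · refine le_trans (mul_le_mul_right ?_ _) (hb (j + j))
            rw [mul_pow, pow_add]
            exact mul_le_mul_left (pow_le_pow_left₀ zero_le h j) _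
          · refine le_trans (mul_le_mul_right ?_ _) (ha (j + j))
            rw [mul_pow, pow_add]
            exact mul_le_mul_right (pow_le_pow_left₀ zero_le h j) _
        one_mem' := by
          intro j
          rw [map_one, one_pow, mul_one]
          exact hcv.le
        add_mem' := by
          intro a b ha hb j
          have h := Valuation.map_add V.valuation a b
          rcases le_max_iff.1 h with h | h
          · exact (mul_le_mul_right (pow_le_pow_left₀ zero_le h j) _).trans (ha j)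
          · exact (mul_le_mul_right (pow_le_pow_left₀ zero_le h j) _).trans (hb j)
        zero_mem' := by
          intro j
          rw [map_zero]
          refine mul_le_one₀ hcv.le zero_le ?_
          exact pow_le_one₀ zero_le zero_le
        neg_mem' := by
          intro a ha j
          rw [Valuation.map_neg]
          exact ha j }
    have hVR : V.toSubring ≤ R := by
      intro x hx j
      exact mul_le_one₀ hcv.le zero_le
        (pow_le_one₀ zero_le ((V.valuation_le_one_iff x).2 hx))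
    obtain ⟨O, hOR⟩ : ∃ O : ValuationSubring F, ∀ x, x ∈ O ↔ x ∈ R :=
      ⟨V.ofLE R hVR, fun x => Iff.rfl⟩
    have hVO : ∀ x ∈ V, x ∈ O := fun x hx => (hOR x).2 (hVR hx)
    have hO1 : ∀ x : F, x ∈ O → (c : F) * x ∈ V := by
      intro x hx
      rw [← V.valuation_le_one_iff, map_mul]
      have := (hOR x).1 hx 1
      rwa [pow_one] at this
    have hcO : ((c⁻¹ : Fˣ) : F) ∉ O := by
      intro h
      have h1 := (hOR _).1 h 2
      rw [Units.val_inv_eq_inv_val, map_inv₀, inv_pow, pow_two, mul_inv,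
        mul_inv_cancel_left₀ (val_ne V c)] at h1
      exact absurd h1 (not_le.2 ((one_lt_inv₀ (val_pos V c)).2 hcv))
    have hcOv : O.valuation (c : F) < 1 := by
      rw [← O.valuation_le_one_iff, Units.val_inv_eq_inv_val, map_inv₀, not_le] at hcO
      exact (one_lt_inv₀ (val_pos O c)).1 hcO
    have hlt : ∀ x : F, O.valuation x < 1 → ∃ j : ℕ, V.valuation x ^ j ≤ V.valuation (c : F) := by
      intro x hx
      by_cases hx0 : x = 0
      · exact ⟨1, by rw [hx0, map_zero, pow_one]; exact zero_le⟩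
      have h1 : x⁻¹ ∉ O := by
        intro h
        rw [← O.valuation_le_one_iff, map_inv₀] at h
        have h0 : 0 < O.valuation x := zero_lt_iff.2 ((Valuation.ne_zero_iff _).2 hx0)
        exact absurd h (not_le.2 ((one_lt_inv₀ h0).2 hx))
      rw [hOR] at h1
      have h2 : ¬ ∀ j : ℕ, V.valuation (c : F) * V.valuation x⁻¹ ^ j ≤ 1 := h1
      push Not at h2
      obtain ⟨j, hj⟩ := h2
      refine ⟨j, ?_⟩
      have h0 : 0 < V.valuation x ^ j := pow_pos (zero_lt_iff.2 ((Valuation.ne_zero_iff _).2 hx0)) j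
      rw [map_inv₀, inv_pow, ← div_eq_mul_inv, one_lt_div₀ h0] at hj
      exact hj.le
    have hle : ∀ x y : F, V.valuation x ≤ V.valuation y → O.valuation x ≤ O.valuation y := by
      intro x y hxy
      by_cases hy0 : y = 0
      · rw [hy0, map_zero, le_zero_iff, map_eq_zero] at hxy
        rw [hxy, hy0]
      have h0 : 0 < V.valuation y := zero_lt_iff.2 ((Valuation.ne_zero_iff _).2 hy0)
      have h0' : 0 < O.valuation y := zero_lt_iff.2 ((Valuation.ne_zero_iff _).2 hy0)
      rw [← div_le_one₀ h0'] 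
      rw [← div_le_one₀ h0] at hxy
      rw [← map_div₀] at hxy ⊢
      rw [O.valuation_le_one_iff]
      exact hVO _ ((V.valuation_le_one_iff _).1 hxy)
    have harch : ∀ x : F, O.valuation x < 1 → ∀ y : Fˣ, ∃ j : ℕ,
        O.valuation x ^ j ≤ O.valuation (y : F) := by
      intro x hx y
      obtain ⟨i, hi⟩ := hlt x hx
      obtain ⟨k, hk⟩ := hV ((y⁻¹ : Fˣ) : F)
      refine ⟨i * k, ?_⟩
      rw [← map_pow]
      apply hle
      rw [map_pow, pow_mul]
      refine (pow_le_pow_left₀ zero_le hi k).trans ?_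
      rw [← V.valuation_le_one_iff, map_mul, map_pow, Units.val_inv_eq_inv_val, map_inv₀,
        ← div_eq_mul_inv, div_le_one₀ (val_pos V y)] at hk
      exact hk
    have hOtop : O ≠ ⊤ := by
      rintro rfl
      exact hcO (ValuationSubring.mem_top _)
    right
    refine ⟨O, c * c, hOtop, hVO, hcOv, ?_, ?_, harch⟩
    · rw [Units.val_mul, map_mul]
      exact mul_lt_one_of_nonneg_of_lt_one_left zero_le hcOv hcOv.le
    · intro v hv
      have hc0 : (c : F) ≠ 0 := c.ne_zero
      have h1 : v / (c * c) ∈ O := by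
        rw [← O.valuation_le_one_iff, map_div₀, div_le_one₀]
        · rw [Units.val_mul] at hv
          exact hv
        · rw [map_mul]
          exact mul_pos (val_pos O c) (val_pos O c)
      obtain ⟨z, hz, hz1⟩ := hc _ (hO1 _ h1)
      refine ⟨z, ?_, hz1⟩
      rw [hz]
      field_simp
  · left
    let R : Subring F :=
      { carrier := {x | ∃ j : ℕ, (c : F) ^ j * x ∈ V}
        mul_mem' := by
          rintro a b ⟨i, hi⟩ ⟨j, hj⟩
          refine ⟨i + j, ?_⟩
          have := V.mul_mem _ _ hi hj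
          have e : (c : F) ^ (i + j) * (a * b) = (c ^ i * a) * (c ^ j * b) := by ring
          rwa [e]
        one_mem' := ⟨0, by rw [pow_zero, one_mul]; exact V.one_mem⟩
        add_mem' := by
          rintro a b ⟨i, hi⟩ ⟨j, hj⟩
          refine ⟨i + j, ?_⟩
          have h1 := V.mul_mem _ _ (V.toSubring.pow_mem hcV j) hi
          have h2 := V.mul_mem _ _ (V.toSubring.pow_mem hcV i) hj
          have e : (c : F) ^ (i + j) * (a + b) = c ^ j * (c ^ i * a) + c ^ i * (c ^ j * b) := by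
            ring
          rw [e]
          exact V.add_mem _ _ h1 h2
        zero_mem' := ⟨0, by rw [mul_zero]; exact V.zero_mem⟩
        neg_mem' := by
          rintro a ⟨i, hi⟩
          exact ⟨i, by rw [mul_neg]; exact V.neg_mem _ hi⟩ }
    have hVR : V.toSubring ≤ R := by
      intro x hx
      exact ⟨0, by rw [pow_zero, one_mul]; exact hx⟩
    obtain ⟨O, hOR⟩ : ∃ O : ValuationSubring F, ∀ x, x ∈ O ↔ x ∈ R :=
      ⟨V.ofLE R hVR, fun x => Iff.rfl⟩
    have hOtop : O ≠ ⊤ := by
      rintro rfl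
      apply hV
      intro x
      exact (hOR x).1 (ValuationSubring.mem_top x)
    have hC : Cmp φ O := by
      intro x hx
      by_cases hx0 : x = 0
      · exact ⟨1, by rw [hx0, add_zero, Units.val_one], map_one _⟩
      have h1 : x⁻¹ ∉ O := by
        intro h
        rw [← O.valuation_le_one_iff, map_inv₀] at h
        have h0 : 0 < O.valuation x := zero_lt_iff.2 ((Valuation.ne_zero_iff _).2 hx0)
        exact absurd h (not_le.2 ((one_lt_inv₀ h0).2 hx))
      have h2 : x / c ∈ V := by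
        have hc0 : (c : F) ≠ 0 := c.ne_zero
        rcases V.mem_or_inv_mem (x / c) with h | h
        · exact h
        · exfalso
          apply h1
          rw [hOR]
          refine ⟨1, ?_⟩
          rw [pow_one]
          rw [inv_div] at h
          rwa [← div_eq_mul_inv]
      obtain ⟨z, hz, hz1⟩ := hc _ h2
      refine ⟨z, ?_, hz1⟩
      rw [hz, mul_div_cancel₀ _ c.ne_zero]
    refine ⟨O, hOtop, hC, ?_, ?_⟩
    · intro x hx
      exact (hOR x).2 (hVR hx)
    · rw [hOR]
      refine ⟨1, ?_⟩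
      rw [pow_one, Units.mul_inv]
      exact V.one_mem

/-- Newton's method: if `p` is a unit and the elements close enough to one are `p`-th powers then
all one-units are `p`-th powers. -/
lemma newton' {p : ℕ} (O : ValuationSubring F) (hpO : O.valuation (p : F) = 1)
    (hkp : ∀ c : Fˣ, φ (c ^ p) = 1)
    {d : Fˣ} (hd : ∀ v : F, O.valuation v ≤ O.valuation (d : F) →
      ∃ u : Fˣ, (u : F) = 1 + v ∧ φ u = 1)
    {x : F} (hx : O.valuation x < 1) (hxd : ∃ j : ℕ, O.valuation x ^ j ≤ O.valuation (d : F)) :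
    ∃ u : Fˣ, (u : F) = 1 + x ∧ φ u = 1 := by
  have hp0 : (p : F) ≠ 0 := by
    intro e
    rw [e, map_zero] at hpO
    exact zero_ne_one hpO
  have key : ∀ i : ℕ, ∃ (t : Fˣ) (e : F), 1 + x = (t : F) ^ p * (1 + e) ∧
      O.valuation e ≤ O.valuation x ^ (2 ^ i) := by
    intro i
    induction i with
    | zero => exact ⟨1, x, by simp, by simp⟩
    | succ i ih =>
      obtain ⟨t, e, h1, h2⟩ := ih
      have h3 : O.valuation e < 1 :=
        h2.trans_lt (pow_lt_one₀ zero_le hx (pow_ne_zero _ two_ne_zero))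
      have h4 : O.valuation (e / p) = O.valuation e := by
        rw [map_div₀, hpO, div_one]
      obtain ⟨a, ha, ha1⟩ := exists_unit_one_add O (x := e / p) (by rw [h4]; exact h3)
      have heO : e / p ∈ O := (O.valuation_le_one_iff _).1 (by rw [h4]; exact h3.le)
      obtain ⟨k, hk⟩ := Polynomial.powAddExpansion (1 : O) ⟨e / p, heO⟩ p
      have h5 : (a : F) ^ p = 1 + e + k * (e / p) ^ 2 := by
        have := congrArg Subtype.val hk
        push_cast at this
        rw [ha, this]
        field_simp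
        ring
      have ha0 : (a : F) ≠ 0 := a.ne_zero
      refine ⟨t * a, -(k * (e / p) ^ 2) / (a : F) ^ p, ?_, ?_⟩
      · rw [h1, Units.val_mul, mul_pow, mul_assoc]
        congr 1
        rw [mul_add, mul_one, mul_div_cancel₀ _ (pow_ne_zero _ ha0), h5]
        ring
      · rw [map_div₀, Valuation.map_neg, map_pow, ha1, one_pow, div_one, map_mul, map_pow, h4]
        calc O.valuation (k : F) * O.valuation e ^ 2 ≤ 1 * O.valuation e ^ 2 :=
              mul_le_mul_left ((O.valuation_le_one_iff _).2 k.2) _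
          _ ≤ (O.valuation x ^ 2 ^ i) ^ 2 := by
              rw [one_mul]
              exact pow_le_pow_left₀ zero_le h2 2
          _ = O.valuation x ^ 2 ^ (i + 1) := by rw [← pow_mul, pow_succ]
  obtain ⟨j, hj⟩ := hxd
  obtain ⟨t, e, h1, h2⟩ := key j
  have h3 : O.valuation e ≤ O.valuation (d : F) := by
    refine (h2.trans ?_).trans hj
    exact pow_le_pow_right_of_le_one' hx.le (Nat.lt_two_pow_self).le
  obtain ⟨u, hu, hu1⟩ := hd e h3
  refine ⟨t ^ p * u, ?_, ?_⟩
  · rw [Units.val_mul, Units.val_pow_eq_pow_val, hu, h1]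
  · rw [map_mul, hu1, mul_one, hkp]


/-- a valuation ring of rank one with residue characteristic `p`, for which the kernel is open, and
with a class without units -/
structure Pd (φ : Fˣ →* A) (p : ℕ) (O : ValuationSubring F) : Prop where
  pv : O.valuation (p : F) < 1
  opn : ∃ d : Fˣ, O.valuation (d : F) < 1 ∧
    ∀ v : F, O.valuation v ≤ O.valuation (d : F) → ∃ u : Fˣ, (u : F) = 1 + v ∧ φ u = 1
  arch : ∀ x : F, O.valuation x < 1 → ∀ y : Fˣ, ∃ j : ℕ, O.valuation x ^ j ≤ O.valuation (y : F)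
  nu : ∃ c : Fˣ, ∀ u : Fˣ, O.valuation (u : F) = 1 → φ c ≠ φ u

variable {Nn : A → Subgroup A} {A₀ : Type} [CommGroup A₀] {φ₀ : Fˣ →* A₀} {p : ℕ}

/-- in the mixed characteristic case there is a class without units -/
lemma exists_nu' (hp : p.Prime) (hp2 : p ≠ 2) (O : ValuationSubring F) [Finite A₀] [Finite A]
    [Nontrivial A] (h : Nd φ Nn) (hk : ∀ u : Fˣ, φ₀ u = 1 ↔ ∃ c : Fˣ, u = c ^ p)
    (hkp : ∀ c : Fˣ, φ (c ^ p) = 1)
    (hpO : O.valuation (p : F) < 1) {d : Fˣ} (hd1 : O.valuation (d : F) < 1)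
    (hd : ∀ v : F, O.valuation v ≤ O.valuation (d : F) → ∃ u : Fˣ, (u : F) = 1 + v ∧ φ u = 1)
    (harch : ∀ x : F, O.valuation x < 1 → ∀ y : Fˣ, ∃ j : ℕ,
      O.valuation x ^ j ≤ O.valuation (y : F)) :
    ∃ c : Fˣ, ∀ u : Fˣ, O.valuation (u : F) = 1 → φ c ≠ φ u := by
  classical
  by_contra hcon
  push Not at hcon
  -- all classes are classes of one-units
  have hall : ∀ b : A, b ∈ BB φ O := by
    intro b
    obtain ⟨c, rfl⟩ := h.surj b
    obtain ⟨u, hu, hcu⟩ := hcon c
    obtain ⟨w, hw, hw1⟩ := perf hp hp2 O hk hpO hu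
    have h1 : φ₀ (u / w) = 1 := by rw [map_div, hw1, div_self']
    obtain ⟨s, hs⟩ := (hk _).1 h1
    rw [hcu]
    refine ⟨w, hw, ?_⟩
    have h2 : φ (u / w) = 1 := by rw [hs, hkp]
    rw [map_div, div_eq_one] at h2
    exact h2.symm
  have hC : ¬ Cmp φ O := by
    intro hC
    obtain ⟨b, hb⟩ := exists_ne (1 : A)
    apply hb
    obtain ⟨w, hw, rfl⟩ := hall b
    obtain ⟨z, hz, hz1⟩ := hC _ ((O.mem_principalUnitGroup_iff w).1 hw)
    rw [← hz1]
    congr 1
    ext
    rw [hz]
    ring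
  unfold Cmp at hC
  push Not at hC
  obtain ⟨x₀, hx₀, hx₀1⟩ := hC
  -- representatives of the classes of one-units
  have hrep : ∀ b : A, ∃ u : Fˣ, O.valuation ((u : F) - 1) < 1 ∧ φ u = b := by
    intro b
    obtain ⟨u, hu, hub⟩ := hall b
    exact ⟨u, (O.mem_principalUnitGroup_iff u).1 hu, hub⟩
  choose rep hrep1 hrep2 using hrep
  obtain ⟨ε, hε1, hε2⟩ : ∃ ε : Fˣ, O.valuation (ε : F) < 1 ∧
      ∀ b, O.valuation ((rep b : F) - 1) ≤ O.valuation (ε : F) := by
    obtain ⟨b₀, hb₀⟩ := Finite.exists_max fun b =>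
      max (O.valuation ((rep b : F) - 1)) (O.valuation (d : F))
    by_cases h0 : O.valuation ((rep b₀ : F) - 1) ≤ O.valuation (d : F)
    · refine ⟨d, hd1, fun b => ?_⟩
      have := (le_max_left _ _).trans (hb₀ b)
      rwa [max_eq_right h0] at this
    · rw [not_le] at h0
      have hne : (rep b₀ : F) - 1 ≠ 0 := by
        intro e
        rw [e, map_zero] at h0
        exact absurd h0 (not_lt.2 zero_le)
      refine ⟨Units.mk0 _ hne, by rw [Units.val_mk0]; exact hrep1 b₀, fun b => ?_⟩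
      have := (le_max_left _ _).trans (hb₀ b)
      rwa [max_eq_left h0.le] at this
  -- an element `1 + x` not in the kernel which is close to one
  obtain ⟨x, hx, hx1, hxε⟩ : ∃ x : F, O.valuation x < 1 ∧
      (∀ u : Fˣ, (u : F) = 1 + x → φ u ≠ 1) ∧
      ∀ v : F, O.valuation v ≤ O.valuation x * O.valuation (ε : F) →
        ∃ u : Fˣ, (u : F) = 1 + v ∧ φ u = 1 := by
    have hex : ∃ n : ℕ, ∀ v : F, O.valuation v ≤ O.valuation x₀ * O.valuation (ε : F) ^ n →
        ∃ u : Fˣ, (u : F) = 1 + v ∧ φ u = 1 := by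
      obtain ⟨j, hj⟩ := harch _ hε1 d
      refine ⟨j, fun v hv => hd v (hv.trans ?_)⟩
      exact (mul_le_of_le_one_left zero_le hx₀.le).trans hj
    obtain ⟨n, hn, hmin⟩ : ∃ n : ℕ, (∀ v : F, O.valuation v ≤
        O.valuation x₀ * O.valuation (ε : F) ^ n → ∃ u : Fˣ, (u : F) = 1 + v ∧ φ u = 1) ∧
        ∀ m < n, ¬ ∀ v : F, O.valuation v ≤ O.valuation x₀ * O.valuation (ε : F) ^ m →
          ∃ u : Fˣ, (u : F) = 1 + v ∧ φ u = 1 :=
      ⟨Nat.find hex, Nat.find_spec hex, fun m hm => Nat.find_min hex hm⟩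
    have hn0 : n ≠ 0 := by
      rintro rfl
      obtain ⟨u, hu, hu1⟩ := hn x₀ (by rw [pow_zero, mul_one])
      exact hx₀1 u hu hu1
    obtain ⟨m, rfl⟩ := Nat.exists_eq_succ_of_ne_zero hn0
    have hm := hmin m (Nat.lt_succ_self m)
    push Not at hm
    obtain ⟨x, hx, hx1⟩ := hm
    refine ⟨x, ?_, hx1, fun v hv => hn v (hv.trans ?_)⟩
    · refine hx.trans_lt ?_
      exact mul_lt_one_of_nonneg_of_lt_one_left zero_le hx₀ (pow_le_one₀ zero_le hε1.le)
    · rw [Nat.succ_eq_add_one, pow_succ, ← mul_assoc]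
      exact mul_le_mul_left hx _
  obtain ⟨g, hg, hg1⟩ := exists_unit_one_add O hx
  have hx0 : x ≠ 0 := by
    rintro rfl
    exact hx1 1 (by rw [Units.val_one, add_zero]) (map_one _)
  obtain ⟨x', hx'⟩ : ∃ x' : Fˣ, (x' : F) = x := ⟨Units.mk0 _ hx0, Units.val_mk0 _⟩
  have ha := hx1 g hg
  -- all classes are in the norm group of `g`
  have h1 : ∀ b : A, φ x' * b ∈ Nn (φ g) := by
    intro b
    have hg0 : (g : F) ≠ 0 := g.ne_zero
    obtain ⟨t, ht, ht1⟩ := hxε (x * ((rep b : F) - 1) / g) (by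
      rw [map_div₀, map_mul, hg1, div_one]
      exact mul_le_mul_right (hε2 b) _)
    have h2 : φ (-(x' * rep b)) ∈ Nn (φ (-(g * t))) := by
      apply h.sum
      rw [Units.val_neg, Units.val_neg, Units.val_mul, Units.val_mul, ht, hx', mul_add,
        mul_div_cancel₀ _ hg0, hg]
      ring
    rwa [phi_neg h.neg, phi_neg h.neg, map_mul, map_mul, ht1, mul_one, hrep2] at h2
  apply ha
  apply h.nd
  intro b
  apply h.symm
  have h2 := h1 ((φ x')⁻¹ * b)
  rwa [mul_inv_cancel_left] at h2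

/-- The leaves. -/
theorem leaf (hp : p.Prime) (hp2 : p ≠ 2) (hpF : (p : F) ≠ 0) [Finite A₀] [Finite A] [Nontrivial A]
    (h : Nd φ Nn) (hi : Indec φ Nn) (hk : ∀ u : Fˣ, φ₀ u = 1 ↔ ∃ c : Fˣ, u = c ^ p)
    (hkp : ∀ c : Fˣ, φ (c ^ p) = 1) :
    (∃ O : ValuationSubring F, O ≠ ⊤ ∧ O.valuation (p : F) = 1 ∧ Cmp φ O) ∨
      ∃ O : ValuationSubring F, Pd φ p O := by
  have hinf : Infinite F := h.infinite
  obtain ⟨V, c, hcV, hcV', hc⟩ := exists_open' h hi
  -- rings of rank one
  have key : ∀ (O : ValuationSubring F) (d : Fˣ), O ≠ ⊤ → O.valuation (d : F) < 1 →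
      (∀ v : F, O.valuation v ≤ O.valuation (d : F) → ∃ u : Fˣ, (u : F) = 1 + v ∧ φ u = 1) →
      (∀ x : F, O.valuation x < 1 → ∀ y : Fˣ, ∃ j : ℕ,
          O.valuation x ^ j ≤ O.valuation (y : F)) →
      (∃ O : ValuationSubring F, O ≠ ⊤ ∧ O.valuation (p : F) = 1 ∧ Cmp φ O) ∨
      ∃ O : ValuationSubring F, Pd φ p O := by
    intro O d hO hd1 hd harch
    rcases (val_natCast_le O p).lt_or_eq with h1 | h1
    · exact Or.inr ⟨O, h1, ⟨d, hd1, hd⟩, harch,
        exists_nu' hp hp2 O h hk hkp h1 hd1 hd harch⟩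
    · exact Or.inl ⟨O, hO, h1, fun x hx => newton' O h1 hkp hd hx (harch x hx d)⟩
  rcases coarse2 V hcV hcV' hc with ⟨O, hO, hC, -, -⟩ | ⟨O, d, hO, -, -, hd1, hd, harch⟩
  · rcases (val_natCast_le O p).lt_or_eq with h1 | h1
    · obtain ⟨q, hq⟩ : ∃ q : Fˣ, (q : F) = p := ⟨Units.mk0 _ hpF, Units.val_mk0 _⟩
      rw [← hq] at h1
      have h1' : ((q⁻¹ : Fˣ) : F) ∉ O := by
        rw [Units.val_inv_eq_inv_val]
        exact ((EB.lt_one_iff O).1 h1).resolve_left q.ne_zero
      rcases coarse2 O ((O.valuation_le_one_iff _).1 h1.le) h1' (fun v hv => hC _ (by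
        rw [map_mul]
        exact mul_lt_one_of_nonneg_of_lt_one_left zero_le h1
          ((O.valuation_le_one_iff _).2 hv))) with
        ⟨O', hO', hC', -, hq'⟩ | ⟨O', d, hO', -, -, hd1, hd, harch⟩
      · left
        refine ⟨O', hO', ?_, hC'⟩
        rw [pv_iff O' hpF, ← hq, ← Units.val_inv_eq_inv_val]
        exact hq'
      · exact key O' d hO' hd1 hd harch
    · exact Or.inl ⟨O, hO, h1, hC⟩
  · exact key O d hO hd1 hd harch

end

end Pool.Agent.Helper58.ET
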