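import Mathlib
import Pool.Agent.Helper58.ET.Leaf

set_option autoImplicit false

/-! Local data of blocks and composition of valuation rings. -/

namespace Pool.Agent.Helper58.ET

open Pool.Agent.Y920.EP Pool.Agent.Helper58.EB

section

variable {F : Type} [Field F] {A : Type} [CommGroup A]

/-- tame blocks: `p` is a unit, one-units have trivial class and there is a class without units -/
structure LfA (φ : Fˣ →* A) (p : ℕ) (L : Subgroup A) (O : ValuationSubring F) : Prop where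
  pv : O.valuation (p : F) = 1
  one : ∀ x : F, O.valuation x < 1 → ∃ u : Fˣ, (u : F) = 1 + x ∧ φ u ∈ L
  nu : ∃ c : Fˣ, ∀ u : Fˣ, O.valuation (u : F) = 1 → φ c / φ u ∉ L

/-- bounded by powers of `p` -/
def Bd (p : ℕ) (O : ValuationSubring F) (t : Fˣ) : Prop :=
  (∃ j : ℕ, O.valuation (p : F) ^ j ≤ O.valuation (t : F)) ∧
    ∃ j : ℕ, O.valuation (p : F) ^ j * O.valuation (t : F) ≤ 1

/-- wild blocks: residue characteristic `p`, rank one relative to `p`, the block is the closure of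
the group of `p`-th powers and there is a bounded class without units -/
structure LfB (φ : Fˣ →* A) (p : ℕ) (ζ : Fˣ) (L : Subgroup A) (O : ValuationSubring F) : Prop where
  pv : O.valuation (p : F) < 1
  arch : ∀ f : F, O.valuation f < 1 → ∃ j : ℕ, O.valuation f ^ j ≤ O.valuation (p : F)
  one : ∀ x : F, O.valuation x < O.valuation (1 - (ζ : F)) ^ p →
    ∃ u : Fˣ, (u : F) = 1 + x ∧ φ u ∈ L
  nu : ∃ c : Fˣ, Bd p O c ∧ ∀ u : Fˣ, O.valuation (u : F) = 1 → φ c / φ u ∉ L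
  cl : ∀ t : Fˣ, Bd p O t → φ t ∈ L → ∃ (f : Fˣ) (x : F),
    O.valuation x < O.valuation (1 - (ζ : F)) ^ p ∧ (t : F) = (f : F) ^ p * (1 + x)

variable {φ : Fˣ →* A} {O : ValuationSubring F}
  {O₁ : ValuationSubring (IsLocalRing.ResidueField O)} {R : ValuationSubring F}

lemma comp_mem (hR : ∀ x, x ∈ R ↔ ∃ h : x ∈ O, IsLocalRing.residue O ⟨x, h⟩ ∈ O₁) {x : F}
    (hx : x ∈ R) : x ∈ O := ((hR x).1 hx).1

lemma res_div {x y : F} (hx : x ∈ O) (hy : O.valuation y = 1) (hyO : y ∈ O)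
    (hxy : x / y ∈ O) :
    IsLocalRing.residue O ⟨x / y, hxy⟩ =
      IsLocalRing.residue O ⟨x, hx⟩ / IsLocalRing.residue O ⟨y, hyO⟩ := by
  have hy0 : y ≠ 0 := by
    rintro rfl
    rw [map_zero] at hy
    exact zero_ne_one hy
  have hyi : y⁻¹ ∈ O := by
    rw [← O.valuation_le_one_iff, map_inv₀, hy, inv_one]
  have e2 : (⟨x / y, hxy⟩ : O) = ⟨x * y⁻¹, O.mul_mem _ _ hx hyi⟩ := by
    ext
    exact div_eq_mul_inv _ _
  rw [e2, res_mul hx hyi, res_inv hyO hyi hy0, div_eq_mul_inv]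

lemma res_ne {y : F} (hy : O.valuation y = 1) (hyO : y ∈ O) :
    IsLocalRing.residue O ⟨y, hyO⟩ ≠ 0 := by
  rw [Ne, residue_eq_zero_iff, not_lt]
  exact hy.ge

lemma pos_of_one {y : F} (hy : O.valuation y = 1) (R : ValuationSubring F) :
    0 < R.valuation y := by
  rw [zero_lt_iff, Valuation.ne_zero_iff]
  rintro rfl
  rw [map_zero] at hy
  exact zero_ne_one hy

lemma comp_le (hR : ∀ x, x ∈ R ↔ ∃ h : x ∈ O, IsLocalRing.residue O ⟨x, h⟩ ∈ O₁) {x y : F}
    (hx : x ∈ O) (hy : O.valuation y = 1) (hyO : y ∈ O) :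
    R.valuation x ≤ R.valuation y ↔ O₁.valuation (IsLocalRing.residue O ⟨x, hx⟩) ≤
      O₁.valuation (IsLocalRing.residue O ⟨y, hyO⟩) := by
  have h1 : 0 < O₁.valuation (IsLocalRing.residue O ⟨y, hyO⟩) := by
    rw [zero_lt_iff, Valuation.ne_zero_iff]
    exact res_ne hy hyO
  have hxy : x / y ∈ O := by
    rw [← O.valuation_le_one_iff, map_div₀, hy, div_one]
    exact (O.valuation_le_one_iff _).2 hx
  rw [← div_le_one₀ (pos_of_one hy R), ← map_div₀, R.valuation_le_one_iff, hR, ← div_le_one₀ h1,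
    ← map_div₀, O₁.valuation_le_one_iff]
  constructor
  · rintro ⟨h, h2⟩
    rwa [res_div hx hy hyO] at h2
  · intro h2
    refine ⟨hxy, ?_⟩
    rwa [res_div hx hy hyO]

lemma comp_lt (hR : ∀ x, x ∈ R ↔ ∃ h : x ∈ O, IsLocalRing.residue O ⟨x, h⟩ ∈ O₁) {x y : F}
    (hx : x ∈ O) (hy : O.valuation y = 1) (hyO : y ∈ O) :
    R.valuation x < R.valuation y ↔ O₁.valuation (IsLocalRing.residue O ⟨x, hx⟩) <
      O₁.valuation (IsLocalRing.residue O ⟨y, hyO⟩) := by
  have h1 : 0 < O₁.valuation (IsLocalRing.residue O ⟨y, hyO⟩) := by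
    rw [zero_lt_iff, Valuation.ne_zero_iff]
    exact res_ne hy hyO
  rcases ((O.valuation_le_one_iff _).2 hx).lt_or_eq with h2 | h2
  · have h3 : IsLocalRing.residue O ⟨x, hx⟩ = 0 := (residue_eq_zero_iff O ⟨x, hx⟩).2 h2
    rw [h3, map_zero]
    refine ⟨fun _ => h1, fun _ => ?_⟩
    rw [← not_le]
    intro h4
    by_cases hx0 : x = 0
    · rw [hx0, map_zero] at h4
      exact absurd h4 (not_le.2 (pos_of_one hy R))
    have h5 : 0 < R.valuation x := zero_lt_iff.2 ((Valuation.ne_zero_iff _).2 hx0)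
    rw [← div_le_one₀ h5, ← map_div₀, R.valuation_le_one_iff] at h4
    have h6 := (O.valuation_le_one_iff _).2 (comp_mem hR h4)
    rw [map_div₀, hy] at h6
    have h7 : 0 < O.valuation x := zero_lt_iff.2 ((Valuation.ne_zero_iff _).2 hx0)
    exact absurd h6 (not_le.2 ((one_lt_div₀ h7).2 h2))
  · rw [← not_le, comp_le hR hyO h2 hx, not_le]

lemma val_one_mem (O : ValuationSubring F) {x : F} (hx : O.valuation x = 1) : x ∈ O :=
  (O.valuation_le_one_iff _).1 hx.le

lemma comp_lt_one (hR : ∀ x, x ∈ R ↔ ∃ h : x ∈ O, IsLocalRing.residue O ⟨x, h⟩ ∈ O₁) {x : F}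
    (hx : x ∈ O) :
    R.valuation x < 1 ↔ O₁.valuation (IsLocalRing.residue O ⟨x, hx⟩) < 1 := by
  have h := comp_lt hR hx (y := 1) (by rw [map_one]) O.one_mem
  rw [map_one] at h
  rw [h]
  have e : (⟨1, O.one_mem⟩ : O) = 1 := rfl
  rw [e, map_one, map_one]

lemma comp_le_one (hR : ∀ x, x ∈ R ↔ ∃ h : x ∈ O, IsLocalRing.residue O ⟨x, h⟩ ∈ O₁) {x : F}
    (hx : x ∈ O) :
    R.valuation x ≤ 1 ↔ O₁.valuation (IsLocalRing.residue O ⟨x, hx⟩) ≤ 1 := by
  rw [R.valuation_le_one_iff, O₁.valuation_le_one_iff, hR]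
  exact ⟨fun ⟨_, h⟩ => h, fun h => ⟨hx, h⟩⟩

variable {ψ : (IsLocalRing.ResidueField O)ˣ →* AU φ O}

/-- the class of a unit and of its residue -/
lemma class_res (hψ : ∀ u : O.unitGroup, (ψ (O.unitGroupToResidueFieldUnits u) : A) = φ u)
    {u : Fˣ} (hu : O.valuation (u : F) = 1) :
    ∃ w : (IsLocalRing.ResidueField O)ˣ, (w : IsLocalRing.ResidueField O) =
      IsLocalRing.residue O ⟨u, val_one_mem O hu⟩ ∧ (AU φ O).subtype.comp ψ w = φ u := by
  refine ⟨O.unitGroupToResidueFieldUnits ⟨u, hu⟩, res_unit O ⟨u, hu⟩, ?_⟩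
  rw [MonoidHom.comp_apply, Subgroup.coe_subtype, hψ]

/-- units with the same residue have the same class -/
lemma class_eq (hC : Cmp φ O) {u w : Fˣ} (hu : O.valuation (u : F) = 1)
    (hw : O.valuation (w : F) = 1)
    (h : IsLocalRing.residue O ⟨u, val_one_mem O hu⟩ =
      IsLocalRing.residue O ⟨w, val_one_mem O hw⟩) : φ u = φ w := by
  have h1 : O.valuation ((u : F) / w - 1) < 1 := by
    have h2 := residue_eq_zero_iff O (⟨u, val_one_mem O hu⟩ - ⟨w, val_one_mem O hw⟩)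
    rw [map_sub, h, sub_self] at h2
    have h3 : O.valuation ((u : F) - w) < 1 := h2.1 rfl
    rw [div_sub_one w.ne_zero, map_div₀, hw, div_one]
    exact h3
  obtain ⟨z, hz, hz1⟩ := hC _ h1
  have e : u = w * z := by
    ext
    have hw0 : (w : F) ≠ 0 := w.ne_zero
    rw [Units.val_mul, hz]
    field_simp
    ring
  rw [e, map_mul, hz1, mul_one]

/-- the residue of `1 + x` -/
lemma res_one_add {x : F} (hx : x ∈ O) : IsLocalRing.residue O ⟨1 + x, O.add_mem _ _ O.one_mem hx⟩ =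
    1 + IsLocalRing.residue O ⟨x, hx⟩ := by
  rw [← map_one (IsLocalRing.residue O), ← map_add]
  rfl

/-- one-units of the composite -/
lemma comp_one (hψ : ∀ u : O.unitGroup, (ψ (O.unitGroupToResidueFieldUnits u) : A) = φ u)
    {L : Subgroup A} {x : F} (hx : x ∈ O)
    (h : ∃ u : (IsLocalRing.ResidueField O)ˣ, (u : IsLocalRing.ResidueField O) =
      1 + IsLocalRing.residue O ⟨x, hx⟩ ∧ (AU φ O).subtype.comp ψ u ∈ L) :
    ∃ u : Fˣ, (u : F) = 1 + x ∧ φ u ∈ L := by
  obtain ⟨u, hu, hu1⟩ := h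
  have h1 : IsLocalRing.residue O ⟨1 + x, O.add_mem _ _ O.one_mem hx⟩ ≠ 0 := by
    rw [res_one_add hx, ← hu]
    exact u.ne_zero
  have h2 : O.valuation (1 + x) = 1 := valuation_eq_one_of O _ h1
  have h3 : (1 : F) + x ≠ 0 := by
    intro e
    rw [e, map_zero] at h2
    exact zero_ne_one h2
  obtain ⟨z, hz⟩ : ∃ z : Fˣ, (z : F) = 1 + x := ⟨Units.mk0 _ h3, Units.val_mk0 _⟩
  have hz1 : O.valuation (z : F) = 1 := by rw [hz]; exact h2
  obtain ⟨w, hw, hw1⟩ := class_res hψ hz1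
  refine ⟨z, hz, ?_⟩
  rw [← hw1]
  have e : w = u := by
    ext
    rw [hw, hu, ← res_one_add hx]
    congr 1
    ext
    exact hz
  rw [e]
  exact hu1

lemma exists_lift (hψ : ∀ u : O.unitGroup, (ψ (O.unitGroupToResidueFieldUnits u) : A) = φ u)
    (c : (IsLocalRing.ResidueField O)ˣ) : ∃ (u : Fˣ) (hu : O.valuation (u : F) = 1),
      IsLocalRing.residue O ⟨u, val_one_mem O hu⟩ = c ∧ φ u = (AU φ O).subtype.comp ψ c := by
  obtain ⟨u, hu⟩ := lift_unit O c
  refine ⟨u, u.2, ?_, ?_⟩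
  · rw [← hu, res_unit]
  · rw [← hu, MonoidHom.comp_apply, Subgroup.coe_subtype, hψ]

variable {p : ℕ}

lemma res_p (hp : (p : F) ∈ O) : IsLocalRing.residue O ⟨(p : F), hp⟩ = p := by
  have e : (⟨(p : F), hp⟩ : O) = (p : O) := by
    ext
    push_cast
    rfl
  rw [e, map_natCast]

/-- tame blocks of the residue field -/
lemma lfA_comp (hO : EB.Gd φ p O)
    (hψ : ∀ u : O.unitGroup, (ψ (O.unitGroupToResidueFieldUnits u) : A) = φ u)
    {L : Subgroup A} (h : LfA ((AU φ O).subtype.comp ψ) p L O₁) : ∃ R, LfA φ p L R := by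
  obtain ⟨R, hR⟩ := exists_comp O O₁
  have hpO := val_one_mem O hO.pv
  refine ⟨R, ?_, ?_, ?_⟩
  · refine le_antisymm (val_natCast_le R p) ?_
    rw [← not_lt, comp_lt_one hR hpO, res_p, h.pv]
    exact lt_irrefl _
  · intro x hx
    have hxO := comp_mem hR ((R.valuation_le_one_iff _).1 hx.le)
    rw [comp_lt_one hR hxO] at hx
    exact comp_one hψ hxO (h.one _ hx)
  · obtain ⟨c, hc⟩ := h.nu
    obtain ⟨c', hc', -, hc2⟩ := exists_lift hψ c
    refine ⟨c', fun u hu => ?_⟩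
    have huO := comp_mem hR (val_one_mem R hu)
    have huv : O.valuation (u : F) = 1 := by
      refine le_antisymm ((O.valuation_le_one_iff _).2 huO) ?_
      rw [← not_lt]
      intro h1
      have h2 := comp_lt hR huO (y := 1) (by rw [map_one]) O.one_mem
      have h3 : IsLocalRing.residue O ⟨(u : F), huO⟩ = 0 :=
        (residue_eq_zero_iff O ⟨(u : F), huO⟩).2 h1
      rw [map_one, hu, h3, map_zero] at h2
      have h4 : (0 : O₁.ValueGroup) < O₁.valuation (IsLocalRing.residue O ⟨1, O.one_mem⟩) := by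
        rw [zero_lt_iff, Valuation.ne_zero_iff]
        exact res_ne (by rw [map_one]) _
      exact lt_irrefl _ (h2.2 h4)
    obtain ⟨w, hw, hw1⟩ := class_res hψ huv
    rw [hc2, ← hw1]
    apply hc
    refine le_antisymm ?_ ?_
    · have := (comp_le_one hR huO).1 hu.le
      rwa [hw]
    · rw [hw, ← not_lt, ← comp_lt_one hR huO, hu]
      exact lt_irrefl _

/-- the units of the composite are units -/
lemma val_comp_one (hR : ∀ x, x ∈ R ↔ ∃ h : x ∈ O, IsLocalRing.residue O ⟨x, h⟩ ∈ O₁) {u : F}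
    (hu : R.valuation u = 1) : O.valuation u = 1 := by
  have huO := comp_mem hR (val_one_mem R hu)
  refine le_antisymm ((O.valuation_le_one_iff _).2 huO) ?_
  rw [← not_lt]
  intro h1
  have h2 := comp_lt hR huO (y := 1) (by rw [map_one]) O.one_mem
  have h3 : IsLocalRing.residue O ⟨u, huO⟩ = 0 := (residue_eq_zero_iff O ⟨u, huO⟩).2 h1
  rw [map_one, hu, h3, map_zero] at h2
  have h4 : (0 : O₁.ValueGroup) < O₁.valuation (IsLocalRing.residue O ⟨1, O.one_mem⟩) := by
    rw [zero_lt_iff, Valuation.ne_zero_iff]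
    exact res_ne (by rw [map_one]) _
  exact lt_irrefl _ (h2.2 h4)

/-- wild blocks of the residue field -/
lemma lfB_comp (hO : EB.Gd φ p O)
    (hψ : ∀ u : O.unitGroup, (ψ (O.unitGroupToResidueFieldUnits u) : A) = φ u)
    {L : Subgroup A} {ζ : Fˣ} {ξ : (IsLocalRing.ResidueField O)ˣ} (hζv : O.valuation (ζ : F) = 1)
    (hξ : IsLocalRing.residue O ⟨ζ, val_one_mem O hζv⟩ = ξ)
    (hζ1 : O.valuation (1 - (ζ : F)) = 1)
    (h : LfB ((AU φ O).subtype.comp ψ) p ξ L O₁) : ∃ R, LfB φ p ζ L R := by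
  obtain ⟨R, hR⟩ := exists_comp O O₁
  have hpO := val_one_mem O hO.pv
  have hp1 : O.valuation (p : F) = 1 := hO.pv
  have hlO := val_one_mem O hζ1
  have hlres : IsLocalRing.residue O ⟨1 - (ζ : F), hlO⟩ = 1 - (ξ : IsLocalRing.ResidueField O) := by
    rw [← hξ, ← map_one (IsLocalRing.residue O), ← map_sub]
    rfl
  have hlp1 : O.valuation ((1 - (ζ : F)) ^ p) = 1 := by rw [map_pow, hζ1, one_pow]
  have hlpO : (1 - (ζ : F)) ^ p ∈ O := val_one_mem O hlp1
  have hlpres : IsLocalRing.residue O ⟨(1 - (ζ : F)) ^ p, hlpO⟩ =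
      (1 - (ξ : IsLocalRing.ResidueField O)) ^ p := by
    have e : (⟨(1 - (ζ : F)) ^ p, hlpO⟩ : O) = ⟨1 - (ζ : F), hlO⟩ ^ p := rfl
    rw [e, map_pow, hlres]
  have hpj1 : ∀ j : ℕ, O.valuation ((p : F) ^ j) = 1 := fun j => by rw [map_pow, hp1, one_pow]
  have hpjO : ∀ j : ℕ, (p : F) ^ j ∈ O := fun j => val_one_mem O (hpj1 j)
  have hpjres : ∀ j : ℕ, IsLocalRing.residue O ⟨(p : F) ^ j, hpjO j⟩ = (p : _) ^ j := by
    intro j
    have e : (⟨(p : F) ^ j, hpjO j⟩ : O) = ⟨(p : F), hpO⟩ ^ j := rfl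
    rw [e, map_pow, res_p]
  refine ⟨R, ?_, ?_, ?_, ?_, ?_⟩
  · rw [comp_lt_one hR hpO, res_p]
    exact h.pv
  · intro f hf
    have hfO := comp_mem hR ((R.valuation_le_one_iff _).1 hf.le)
    rw [comp_lt_one hR hfO] at hf
    obtain ⟨j, hj⟩ := h.arch _ hf
    refine ⟨j, ?_⟩
    rw [← map_pow, comp_le hR (O.toSubring.pow_mem hfO j) hp1 hpO, res_pow hfO, map_pow, res_p]
    exact hj
  · intro x hx
    have hx' : R.valuation x < R.valuation ((1 - (ζ : F)) ^ p) := by rwa [map_pow]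
    have hxO : x ∈ O := by
      by_cases hx0 : x = 0
      · rw [hx0]; exact O.zero_mem
      have h1 : x / (1 - (ζ : F)) ^ p ∈ R := by
        rw [← R.valuation_le_one_iff, map_div₀, div_le_one₀ (pos_of_one hlp1 R)]
        exact hx'.le
      have h2 := O.mul_mem _ _ (comp_mem hR h1) hlpO
      rwa [div_mul_cancel₀] at h2
      rintro h3
      rw [h3, map_zero] at hlp1
      exact zero_ne_one hlp1
    rw [comp_lt hR hxO hlp1 hlpO, hlpres, map_pow] at hx'
    exact comp_one hψ hxO (h.one _ hx')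
  · obtain ⟨c, ⟨⟨j, hj⟩, ⟨i, hi⟩⟩, hc⟩ := h.nu
    obtain ⟨c', hc', hcres, hc2⟩ := exists_lift hψ c
    refine ⟨c', ⟨⟨j, ?_⟩, ⟨i, ?_⟩⟩, fun u hu => ?_⟩
    · rw [← map_pow, comp_le hR (hpjO j) hc' (val_one_mem O hc'), hpjres, hcres, map_pow]
      exact hj
    · have h1 : (p : F) ^ i * c' ∈ O := O.mul_mem _ _ (hpjO i) (val_one_mem O hc')
      rw [← map_pow, ← map_mul, comp_le_one hR h1]
      have e : IsLocalRing.residue O ⟨(p : F) ^ i * c', h1⟩ = (p : _) ^ i * c := by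
        rw [res_mul (hpjO i) (val_one_mem O hc'), hpjres, hcres]
      rw [e, map_mul, map_pow]
      exact hi
    · have huv := val_comp_one hR hu
      have huO := val_one_mem O huv
      obtain ⟨w, hw, hw1⟩ := class_res hψ huv
      rw [hc2, ← hw1]
      apply hc
      refine le_antisymm ?_ ?_
      · have := (comp_le_one hR huO).1 hu.le
        rwa [hw]
      · rw [hw, ← not_lt, ← comp_lt_one hR huO, hu]
        exact lt_irrefl _
  · rintro t ⟨⟨j, hj⟩, ⟨i, hi⟩⟩ htL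
    have ht0 : (t : F) ≠ 0 := t.ne_zero
    have htv : O.valuation (t : F) = 1 := by
      refine le_antisymm ?_ ?_
      · have h1 : (p : F) ^ i * t ∈ R := by
          rw [← R.valuation_le_one_iff, map_mul, map_pow]
          exact hi
        have h2 := (O.valuation_le_one_iff _).2 (comp_mem hR h1)
        rwa [map_mul, hpj1, one_mul] at h2
      · have h1 : (p : F) ^ j / t ∈ R := by
          rw [← R.valuation_le_one_iff, map_div₀, map_pow, div_le_one₀ (val_pos R t)]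
          exact hj
        have h2 := (O.valuation_le_one_iff _).2 (comp_mem hR h1)
        rw [map_div₀, hpj1, one_div] at h2
        exact (inv_le_one₀ (val_pos O t)).1 h2
    have htO := val_one_mem O htv
    obtain ⟨w, hw, hw1⟩ := class_res hψ htv
    have hb : Bd p O₁ w := by
      refine ⟨⟨j, ?_⟩, ⟨i, ?_⟩⟩
      · rw [hw, ← map_pow, ← hpjres j, ← comp_le hR (hpjO j) htv htO, map_pow]
        exact hj
      · have h1 : (p : F) ^ i * t ∈ O := O.mul_mem _ _ (hpjO i) htO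
        have e : IsLocalRing.residue O ⟨(p : F) ^ i * t, h1⟩ = (p : _) ^ i * w := by
          rw [res_mul (hpjO i) htO, hpjres, hw]
        rw [← map_pow, ← map_mul, ← e, ← comp_le_one hR h1, map_mul, map_pow]
        exact hi
    obtain ⟨f, x, hx, hf⟩ := h.cl w hb (by rw [hw1]; exact htL)
    · obtain ⟨f', hf', hfres, -⟩ := exists_lift hψ f
      have hf'O := val_one_mem O hf'
      have hfp1 : O.valuation ((f' : F) ^ p) = 1 := by rw [map_pow, hf', one_pow]
      have hfpO := val_one_mem O hfp1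
      have hfp0 : (f' : F) ^ p ≠ 0 := pow_ne_zero _ f'.ne_zero
      have htf : (t : F) / f' ^ p ∈ O := by
        rw [← O.valuation_le_one_iff, map_div₀, htv, hfp1, div_one]
      have hxO : (t : F) / f' ^ p - 1 ∈ O := O.toSubring.sub_mem htf O.one_mem
      refine ⟨f', (t : F) / f' ^ p - 1, ?_, ?_⟩
      · rw [← map_pow, comp_lt hR hxO hlp1 hlpO, hlpres, map_pow]
        have e : IsLocalRing.residue O ⟨(t : F) / f' ^ p - 1, hxO⟩ = x := by
          have e1 : (⟨(t : F) / f' ^ p - 1, hxO⟩ : O) = ⟨(t : F) / f' ^ p, htf⟩ - 1 := rfl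
          have e2 : IsLocalRing.residue O ⟨(f' : F) ^ p, hfpO⟩ =
              (f : IsLocalRing.ResidueField O) ^ p := by
            have e3 : (⟨(f' : F) ^ p, hfpO⟩ : O) = ⟨(f' : F), hf'O⟩ ^ p := rfl
            rw [e3, map_pow, hfres]
          have hf0 : (f : IsLocalRing.ResidueField O) ^ p ≠ 0 := pow_ne_zero _ f.ne_zero
          rw [e1, map_sub, map_one, res_div htO hfp1 hfpO htf, ← hw, hf, e2,
            mul_div_cancel_left₀ _ hf0]
          ring
        rw [e]
        exact hx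
      · field_simp
        ring

end

end Pool.Agent.Helper58.ET
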