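import Mathlib
import Pool.Agent.Helper58.ET.Comp2

set_option autoImplicit false

/-! Decompositions into blocks: products and residue fields. -/

namespace Pool.Agent.Helper58.ET

open Pool.Agent.Y920.EP Pool.Agent.Helper58.EB
open scoped TensorProduct

section

variable {F : Type} [Field F] {A B : Type} [CommGroup A] [CommGroup B]

/-- the tensors with a factor in `L` -/
def Lt (L : Subgroup A) : AddSubgroup (Additive A ⊗[ℤ] Additive A) :=
  AddSubgroup.closure {x | ∃ l ∈ L, ∃ a : A,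
    x = Additive.ofMul l ⊗ₜ[ℤ] Additive.ofMul a ∨ x = Additive.ofMul a ⊗ₜ[ℤ] Additive.ofMul l}

/-- there is a decomposition into local blocks -/
def Dec (φ : Fˣ →* A) (p : ℕ) (ζ : Fˣ) : Prop :=
  ∃ (I : Type) (_ : Finite I) (L : I → Subgroup A),
    (∀ a : I → A, ∃ y : A, ∀ i, y / a i ∈ L i) ∧
    (∀ a : A, (∀ i, a ∈ L i) → a = 1) ∧
    (∀ x, (∀ i, x ∈ St φ ⊔ Lt (L i)) → x ∈ St φ) ∧
    ∀ i, (∃ O, LfA φ p (L i) O) ∨ ∃ O, LfB φ p ζ (L i) O

/-- functoriality of the tensor square -/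
noncomputable def tmap (f : A →* B) :
    Additive A ⊗[ℤ] Additive A →ₗ[ℤ] Additive B ⊗[ℤ] Additive B :=
  TensorProduct.map (MonoidHom.toAdditive f).toIntLinearMap
    (MonoidHom.toAdditive f).toIntLinearMap

lemma tmap_tmul (f : A →* B) (a b : A) :
    tmap f (Additive.ofMul a ⊗ₜ[ℤ] Additive.ofMul b) =
      Additive.ofMul (f a) ⊗ₜ[ℤ] Additive.ofMul (f b) := rfl

lemma map_closure_le {M N : Type} [AddCommGroup M] [AddCommGroup N] (f : M →ₗ[ℤ] N) {s : Set M}
    {S : AddSubgroup N} (h : ∀ x ∈ s, f x ∈ S) {x : M} (hx : x ∈ AddSubgroup.closure s) :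
    f x ∈ S := by
  induction hx using AddSubgroup.closure_induction with
  | mem z hz => exact h z hz
  | zero => rw [map_zero]; exact zero_mem _
  | add a b _ _ ha hb => rw [map_add]; exact add_mem ha hb
  | neg a _ ha => rw [map_neg]; exact neg_mem ha

lemma tensor_ind {S : AddSubgroup (Additive A ⊗[ℤ] Additive A)}
    (h : ∀ a b : A, Additive.ofMul a ⊗ₜ[ℤ] Additive.ofMul b ∈ S)
    (x : Additive A ⊗[ℤ] Additive A) : x ∈ S := by
  induction x using TensorProduct.induction_on with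
  | zero => exact zero_mem _
  | tmul a b => exact h (Additive.toMul a) (Additive.toMul b)
  | add a b ha hb => exact add_mem ha hb

lemma exists_proj' {H K : Subgroup A} (hsup : H ⊔ K = ⊤) (hinf : H ⊓ K = ⊥) :
    ∃ (π : A →* H) (ρ : A →* K), (∀ a : A, a = π a * ρ a) ∧ (∀ h : H, π h = h) ∧
      (∀ h : H, ρ (h : A) = 1) ∧ (∀ k : K, π (k : A) = 1) ∧ ∀ k : K, ρ k = k := by
  obtain ⟨π, h1, h2, h3⟩ := exists_proj hsup hinf
  obtain ⟨ρ, h1', h2', h3'⟩ := exists_proj (H := K) (K := H) (by rw [sup_comm]; exact hsup)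
    (by rw [inf_comm]; exact hinf)
  refine ⟨π.codRestrict H fun a => (h3 a).1, ρ.codRestrict K fun a => (h3' a).1, ?_, ?_, ?_, ?_, ?_⟩
  · intro a
    obtain ⟨h4, k, hk, e⟩ := h3 a
    have e2 : ρ a = k := by
      rw [e, map_mul, h2' _ h4, h1' k hk, one_mul]
    change a = π a * ρ a
    rw [e2]
    exact e
  · intro h
    ext
    rw [MonoidHom.codRestrict_apply]
    exact h1 h h.2
  · intro h
    ext
    rw [MonoidHom.codRestrict_apply]
    exact h2' h h.2
  · intro k
    ext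
    rw [MonoidHom.codRestrict_apply]
    exact h2 k k.2
  · intro k
    ext
    rw [MonoidHom.codRestrict_apply]
    exact h1' k k.2

variable {φ : Fˣ →* A} {p : ℕ} {ζ : Fˣ}

/-- the components of a splitting are nondegenerate -/
lemma nd_comp (h : Nd φ (Ns φ)) {H K : Subgroup A}
    (horth : ∀ a ∈ H, ∀ k ∈ K, k ∈ Ns φ a)
    (π : A →* H) (ρ : A →* K) (h1 : ∀ a : A, a = π a * ρ a) (h2 : ∀ h : H, π h = h)
    (h3 : ∀ x ∈ St (π.comp φ), tmap H.subtype x ∈ St φ) :
    Nd (π.comp φ) (Ns (π.comp φ)) := by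
  refine nd_k2 ?_ ?_ ?_
  · intro a
    obtain ⟨u, hu⟩ := h.surj (a : A)
    exact ⟨u, by rw [MonoidHom.comp_apply, hu, h2]⟩
  · rw [MonoidHom.comp_apply, h.neg, map_one]
  · intro a ha
    have h4 : (a : A) = 1 := by
      apply h.nd
      intro b
      apply h.symm
      rw [mem_Ns, h1 b, ofMul_mul, TensorProduct.tmul_add]
      refine add_mem ?_ ?_
      · exact h3 _ (ha (π b))
      · exact horth a a.2 _ (ρ b).2
    exact Subtype.ext h4

/-- relations of a component of a splitting -/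
lemma st_comp {H K : Subgroup A} (hneg : φ (-1) = 1)
    (π : A →* H) (ρ : A →* K) (h1 : ∀ a : A, a = π a * ρ a)
    (hpr : ∀ u v : Fˣ, (v : F) = 1 + u → ∀ h ∈ H, ∀ k ∈ K, ∀ h' ∈ H, ∀ k' ∈ K,
      φ u = h * k → φ v = h' * k' → h' ∈ Ns φ h) :
    ∀ x ∈ St (π.comp φ), tmap H.subtype x ∈ St φ := by
  intro x hx
  refine map_closure_le _ ?_ hx
  rintro _ ⟨u, v, huv, rfl⟩
  rw [tmap_tmul]
  exact hpr (-u) v (by rw [Units.val_neg]; linear_combination huv) _ (π (φ u)).2 _ (ρ (φ u)).2 _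
    (π (φ v)).2 _ (ρ (φ v)).2 (by rw [phi_neg hneg]; exact h1 _) (h1 _)

lemma st_map {π : A →* B} {x : Additive A ⊗[ℤ] Additive A} (hx : x ∈ St φ) :
    tmap π x ∈ St (π.comp φ) := by
  refine map_closure_le _ ?_ hx
  rintro _ ⟨u, v, huv, rfl⟩
  rw [tmap_tmul]
  exact AddSubgroup.subset_closure ⟨u, v, huv, rfl⟩

lemma lt_map {π : A →* B} {L : Subgroup B} {x : Additive A ⊗[ℤ] Additive A}
    (hx : x ∈ Lt (L.comap π)) : tmap π x ∈ Lt L := by
  refine map_closure_le _ ?_ hx
  rintro _ ⟨l, hl, a, h | h⟩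
  · rw [h, tmap_tmul]
    exact AddSubgroup.subset_closure ⟨π l, hl, π a, Or.inl rfl⟩
  · rw [h, tmap_tmul]
    exact AddSubgroup.subset_closure ⟨π l, hl, π a, Or.inr rfl⟩

lemma sup_map {π : A →* B} {L : Subgroup B} {x : Additive A ⊗[ℤ] Additive A}
    (hx : x ∈ St φ ⊔ Lt (L.comap π)) : tmap π x ∈ St (π.comp φ) ⊔ Lt L := by
  rw [AddSubgroup.mem_sup] at hx
  obtain ⟨y, hy, z, hz, rfl⟩ := hx
  rw [map_add]
  exact add_mem (AddSubgroup.mem_sup_left (st_map hy)) (AddSubgroup.mem_sup_right (lt_map hz))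

lemma lfA_map {π : A →* B} {L : Subgroup B} {O : ValuationSubring F}
    (h : LfA (π.comp φ) p L O) : LfA φ p (L.comap π) O where
  pv := h.pv
  one := h.one
  nu := by
    obtain ⟨c, hc⟩ := h.nu
    refine ⟨c, fun u hu h1 => hc u hu ?_⟩
    rw [Subgroup.mem_comap, map_div] at h1
    exact h1

lemma lfB_map {π : A →* B} {L : Subgroup B} {O : ValuationSubring F}
    (h : LfB (π.comp φ) p ζ L O) : LfB φ p ζ (L.comap π) O where
  pv := h.pv
  arch := h.arch
  one := h.one
  nu := by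
    obtain ⟨c, hcb, hc⟩ := h.nu
    refine ⟨c, hcb, fun u hu h1 => hc u hu ?_⟩
    rw [Subgroup.mem_comap, map_div] at h1
    exact h1
  cl := h.cl

/-- decompositions of the components give a decomposition -/
lemma dec_split (h : Nd φ (Ns φ)) {H K : Subgroup A} (hS : Split φ (Ns φ) H K)
    (π : A →* H) (ρ : A →* K) (h1 : ∀ a : A, a = π a * ρ a) (h2 : ∀ h : H, π h = h)
    (h3 : ∀ h : H, ρ (h : A) = 1) (h4 : ∀ k : K, π (k : A) = 1) (h5 : ∀ k : K, ρ k = k)
    (hH : Dec (π.comp φ) p ζ) (hK : Dec (ρ.comp φ) p ζ) : Dec φ p ζ := by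
  obtain ⟨I, _, L, a1, a2, a3, a4⟩ := hH
  obtain ⟨J, _, M, b1, b2, b3, b4⟩ := hK
  have hHst := st_comp h.neg π ρ h1 (fun u v huv a ha k hk a' ha' k' hk' hu hv =>
    (hS.pr u v huv a ha k hk a' ha' k' hk' hu hv).1)
  have hKst := st_comp (H := K) (K := H) h.neg ρ π (fun a => by rw [mul_comm]; exact h1 a)
    (fun u v huv a ha k hk a' ha' k' hk' hu hv =>
      (hS.pr u v huv k hk a ha k' hk' a' ha' (by rw [mul_comm]; exact hu)
        (by rw [mul_comm]; exact hv)).2)
  refine ⟨I ⊕ J, inferInstance, Sum.elim (fun i => (L i).comap π) (fun j => (M j).comap ρ),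
    ?_, ?_, ?_, ?_⟩
  · intro a
    obtain ⟨y, hy⟩ := a1 fun i => π (a (Sum.inl i))
    obtain ⟨z, hz⟩ := b1 fun j => ρ (a (Sum.inr j))
    refine ⟨y * z, ?_⟩
    rintro (i | j)
    · rw [Sum.elim_inl, Subgroup.mem_comap, map_div, map_mul, h2, h4, mul_one]
      exact hy i
    · rw [Sum.elim_inr, Subgroup.mem_comap, map_div, map_mul, h3, h5, one_mul]
      exact hz j
  · intro a ha
    rw [h1 a, a2 (π a) fun i => ha (Sum.inl i), b2 (ρ a) fun j => ha (Sum.inr j)]
    simp
  · intro x hx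
    have hx1 : tmap H.subtype (tmap π x) ∈ St φ :=
      hHst _ (a3 _ fun i => sup_map (hx (Sum.inl i)))
    have hx2 : tmap K.subtype (tmap ρ x) ∈ St φ :=
      hKst _ (b3 _ fun j => sup_map (hx (Sum.inr j)))
    -- the difference of `x` and its components is a relation
    have hx3 : ∀ x : Additive A ⊗[ℤ] Additive A,
        x - (tmap H.subtype (tmap π x) + tmap K.subtype (tmap ρ x)) ∈ St φ := by
      intro x
      induction x using TensorProduct.induction_on with
      | zero => simp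
      | tmul a b =>
        have key : ∀ a b : A, Additive.ofMul a ⊗ₜ[ℤ] Additive.ofMul b -
            (tmap H.subtype (tmap π (Additive.ofMul a ⊗ₜ[ℤ] Additive.ofMul b)) +
              tmap K.subtype (tmap ρ (Additive.ofMul a ⊗ₜ[ℤ] Additive.ofMul b))) ∈ St φ := by
          intro a b
          have e1 : Additive.ofMul a ⊗ₜ[ℤ] Additive.ofMul b =
              (Additive.ofMul (π a : A) ⊗ₜ[ℤ] Additive.ofMul (π b : A) +
                Additive.ofMul (π a : A) ⊗ₜ[ℤ] Additive.ofMul (ρ b : A)) +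
              (Additive.ofMul (ρ a : A) ⊗ₜ[ℤ] Additive.ofMul (π b : A) +
                Additive.ofMul (ρ a : A) ⊗ₜ[ℤ] Additive.ofMul (ρ b : A)) := by
            rw [← TensorProduct.tmul_add, ← TensorProduct.tmul_add, ← ofMul_mul, ← h1 b,
              ← TensorProduct.add_tmul, ← ofMul_mul, ← h1 a]
          rw [tmap_tmul, tmap_tmul, tmap_tmul, tmap_tmul, e1]
          simp only [Subgroup.coe_subtype]
          have h6 : Additive.ofMul (π a : A) ⊗ₜ[ℤ] Additive.ofMul (ρ b : A) ∈ St φ :=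
            hS.orth _ (π a).2 _ (ρ b).2
          have h7 : Additive.ofMul (ρ a : A) ⊗ₜ[ℤ] Additive.ofMul (π b : A) ∈ St φ :=
            h.symm _ _ (hS.orth _ (π b).2 _ (ρ a).2)
          have h8 := add_mem h6 h7
          convert h8 using 1
          abel
        exact key (Additive.toMul a) (Additive.toMul b)
      | add a b ha hb =>
        have := add_mem ha hb
        rw [map_add, map_add, map_add, map_add]
        convert this using 1
        abel
    have hx4 := add_mem (hx3 x) (add_mem hx1 hx2)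
    rwa [sub_add_cancel] at hx4
  · rintro (i | j)
    · rcases a4 i with ⟨O, hO⟩ | ⟨O, hO⟩
      · exact Or.inl ⟨O, lfA_map hO⟩
      · exact Or.inr ⟨O, lfB_map hO⟩
    · rcases b4 j with ⟨O, hO⟩ | ⟨O, hO⟩
      · exact Or.inl ⟨O, lfA_map hO⟩
      · exact Or.inr ⟨O, lfB_map hO⟩

/-! ### residue fields -/

variable {O : ValuationSubring F}

/-- the relations over the residue field -/
lemma st_res (hneg : φ (-1) = 1) (hC : Cmp φ O)
    {ψ : (IsLocalRing.ResidueField O)ˣ →* AU φ O}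
    (hψ : ∀ u : O.unitGroup, (ψ (O.unitGroupToResidueFieldUnits u) : A) = φ u)
    (hsurj : Function.Surjective ((AU φ O).subtype.comp ψ)) :
    St ((AU φ O).subtype.comp ψ) = St φ := by
  apply le_antisymm
  · unfold St
    rw [AddSubgroup.closure_le]
    rintro _ ⟨u, v, huv, rfl⟩
    obtain ⟨u', hu', hres, hc⟩ := exists_lift hψ u
    have huO := val_one_mem O hu'
    have h1 : (1 : F) + -(u' : F) ∈ O := O.add_mem _ _ O.one_mem (O.neg_mem _ huO)
    have h2 : IsLocalRing.residue O ⟨1 + -(u' : F), h1⟩ = v := by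
      rw [res_one_add (O.neg_mem _ huO)]
      have e : (⟨-(u' : F), O.neg_mem _ huO⟩ : O) = -⟨(u' : F), huO⟩ := rfl
      rw [e, map_neg, hres, ← huv]
      ring
    have h3 : O.valuation (1 + -(u' : F)) = 1 := valuation_eq_one_of O ⟨_, h1⟩ (by
      rw [h2]; exact v.ne_zero)
    have h4 : (1 : F) + -(u' : F) ≠ 0 := by
      intro e
      rw [e, map_zero] at h3
      exact zero_ne_one h3
    obtain ⟨v', hv'⟩ : ∃ v' : Fˣ, (v' : F) = 1 + -(u' : F) := ⟨Units.mk0 _ h4, Units.val_mk0 _⟩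
    have hv'1 : O.valuation (v' : F) = 1 := by rw [hv']; exact h3
    obtain ⟨w, hw, hw1⟩ := class_res hψ hv'1
    have hwv : w = v := by
      ext
      rw [hw, ← h2]
      congr 1
      ext
      exact hv'
    rw [← hc, ← hwv, hw1]
    exact AddSubgroup.subset_closure ⟨u', v', by rw [hv']; ring, rfl⟩
  · have hneg' : (AU φ O).subtype.comp ψ (-1) = 1 := congrArg Subtype.val (neg_res hneg hψ)
    conv_lhs => unfold St
    rw [AddSubgroup.closure_le]
    rintro _ ⟨u, v, huv, rfl⟩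
    rcases lt_trichotomy (O.valuation (u : F)) 1 with h1 | h1 | h1
    · obtain ⟨z, hz, hz1⟩ := hC (-(u : F)) (by rw [Valuation.map_neg]; exact h1)
      have e : v = z := by
        ext
        rw [hz]
        linear_combination huv
      rw [e, hz1, ofMul_one, TensorProduct.tmul_zero]
      exact zero_mem _
    · have huO := val_one_mem O h1
      have hvO : (v : F) ∈ O := by
        have e : (v : F) = 1 - u := by linear_combination huv
        rw [e]
        exact O.toSubring.sub_mem O.one_mem huO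
      rcases ((O.valuation_le_one_iff _).2 hvO).lt_or_eq with h2 | h2
      · obtain ⟨z, hz, hz1⟩ := hC (-(v : F)) (by rw [Valuation.map_neg]; exact h2)
        have e : u = z := by
          ext
          rw [hz]
          linear_combination huv
        rw [e, hz1, ofMul_one, TensorProduct.zero_tmul]
        exact zero_mem _
      · obtain ⟨a, ha, ha1⟩ := class_res hψ h1
        obtain ⟨b, hb, hb1⟩ := class_res hψ h2
        rw [← ha1, ← hb1]
        apply AddSubgroup.subset_closure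
        refine ⟨a, b, ?_, rfl⟩
        rw [ha, hb, ← map_add, ← map_one (IsLocalRing.residue O)]
        congr 1
        ext
        exact huv
    · obtain ⟨z, hz, hz1⟩ := hC (-(u : F)⁻¹) (by
        rw [Valuation.map_neg, map_inv₀]
        exact inv_lt_one_of_one_lt₀ h1)
      have e1 : v = -(u * z) := by
        ext
        have hu0 : (u : F) ≠ 0 := u.ne_zero
        rw [Units.val_neg, Units.val_mul, hz]
        field_simp
        linear_combination huv
      rw [e1, phi_neg hneg, map_mul, hz1, mul_one]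
      exact st_self hsurj hneg' _

/-- the residue of `ζ` -/
lemma zeta_res' (hp : p.Prime) (hζ : IsPrimitiveRoot ζ p) (hpv : O.valuation (p : F) = 1) :
    ∃ (hζv : O.valuation (ζ : F) = 1) (ξ : (IsLocalRing.ResidueField O)ˣ),
      IsPrimitiveRoot ξ p ∧ IsLocalRing.residue O ⟨ζ, val_one_mem O hζv⟩ = ξ ∧
      O.valuation (1 - (ζ : F)) = 1 := by
  have hz := val_zeta hp hζ O
  have hzu : ζ ∈ O.unitGroup := hz
  obtain ⟨ξ, hξ⟩ : ∃ ξ, ξ = O.unitGroupToResidueFieldUnits ⟨ζ, hzu⟩ := ⟨_, rfl⟩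
  have hres : IsLocalRing.residue O ⟨ζ, val_one_mem O hz⟩ = ξ := by
    rw [hξ, res_unit]
  have h1 : ξ ^ p = 1 := by
    rw [hξ, ← map_pow]
    have e : (⟨ζ, hzu⟩ : O.unitGroup) ^ p = 1 := by
      ext
      rw [Subgroup.coe_pow, OneMemClass.coe_one]
      exact congrArg Units.val hζ.pow_eq_one
    rw [e, map_one]
  have h2 : ξ ≠ 1 := by
    intro h
    have hzO : (ζ : F) ∈ O := val_one_mem O hz
    have h3 : IsLocalRing.residue O ⟨(ζ : F), hzO⟩ = 1 := by
      rw [hres, h, Units.val_one]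
    have hζF : IsPrimitiveRoot (ζ : F) p := by rwa [IsPrimitiveRoot.coe_units_iff]
    have h4 := hζF.geom_sum_eq_zero hp.one_lt
    have h5 : ∑ i ∈ Finset.range p, (⟨(ζ : F), hzO⟩ : O) ^ i = 0 := by
      ext
      push_cast
      exact h4
    have h6 := congrArg (IsLocalRing.residue O) h5
    rw [map_sum, map_zero] at h6
    simp only [map_pow, h3, one_pow, Finset.sum_const, Finset.card_range, nsmul_eq_mul,
      mul_one] at h6
    have h7 : IsLocalRing.residue O (p : O) = 0 := by rw [map_natCast]; exact h6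
    rw [residue_eq_zero_iff] at h7
    have h8 : (((p : O)) : F) = (p : F) := by push_cast; rfl
    rw [h8, hpv] at h7
    exact lt_irrefl _ h7
  have h3 := orderOf_eq_prime_iff (x := ξ) (p := p) (hp := ⟨hp⟩)
  refine ⟨hz, ξ, ?_, hres, ?_⟩
  · have h4 := h3.2 ⟨h1, h2⟩
    rw [← h4]
    exact IsPrimitiveRoot.orderOf ξ
  · have h4 : (1 : F) - ζ ∈ O := O.toSubring.sub_mem O.one_mem (val_one_mem O hz)
    refine valuation_eq_one_of O ⟨_, h4⟩ ?_
    have e : (⟨1 - (ζ : F), h4⟩ : O) = 1 - ⟨ζ, val_one_mem O hz⟩ := rfl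
    rw [e, map_sub, map_one, hres, sub_ne_zero]
    intro h5
    apply h2
    ext
    rw [Units.val_one, h5]

/-- decompositions over the residue field -/
lemma dec_res (hneg : φ (-1) = 1) (hO : EB.Gd φ p O)
    {ψ : (IsLocalRing.ResidueField O)ˣ →* AU φ O}
    (hψ : ∀ u : O.unitGroup, (ψ (O.unitGroupToResidueFieldUnits u) : A) = φ u)
    (hsurj : Function.Surjective ((AU φ O).subtype.comp ψ))
    {ξ : (IsLocalRing.ResidueField O)ˣ} (hζv : O.valuation (ζ : F) = 1)
    (hξ : IsLocalRing.residue O ⟨ζ, val_one_mem O hζv⟩ = ξ)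
    (hζ1 : O.valuation (1 - (ζ : F)) = 1)
    (h : Dec ((AU φ O).subtype.comp ψ) p ξ) : Dec φ p ζ := by
  obtain ⟨I, hI, L, a1, a2, a3, a4⟩ := h
  have hst := st_res hneg hO.cmp hψ hsurj
  refine ⟨I, hI, L, a1, a2, ?_, ?_⟩
  · rw [hst] at a3
    exact a3
  · intro i
    rcases a4 i with ⟨O₁, hO₁⟩ | ⟨O₁, hO₁⟩
    · exact Or.inl (lfA_comp hO hψ hO₁)
    · exact Or.inr (lfB_comp hO hψ hζv hξ hζ1 hO₁)

end

end Pool.Agent.Helper58.ET
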