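import Mathlib
import Pool.Agent.Helper58.ET.Blk

set_option autoImplicit false

/-! Wild leaves: the field is close to a local field. -/

namespace Pool.Agent.Helper58.ET

open Pool.Agent.Y920.EP Pool.Agent.Helper58.EB
open scoped TensorProduct

/-- the binomial expansion -/
lemma expand {R : Type} [CommRing R] {p : ℕ} (hp : p.Prime) (z : R) :
    ∃ r : R, (1 + z) ^ p = 1 + z ^ p + p * z * (1 + z * r) := by
  obtain ⟨q, rfl⟩ : ∃ q, p = q + 2 := ⟨p - 2, by have := hp.two_le; omega⟩
  have h1 : (((q + 2 : ℕ) : R) * z * z) ∣ ∑ m ∈ Finset.range q,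
      z ^ (m + 1 + 1) * 1 ^ (q + 2 - (m + 1 + 1)) * ((q + 2).choose (m + 1 + 1) : ℕ) := by
    refine Finset.dvd_sum fun m hm => ?_
    rw [Finset.mem_range] at hm
    obtain ⟨c, hc⟩ := hp.dvd_choose_self (k := m + 1 + 1) (by omega) (by omega)
    refine ⟨z ^ m * c, ?_⟩
    rw [hc]
    push_cast
    ring
  obtain ⟨r, hr⟩ := h1
  refine ⟨r, ?_⟩
  rw [add_comm 1 z, add_pow, Finset.sum_range_succ, Finset.sum_range_succ', Finset.sum_range_succ',
    hr]
  simp
  ring

/-- the Artin-Schreier map of a finite field -/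
lemma art_schreier {k : Type} [Field k] [Finite k] {p : ℕ} [Fact p.Prime] [CharP k p] (ε : k) :
    ∃ γ : k, ∀ x : k, ∃ (n : ℕ) (y : k), x = n * γ + (y ^ p + ε * y) := by
  classical
  have hp : p.Prime := Fact.out
  let f : k →+ k :=
    { toFun := fun y => y ^ p + ε * y
      map_zero' := by rw [zero_pow hp.ne_zero, mul_zero, add_zero]
      map_add' := fun a b => by
        rw [add_pow_char]
        ring }
  have hf : ∀ y, f y = y ^ p + ε * y := fun y => rfl
  -- the kernel
  have hker : Nat.card f.ker ≤ p := by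
    obtain ⟨P, hP⟩ : ∃ P : Polynomial k, P = Polynomial.X ^ p + Polynomial.C ε * Polynomial.X :=
      ⟨_, rfl⟩
    have hmon : P.Monic := by
      rw [hP]
      apply Polynomial.monic_X_pow_add
      refine lt_of_le_of_lt (Polynomial.degree_C_mul_X_le ε) ?_
      exact_mod_cast hp.one_lt
    have hdeg : P.natDegree = p := by
      rw [hP]
      rw [Polynomial.natDegree_add_eq_left_of_natDegree_lt, Polynomial.natDegree_X_pow]
      rw [Polynomial.natDegree_X_pow]
      exact lt_of_le_of_lt ((Polynomial.natDegree_C_mul_le _ _).trans Polynomial.natDegree_X_le)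
        hp.one_lt
    have h1 : ∀ y : f.ker, (y : k) ∈ P.roots.toFinset := by
      intro y
      rw [Multiset.mem_toFinset, Polynomial.mem_roots hmon.ne_zero, Polynomial.IsRoot.def, hP]
      simp only [Polynomial.eval_add, Polynomial.eval_pow, Polynomial.eval_X, Polynomial.eval_mul,
        Polynomial.eval_C]
      exact y.2
    have h2 : Nat.card f.ker ≤ Nat.card P.roots.toFinset :=
      Nat.card_le_card_of_injective (fun y => (⟨y, h1 y⟩ : P.roots.toFinset))
        (fun a b hab => Subtype.ext (Subtype.mk.inj hab))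
    refine h2.trans ?_
    rw [Nat.card_eq_fintype_card, Fintype.card_coe]
    refine (Multiset.toFinset_card_le _).trans ?_
    rw [← hdeg]
    exact Polynomial.card_roots' P
  have hidx : f.range.index ≤ p := by
    have h1 := f.range.index_mul_card
    have h2 := f.ker.index_mul_card
    rw [AddSubgroup.index_ker] at h2
    have h3 : 0 < Nat.card f.range := Nat.card_pos
    have h4 : f.range.index * Nat.card f.range = Nat.card f.ker * Nat.card f.range := by
      rw [h1, mul_comm (Nat.card f.ker), h2]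
    rw [Nat.eq_of_mul_eq_mul_right h3 h4]
    exact hker
  by_cases htop : f.range = ⊤
  · refine ⟨0, fun x => ?_⟩
    have hx : x ∈ f.range := by rw [htop]; exact AddSubgroup.mem_top x
    obtain ⟨y, hy⟩ := hx
    exact ⟨0, y, by rw [← hf, hy]; simp⟩
  · obtain ⟨γ, hγ⟩ : ∃ γ, γ ∉ f.range := by
      by_contra hcon
      push Not at hcon
      exact htop ((AddSubgroup.eq_top_iff' _).2 hcon)
    refine ⟨γ, fun x => ?_⟩
    obtain ⟨g, hg⟩ : ∃ g : k ⧸ f.range, g = (γ : k ⧸ f.range) := ⟨_, rfl⟩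
    have hg0 : g ≠ 0 := by
      rw [hg, Ne, QuotientAddGroup.eq_zero_iff]
      exact hγ
    have hgp : p • g = 0 := by
      rw [hg, ← QuotientAddGroup.mk_nsmul, nsmul_eq_mul, CharP.cast_eq_zero, zero_mul]
      rfl
    have hord : addOrderOf g = p := addOrderOf_eq_prime hgp hg0
    have hcard : Nat.card (AddSubgroup.zmultiples g) = p := by
      rw [Nat.card_zmultiples, hord]
    have htop : AddSubgroup.zmultiples g = ⊤ := by
      apply AddSubgroup.eq_top_of_le_card
      rw [hcard]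
      exact hidx
    have hx : (x : k ⧸ f.range) ∈ AddSubgroup.zmultiples g := by
      rw [htop]; exact AddSubgroup.mem_top _
    rw [← mem_multiples_iff_mem_zmultiples] at hx
    obtain ⟨n, hn⟩ := hx
    have hn' : n • g = (x : k ⧸ f.range) := hn
    rw [hg, ← QuotientAddGroup.mk_nsmul, QuotientAddGroup.eq] at hn'
    obtain ⟨y, hy⟩ := hn'
    refine ⟨n, y, ?_⟩
    rw [← hf, hy, nsmul_eq_mul]
    ring

section

variable {F : Type} [Field F] {A : Type} [CommGroup A] {φ : Fˣ →* A}
  {p : ℕ} (hp : p.Prime) {ζ : Fˣ} (hζ : IsPrimitiveRoot ζ p)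
  (O : ValuationSubring F)

include hp in
lemma expand_val {z : F} (hz : O.valuation z ≤ 1) :
    ∃ r : F, O.valuation r ≤ 1 ∧ (1 + z) ^ p = 1 + z ^ p + p * z * (1 + z * r) := by
  obtain ⟨r, hr⟩ := expand hp (⟨z, (O.valuation_le_one_iff _).1 hz⟩ : O)
  refine ⟨r, (O.valuation_le_one_iff _).2 r.2, ?_⟩
  have := congrArg Subtype.val hr
  push_cast at this
  exact this

include hp hζ in
/-- the value of `p` -/
lemma val_p : O.valuation (p : F) = O.valuation (1 - (ζ : F)) ^ (p - 1) := by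
  have _ : Fact p.Prime := ⟨hp⟩
  have hζF : IsPrimitiveRoot (ζ : F) p := by
    rwa [IsPrimitiveRoot.coe_units_iff]
  have _ : NeZero p := ⟨hp.ne_zero⟩
  have h1 := Polynomial.eval_one_cyclotomic_prime (R := F) (p := p)
  rw [Polynomial.cyclotomic_eq_prod_X_sub_primitiveRoots hζF, Polynomial.eval_prod] at h1
  simp only [Polynomial.eval_sub, Polynomial.eval_X, Polynomial.eval_C] at h1
  rw [← h1, map_prod]
  have h2 : ∀ μ ∈ primitiveRoots p F, O.valuation (1 - μ) = O.valuation (1 - (ζ : F)) := by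
    intro μ hμ
    rw [mem_primitiveRoots hp.pos] at hμ
    obtain ⟨μ', rfl⟩ : ∃ μ' : Fˣ, (μ' : F) = μ :=
      ⟨Units.mk0 μ (hμ.ne_zero hp.ne_zero), Units.val_mk0 _⟩
    apply le_antisymm
    · apply val_one_sub hp hζ O
      rw [Polynomial.mem_nthRootsFinset hp.pos]
      exact hμ.pow_eq_one
    · apply val_one_sub hp (ζ := μ') (by rwa [IsPrimitiveRoot.coe_units_iff] at hμ) O
      rw [Polynomial.mem_nthRootsFinset hp.pos]
      exact hζF.pow_eq_one
  rw [Finset.prod_congr rfl h2, Finset.prod_const, hζF.card_primitiveRoots, Nat.totient_prime hp]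

include hp hζ in
/-- if the residue characteristic is `p` then `1 - ζ` is not a unit -/
lemma val_lam' (hpO : O.valuation (p : F) < 1) : O.valuation (1 - (ζ : F)) < 1 := by
  rw [val_p hp hζ O] at hpO
  have h1 : p - 1 ≠ 0 := by have := hp.one_lt; omega
  exact (pow_lt_one_iff_of_nonneg zero_le h1).1 hpO

include hp hζ in
lemma lam_ne : 1 - (ζ : F) ≠ 0 := by
  have hζF : IsPrimitiveRoot (ζ : F) p := by
    rwa [IsPrimitiveRoot.coe_units_iff]
  exact sub_ne_zero.2 (hζF.ne_one hp.one_lt).symm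

include hp hζ in
/-- `p`-th powers of elements close to one -/
lemma lam_pow {y : F} (hy : O.valuation y ≤ 1) : ∃ r : F, O.valuation r ≤ 1 ∧
    (1 + (1 - (ζ : F)) * y) ^ p = 1 + (1 - (ζ : F)) ^ p * (y ^ p +
      (p / (1 - (ζ : F)) ^ (p - 1)) * y * (1 + (1 - (ζ : F)) * y * r)) := by
  have hl0 := lam_ne hp hζ
  have hle : O.valuation (1 - (ζ : F)) ≤ 1 := by
    rw [O.valuation_le_one_iff]
    exact O.toSubring.sub_mem O.one_mem (val_one_mem O (val_zeta hp hζ O))
  obtain ⟨r, hr, h⟩ := expand_val hp O (z := (1 - (ζ : F)) * y) (by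
    rw [map_mul]; exact mul_le_one₀ hle zero_le hy)
  refine ⟨r, hr, ?_⟩
  rw [h]
  have e : (1 - (ζ : F)) ^ p = (1 - (ζ : F)) ^ (p - 1) * (1 - (ζ : F)) := by
    rw [← pow_succ, Nat.sub_add_cancel hp.one_le]
  rw [mul_pow, mul_add ((1 - (ζ : F)) ^ p), ← add_assoc]
  congr 1
  rw [e]
  have hl1 : (1 - (ζ : F)) ^ (p - 1) ≠ 0 := pow_ne_zero _ hl0
  field_simp

include hp hζ in
/-- if the kernel is open then it contains the group `1 + λ ^ p m` -/
lemma one_of_open (hpO : O.valuation (p : F) < 1) (hkp : ∀ c : Fˣ, φ (c ^ p) = 1)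
    {d : Fˣ} (hd : ∀ v : F, O.valuation v ≤ O.valuation (d : F) →
      ∃ u : Fˣ, (u : F) = 1 + v ∧ φ u = 1)
    (harch : ∀ x : F, O.valuation x < 1 → ∀ y : Fˣ, ∃ j : ℕ,
      O.valuation x ^ j ≤ O.valuation (y : F))
    {x : F} (hx : O.valuation x < O.valuation (1 - (ζ : F)) ^ p) :
    ∃ u : Fˣ, (u : F) = 1 + x ∧ φ u = 1 := by
  have hl0 := lam_ne hp hζ
  have hlt := val_lam' hp hζ O hpO
  have hlp : (1 - (ζ : F)) ^ p ≠ 0 := pow_ne_zero _ hl0
  have hlv : 0 < O.valuation ((1 - (ζ : F)) ^ p) := zero_lt_iff.2 ((Valuation.ne_zero_iff _).2 hlp)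
  obtain ⟨ε, hε⟩ : ∃ ε : F, ε = p / (1 - (ζ : F)) ^ (p - 1) := ⟨_, rfl⟩
  have hε1 : O.valuation ε = 1 := by
    rw [hε, map_div₀, map_pow, ← val_p hp hζ O, div_self]
    rw [val_p hp hζ O, ← map_pow, Valuation.ne_zero_iff]
    exact pow_ne_zero _ hl0
  have hε0 : ε ≠ 0 := by
    rintro rfl
    rw [map_zero] at hε1
    exact zero_ne_one hε1
  obtain ⟨z, hz⟩ : ∃ z : F, x = (1 - (ζ : F)) ^ p * z :=
    ⟨x / (1 - (ζ : F)) ^ p, by rw [mul_div_cancel₀ _ hlp]⟩
  have hz1 : O.valuation z < 1 := by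
    rw [hz, map_mul, ← map_pow] at hx
    have := (mul_lt_iff_lt_one_right hlv).1 hx
    exact this
  have key : ∀ i : ℕ, ∃ (t : Fˣ) (e : F), 1 + x = (t : F) ^ p * (1 + (1 - (ζ : F)) ^ p * e) ∧
      O.valuation e ≤ O.valuation z ^ (2 ^ i) := by
    intro i
    induction i with
    | zero => exact ⟨1, z, by rw [hz]; simp, by simp⟩
    | succ i ih =>
      obtain ⟨t, e, h1, h2⟩ := ih
      have h3 : O.valuation e < 1 :=
        h2.trans_lt (pow_lt_one₀ zero_le hz1 (pow_ne_zero _ two_ne_zero))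
      have h4 : O.valuation (e / ε) = O.valuation e := by
        rw [map_div₀, hε1, div_one]
      obtain ⟨r, hr, h5⟩ := lam_pow hp hζ O (y := e / ε) (by rw [h4]; exact h3.le)
      obtain ⟨a, ha, ha1⟩ := exists_unit_one_add O (x := (1 - (ζ : F)) * (e / ε)) (by
        rw [map_mul, h4]
        exact mul_lt_one_of_nonneg_of_lt_one_left zero_le hlt h3.le)
      have ha0 : (a : F) ≠ 0 := a.ne_zero
      rw [← ha, ← hε] at h5
      obtain ⟨q, hq⟩ : ∃ q, p = q + 2 := ⟨p - 2, by have := hp.two_le; omega⟩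
      refine ⟨t * a, -((e / ε) ^ 2 * ((e / ε) ^ q + ε * (1 - (ζ : F)) * r)) / (a : F) ^ p, ?_, ?_⟩
      · rw [h1, Units.val_mul, mul_pow, mul_assoc]
        congr 1
        have h6 : (a : F) ^ p * (1 + (1 - (ζ : F)) ^ p *
            (-((e / ε) ^ 2 * ((e / ε) ^ q + ε * (1 - (ζ : F)) * r)) / (a : F) ^ p)) =
            (a : F) ^ p - (1 - (ζ : F)) ^ p *
              ((e / ε) ^ 2 * ((e / ε) ^ q + ε * (1 - (ζ : F)) * r)) := by
          field_simp
          ring
        rw [h6, h5]
        have h7 : (e / ε) ^ p = (e / ε) ^ 2 * (e / ε) ^ q := by rw [hq, ← pow_add, add_comm]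
        have h8 : ε * (e / ε) = e := mul_div_cancel₀ _ hε0
        rw [h7, h8]
        have h9 : e * (1 + (1 - (ζ : F)) * (e / ε) * r) =
            e + (e / ε) ^ 2 * (ε * (1 - (ζ : F)) * r) := by
          field_simp
        rw [h9]
        ring
      · rw [map_div₀, Valuation.map_neg, map_pow, ha1, one_pow, div_one, map_mul, map_pow, h4]
        calc O.valuation e ^ 2 * O.valuation ((e / ε) ^ q + ε * (1 - (ζ : F)) * r) ≤
              O.valuation e ^ 2 * 1 := by
              refine mul_le_mul_right ?_ _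
              refine Valuation.map_add_le _ ?_ ?_
              · rw [map_pow, h4]
                exact pow_le_one₀ zero_le h3.le
              · rw [map_mul, map_mul, hε1, one_mul]
                exact mul_le_one₀ hlt.le zero_le hr
          _ ≤ (O.valuation z ^ 2 ^ i) ^ 2 := by
              rw [mul_one]
              exact pow_le_pow_left₀ zero_le h2 2
          _ = O.valuation z ^ 2 ^ (i + 1) := by rw [← pow_mul, pow_succ]
  obtain ⟨j, hj⟩ := harch z hz1 d
  obtain ⟨t, e, h1, h2⟩ := key j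
  have h3 : O.valuation ((1 - (ζ : F)) ^ p * e) ≤ O.valuation (d : F) := by
    rw [map_mul, map_pow]
    refine (mul_le_of_le_one_left zero_le (pow_le_one₀ zero_le hlt.le)).trans ?_
    refine (h2.trans ?_).trans hj
    exact pow_le_pow_right_of_le_one' hz1.le (Nat.lt_two_pow_self).le
  obtain ⟨u, hu, hu1⟩ := hd _ h3
  refine ⟨t ^ p * u, ?_, ?_⟩
  · rw [Units.val_mul, Units.val_pow_eq_pow_val, hu, h1]
  · rw [map_mul, hu1, mul_one, hkp]

end

end Pool.Agent.Helper58.ET
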