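import Mathlib
import Pool.Agent.Helper58.ET.Padic

set_option autoImplicit false

/-! Wild leaves: uniformizers and the residue field. -/

namespace Pool.Agent.Helper58.ET

open Pool.Agent.Y920.EP Pool.Agent.Helper58.EB
open scoped TensorProduct

section

variable {F : Type} [Field F] {A₀ : Type} [CommGroup A₀] {φ₀ : Fˣ →* A₀}
  {p : ℕ} (hp : p.Prime) {ζ : Fˣ} (hζ : IsPrimitiveRoot ζ p)
  (O : ValuationSubring F)

include hp hζ in
/-- elements close to one with the same class -/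
lemma close_val (hk : ∀ u : Fˣ, φ₀ u = 1 ↔ ∃ c : Fˣ, u = c ^ p) {a b : F} {u w : Fˣ}
    (hu : (u : F) = 1 + a) (hw : (w : F) = 1 + b) (hb : O.valuation b < 1)
    (huw : φ₀ u = φ₀ w)
    (h1 : O.valuation (1 - (ζ : F)) ^ p < O.valuation (a - b)) :
    ∃ y : Fˣ, O.valuation (a - b) = O.valuation (y : F) ^ p := by
  have hw1 : O.valuation (w : F) = 1 := by rw [hw]; exact val_one_add O hb
  have hw0 : (w : F) ≠ 0 := w.ne_zero
  have h2 : O.valuation ((a - b) / w) = O.valuation (a - b) := by rw [map_div₀, hw1, div_one]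
  have h0 : (a - b) / w ≠ 0 := by
    intro e
    rw [e, map_zero] at h2
    rw [← h2] at h1
    exact absurd h1 (not_lt.2 zero_le)
  have := star_val hp hζ O hk (x := Units.mk0 _ h0) (z := u / w) (by
    rw [Units.val_mk0, h2]
    exact h1) (by
    rw [Units.val_mk0, Units.val_div_eq_div_val]
    field_simp
    rw [hu, hw]
    ring) (by rw [map_div, huw, div_self'])
  rwa [Units.val_mk0, h2] at this

include hp hζ in
/-- the values are bounded away from one -/
lemma val_bound [Finite A₀] (hk : ∀ u : Fˣ, φ₀ u = 1 ↔ ∃ c : Fˣ, u = c ^ p)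
    (harch : ∀ x : F, O.valuation x < 1 → ∀ y : Fˣ, ∃ j : ℕ,
      O.valuation x ^ j ≤ O.valuation (y : F))
    {c : Fˣ} (hc : ∀ f : Fˣ, O.valuation (c : F) ≠ O.valuation (f : F) ^ p)
    {y : Fˣ} (hy : O.valuation (y : F) < 1) :
    O.valuation (y : F) ^ (Nat.card A₀ + 1) ≤ O.valuation (1 - (ζ : F)) := by
  classical
  by_contra hcon
  rw [not_le] at hcon
  -- a class close to one
  have h1 : ∃ c' : Fˣ, (∀ f : Fˣ, O.valuation (c' : F) ≠ O.valuation (f : F) ^ p) ∧
      O.valuation (c' : F) < 1 := by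
    rcases lt_trichotomy (O.valuation (c : F)) 1 with h | h | h
    · exact ⟨c, hc, h⟩
    · exact absurd (hc 1) (by simp [h])
    · refine ⟨c⁻¹, fun f hf => hc f⁻¹ ?_, ?_⟩
      · rw [Units.val_inv_eq_inv_val, map_inv₀] at hf ⊢
        rw [inv_pow, ← hf, inv_inv]
      · rw [Units.val_inv_eq_inv_val, map_inv₀]
        exact inv_lt_one_of_one_lt₀ h
  obtain ⟨c₁, hc₁, hc₁'⟩ := h1
  have hyp : O.valuation (((y ^ p : Fˣ)) : F) < 1 := by
    rw [Units.val_pow_eq_pow_val, map_pow]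
    exact pow_lt_one₀ zero_le hy hp.ne_zero
  have hex : ∃ j : ℕ, O.valuation ((y ^ p : Fˣ) : F) ^ j < O.valuation (c₁ : F) := by
    obtain ⟨j, hj⟩ := harch _ hyp c₁
    refine ⟨j + 1, ?_⟩
    rw [pow_succ]
    exact (mul_lt_of_lt_one_right (pow_pos (val_pos O _) j) hyp).trans_le hj
  obtain ⟨n, hn, hmin⟩ : ∃ n : ℕ, O.valuation ((y ^ p : Fˣ) : F) ^ n < O.valuation (c₁ : F) ∧
      ∀ m < n, ¬ O.valuation ((y ^ p : Fˣ) : F) ^ m < O.valuation (c₁ : F) :=
    ⟨Nat.find hex, Nat.find_spec hex, fun m hm => Nat.find_min hex hm⟩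
  have hn0 : n ≠ 0 := by
    rintro rfl
    rw [pow_zero] at hn
    exact absurd hc₁' (not_lt.2 hn.le)
  obtain ⟨k, rfl⟩ := Nat.exists_eq_succ_of_ne_zero hn0
  have hk1 := hmin k (Nat.lt_succ_self k)
  rw [not_lt] at hk1
  rw [Nat.succ_eq_add_one] at hn
  obtain ⟨c₂, hc₂⟩ : ∃ c₂ : Fˣ, c₂ = c₁ / (y ^ p) ^ k := ⟨_, rfl⟩
  have hyk : 0 < O.valuation ((y ^ p : Fˣ) : F) ^ k := pow_pos (val_pos O _) k
  have hc₂v : O.valuation (c₂ : F) = O.valuation (c₁ : F) / O.valuation ((y ^ p : Fˣ) : F) ^ k := by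
    rw [hc₂, Units.val_div_eq_div_val, map_div₀, Units.val_pow_eq_pow_val, map_pow]
  have hne : ∀ f : Fˣ, O.valuation (c₂ : F) ≠ O.valuation (f : F) ^ p := by
    intro f hf
    apply hc₁ (f * y ^ k)
    rw [hc₂v, div_eq_iff hyk.ne'] at hf
    rw [hf, Units.val_mul, map_mul, mul_pow, Units.val_pow_eq_pow_val, Units.val_pow_eq_pow_val,
      map_pow, map_pow, ← pow_mul, ← pow_mul, mul_comm p k]
  have h2 : O.valuation (c₂ : F) < 1 := by
    refine lt_of_le_of_ne ?_ ?_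
    · rw [hc₂v, div_le_one₀ hyk]
      exact hk1
    · intro e
      exact hne 1 (by rw [e]; simp)
  have h3 : O.valuation (y : F) ^ p < O.valuation (c₂ : F) := by
    rw [hc₂v, lt_div_iff₀ hyk, mul_comm]
    rw [pow_succ, Units.val_pow_eq_pow_val, map_pow] at hn
    rw [Units.val_pow_eq_pow_val, map_pow]
    exact hn
  -- the values of `c₂ y ^ (p i)`
  have h4 : ∀ i : ℕ, O.valuation ((c₂ : F) * (y : F) ^ (p * i)) =
      O.valuation (c₂ : F) * O.valuation (y : F) ^ (p * i) := fun i => by rw [map_mul, map_pow]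
  have h5 : ∀ i : ℕ, O.valuation ((c₂ : F) * (y : F) ^ (p * i)) < 1 := by
    intro i
    rw [h4]
    exact mul_lt_one_of_nonneg_of_lt_one_left zero_le h2 (pow_le_one₀ zero_le hy.le)
  choose u hu hu1 using fun i : ℕ => exists_unit_one_add O (h5 i)
  have h6 : ∃ i j : Fin (Nat.card A₀ + 1), i ≠ j ∧ φ₀ (u i) = φ₀ (u j) := by
    have _ := Fintype.ofFinite A₀
    apply Fintype.exists_ne_map_eq_of_card_lt
    rw [Fintype.card_fin, Nat.card_eq_fintype_card]
    exact Nat.lt_succ_self _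
  have h7 : ∃ i j : ℕ, i < j ∧ i ≤ Nat.card A₀ ∧ φ₀ (u i) = φ₀ (u j) := by
    obtain ⟨i, j, hij, e⟩ := h6
    rcases lt_or_gt_of_ne hij with h | h
    · exact ⟨i, j, h, by omega, e⟩
    · exact ⟨j, i, h, by omega, e.symm⟩
  obtain ⟨i, j, hij, hiA, e⟩ := h7
  have h8 : O.valuation ((c₂ : F) * (y : F) ^ (p * j)) < O.valuation ((c₂ : F) * (y : F) ^ (p * i))
      := by
    rw [h4, h4]
    refine mul_lt_mul_of_pos_left ?_ (val_pos O _)
    refine pow_lt_pow_right_of_lt_one₀ (val_pos O _) hy ?_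
    exact Nat.mul_lt_mul_of_pos_left hij hp.pos
  have h9 : O.valuation ((c₂ : F) * (y : F) ^ (p * i) - (c₂ : F) * (y : F) ^ (p * j)) =
      O.valuation (c₂ : F) * O.valuation (y : F) ^ (p * i) := by
    rw [Valuation.map_sub_eq_of_lt_left _ h8, h4]
  obtain ⟨w, hw⟩ := close_val hp hζ O hk (hu i) (hu j) (h5 j) e (by
    rw [h9]
    calc O.valuation (1 - (ζ : F)) ^ p < (O.valuation (y : F) ^ (Nat.card A₀ + 1)) ^ p :=
          pow_lt_pow_left₀ hcon zero_le hp.ne_zero
      _ ≤ O.valuation (y : F) ^ (p * (i + 1)) := by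
          rw [← pow_mul]
          refine pow_le_pow_right_of_le_one' hy.le ?_
          rw [mul_comm]
          exact Nat.mul_le_mul_right p (by omega)
      _ = O.valuation (y : F) ^ p * O.valuation (y : F) ^ (p * i) := by
          rw [← pow_add]
          congr 1
          ring
      _ ≤ O.valuation (c₂ : F) * O.valuation (y : F) ^ (p * i) := mul_le_mul_left h3.le _)
  rw [h9] at hw
  apply hne (w / y ^ i)
  have hyi : O.valuation (y : F) ^ (p * i) ≠ 0 := pow_ne_zero _ (val_ne O y)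
  rw [Units.val_div_eq_div_val, map_div₀, div_pow, ← hw, Units.val_pow_eq_pow_val, map_pow,
    ← pow_mul, mul_comm i p, mul_div_cancel_right₀ _ hyi]

include hp hζ in
/-- there are uniformizers -/
lemma exists_unif [Finite A₀] (hk : ∀ u : Fˣ, φ₀ u = 1 ↔ ∃ c : Fˣ, u = c ^ p)
    (harch : ∀ x : F, O.valuation x < 1 → ∀ y : Fˣ, ∃ j : ℕ,
      O.valuation x ^ j ≤ O.valuation (y : F))
    {c : Fˣ} (hc : ∀ f : Fˣ, O.valuation (c : F) ≠ O.valuation (f : F) ^ p)
    (hl : O.valuation (1 - (ζ : F)) < 1) :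
    ∃ ϖ : Fˣ, O.valuation (ϖ : F) < 1 ∧
      ∀ x : F, O.valuation x < 1 → O.valuation x ≤ O.valuation (ϖ : F) := by
  by_contra hcon
  push Not at hcon
  have h1 : ∀ y : Fˣ, O.valuation (y : F) < 1 → ∃ y' : Fˣ, O.valuation (y' : F) < 1 ∧
      O.valuation (y : F) ≤ O.valuation (y' : F) ^ 2 := by
    intro y hy
    obtain ⟨x, hx, hyx⟩ := hcon y hy
    have hx0 : x ≠ 0 := by
      rintro rfl
      rw [map_zero] at hyx
      exact absurd hyx (not_lt.2 zero_le)
    obtain ⟨x', rfl⟩ : ∃ x' : Fˣ, (x' : F) = x := ⟨Units.mk0 _ hx0, Units.val_mk0 _⟩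
    have h2 : O.valuation ((y / x' : Fˣ) : F) < 1 := by
      rw [Units.val_div_eq_div_val, map_div₀, div_lt_one₀ (val_pos O x')]
      exact hyx
    have h3 : O.valuation (y : F) = O.valuation (x' : F) * O.valuation ((y / x' : Fˣ) : F) := by
      rw [← map_mul, ← Units.val_mul, mul_div_cancel]
    rcases le_total (O.valuation (x' : F)) (O.valuation ((y / x' : Fˣ) : F)) with h | h
    · refine ⟨y / x', h2, ?_⟩
      rw [h3, pow_two]
      exact mul_le_mul_left h _
    · refine ⟨x', hx, ?_⟩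
      rw [h3, pow_two]
      exact mul_le_mul_right h _
  have hl0 := lam_ne hp hζ
  have h2 : ∀ n : ℕ, ∃ y : Fˣ, O.valuation (y : F) < 1 ∧
      O.valuation (1 - (ζ : F)) ≤ O.valuation (y : F) ^ 2 ^ n := by
    intro n
    induction n with
    | zero => exact ⟨Units.mk0 _ hl0, by rw [Units.val_mk0]; exact hl, by rw [Units.val_mk0]; simp⟩
    | succ n ih =>
      obtain ⟨y, hy, hy1⟩ := ih
      obtain ⟨y', hy', hy1'⟩ := h1 y hy
      refine ⟨y', hy', hy1.trans ?_⟩
      rw [pow_succ 2 n, mul_comm (2 ^ n) 2, pow_mul]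
      exact pow_le_pow_left₀ zero_le hy1' _
  obtain ⟨y, hy, hy1⟩ := h2 (Nat.card A₀ + 1)
  have h3 := val_bound hp hζ O hk harch hc hy
  have h4 : O.valuation (y : F) ^ 2 ^ (Nat.card A₀ + 1) < O.valuation (y : F) ^ (Nat.card A₀ + 1) :=
    pow_lt_pow_right_of_lt_one₀ (val_pos O _) hy Nat.lt_two_pow_self
  exact absurd (hy1.trans_lt (h4.trans_le h3)) (lt_irrefl _)

/-- all values are powers of the value of a uniformizer -/
lemma exists_zpow (harch : ∀ x : F, O.valuation x < 1 → ∀ y : Fˣ, ∃ j : ℕ,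
      O.valuation x ^ j ≤ O.valuation (y : F)) {ϖ : Fˣ} (hϖ : O.valuation (ϖ : F) < 1)
    (hmax : ∀ x : F, O.valuation x < 1 → O.valuation x ≤ O.valuation (ϖ : F)) (a : Fˣ) :
    ∃ n : ℤ, O.valuation (a : F) = O.valuation (ϖ : F) ^ n := by
  classical
  have key : ∀ a : Fˣ, O.valuation (a : F) ≤ 1 → ∃ n : ℕ,
      O.valuation (a : F) = O.valuation (ϖ : F) ^ n := by
    intro a ha
    have hex := harch _ hϖ a
    obtain ⟨n, hn, hmin⟩ : ∃ n : ℕ, O.valuation (ϖ : F) ^ n ≤ O.valuation (a : F) ∧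
        ∀ m < n, ¬ O.valuation (ϖ : F) ^ m ≤ O.valuation (a : F) :=
      ⟨Nat.find hex, Nat.find_spec hex, fun m hm => Nat.find_min hex hm⟩
    refine ⟨n, le_antisymm ?_ hn⟩
    rcases Nat.eq_zero_or_pos n with rfl | hpos
    · rw [pow_zero]
      exact ha
    obtain ⟨m, rfl⟩ := Nat.exists_eq_succ_of_ne_zero hpos.ne'
    have h1 := hmin m (Nat.lt_succ_self m)
    rw [not_le] at h1
    have h0 : 0 < O.valuation (ϖ : F) ^ m := pow_pos (val_pos O _) m
    have h2 := hmax ((a : F) / ϖ ^ m) (by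
      rw [map_div₀, map_pow, div_lt_one₀ h0]
      exact h1)
    rw [map_div₀, map_pow, div_le_iff₀ h0] at h2
    rw [Nat.succ_eq_add_one, pow_succ, mul_comm]
    exact h2
  rcases le_total (O.valuation (a : F)) 1 with h | h
  · obtain ⟨n, hn⟩ := key a h
    exact ⟨n, by rw [hn, zpow_natCast]⟩
  · obtain ⟨n, hn⟩ := key a⁻¹ (by
      rw [Units.val_inv_eq_inv_val, map_inv₀]
      exact inv_le_one_of_one_le₀ h)
    refine ⟨-n, ?_⟩
    rw [Units.val_inv_eq_inv_val, map_inv₀] at hn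
    rw [zpow_neg, zpow_natCast, ← hn, inv_inv]

include hp hζ in
/-- the residue field is finite -/
lemma finite_res [Finite A₀] (hk : ∀ u : Fˣ, φ₀ u = 1 ↔ ∃ c : Fˣ, u = c ^ p)
    (hl : O.valuation (1 - (ζ : F)) < 1) {ϖ : Fˣ} (hϖ : O.valuation (ϖ : F) < 1)
    (hmax : ∀ x : F, O.valuation x < 1 → O.valuation x ≤ O.valuation (ϖ : F)) :
    Finite (IsLocalRing.ResidueField O) := by
  have hlift : ∀ a : IsLocalRing.ResidueField O, ∃ x : O, IsLocalRing.residue O x = a :=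
    fun a => IsLocalRing.residue_surjective a
  choose s hs using hlift
  have hsv : ∀ a, O.valuation ((s a : O) : F) ≤ 1 := fun a => (O.valuation_le_one_iff _).2 (s a).2
  have h1 : ∀ a, O.valuation (((s a : O) : F) * ϖ) < 1 := by
    intro a
    rw [map_mul, mul_comm]
    exact mul_lt_one_of_nonneg_of_lt_one_left zero_le hϖ (hsv a)
  choose u hu hu1 using fun a => exists_unit_one_add O (h1 a)
  refine Finite.of_injective (fun a => φ₀ (u a)) ?_
  intro a b hab
  by_contra hne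
  have h2 : O.valuation (((s a : O) : F) - ((s b : O) : F)) = 1 := by
    have h3 := valuation_eq_one_of O (s a - s b) (by
      rw [map_sub, hs, hs, sub_ne_zero]
      exact hne)
    exact h3
  have h4 : O.valuation (((s a : O) : F) * ϖ - ((s b : O) : F) * ϖ) = O.valuation (ϖ : F) := by
    rw [← sub_mul, map_mul, h2, one_mul]
  have h5 : O.valuation (ϖ : F) ^ p < O.valuation (ϖ : F) := by
    conv_rhs => rw [← pow_one (O.valuation (ϖ : F))]
    exact pow_lt_pow_right_of_lt_one₀ (val_pos O _) hϖ hp.one_lt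
  obtain ⟨y, hy⟩ := close_val hp hζ O hk (hu a) (hu b) (h1 b) hab (by
    rw [h4]
    refine lt_of_le_of_lt ?_ h5
    exact pow_le_pow_left₀ zero_le (hmax _ hl) p)
  rw [h4] at hy
  have h6 : O.valuation (y : F) < 1 := by
    rw [← pow_lt_one_iff_of_nonneg zero_le hp.ne_zero, ← hy]
    exact hϖ
  have h7 := pow_le_pow_left₀ zero_le (hmax _ h6) p
  rw [← hy] at h7
  exact absurd h5 (not_lt.2 h7)

end

end Pool.Agent.Helper58.ET
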