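import Mathlib
import Pool.Agent.Helper58.ET.Unif

set_option autoImplicit false

/-! Wild leaves: the structure of the group of units. -/

namespace Pool.Agent.Helper58.ET

open Pool.Agent.Y920.EP Pool.Agent.Helper58.EB
open scoped TensorProduct

section

variable {F : Type} [Field F] {A : Type} [CommGroup A]

/-- discrete data of a wild leaf -/
structure Dsc (φ : Fˣ →* A) (p : ℕ) (ζ : Fˣ) (O : ValuationSubring F) (ϖ : Fˣ) (e : ℕ)
    (g : Fˣ) : Prop where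
  pv : O.valuation (ϖ : F) < 1
  mx : ∀ x : F, O.valuation x < 1 → O.valuation x ≤ O.valuation (ϖ : F)
  lam : O.valuation (1 - (ζ : F)) = O.valuation (ϖ : F) ^ e
  e1 : 1 ≤ e
  zp : ∀ a : Fˣ, ∃ n : ℤ, O.valuation (a : F) = O.valuation (ϖ : F) ^ n
  pf : ∀ a : F, O.valuation a ≤ 1 → ∃ b : F, O.valuation b ≤ 1 ∧ O.valuation (a - b ^ p) < 1
  one : ∀ x : F, O.valuation x < O.valuation (1 - (ζ : F)) ^ p →
    ∃ u : Fˣ, (u : F) = 1 + x ∧ φ u = 1
  gv : O.valuation ((g : F) - 1) ≤ O.valuation (1 - (ζ : F)) ^ p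
  gen : ∀ u : Fˣ, O.valuation ((u : F) - 1) ≤ O.valuation (1 - (ζ : F)) ^ p →
    ∃ (n : ℕ) (f : Fˣ) (x : F), O.valuation x < O.valuation (1 - (ζ : F)) ^ p ∧
      (u : F) = (g : F) ^ n * (f : F) ^ p * (1 + x)

variable {p : ℕ} (hp : p.Prime) {ζ : Fˣ} (hζ : IsPrimitiveRoot ζ p)
  (O : ValuationSubring F)

/-- lifts of residues -/
lemma lift_res (a : IsLocalRing.ResidueField O) : ∃ (x : F) (hx : x ∈ O),
    IsLocalRing.residue O ⟨x, hx⟩ = a := by
  obtain ⟨x, rfl⟩ := IsLocalRing.residue_surjective a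
  exact ⟨x, x.2, rfl⟩

/-- the residue field is perfect -/
lemma pf_of_finite [Finite (IsLocalRing.ResidueField O)] (hp : p.Prime)
    (hpO : O.valuation (p : F) < 1) {a : F} (ha : O.valuation a ≤ 1) :
    ∃ b : F, O.valuation b ≤ 1 ∧ O.valuation (a - b ^ p) < 1 := by
  have _ : Fact p.Prime := ⟨hp⟩
  have _ := charP_res O hp hpO
  have haO := (O.valuation_le_one_iff _).1 ha
  obtain ⟨b₀, hb₀⟩ := (Finite.injective_iff_surjective.1
    (frobenius_inj (IsLocalRing.ResidueField O) p)) (IsLocalRing.residue O ⟨a, haO⟩)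
  rw [frobenius_def] at hb₀
  obtain ⟨b, hb, rfl⟩ := lift_res O b₀
  refine ⟨b, (O.valuation_le_one_iff _).2 hb, ?_⟩
  have h1 := residue_eq_zero_iff O (⟨a, haO⟩ - ⟨b, hb⟩ ^ p)
  rw [map_sub, map_pow, hb₀, sub_self] at h1
  exact h1.1 rfl

include hp hζ in
/-- the group `1 + λ ^ p O` -/
lemma exists_gen [Finite (IsLocalRing.ResidueField O)] (hpO : O.valuation (p : F) < 1) :
    ∃ g : Fˣ, O.valuation ((g : F) - 1) ≤ O.valuation (1 - (ζ : F)) ^ p ∧
      ∀ u : Fˣ, O.valuation ((u : F) - 1) ≤ O.valuation (1 - (ζ : F)) ^ p →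
        ∃ (n : ℕ) (f : Fˣ) (x : F), O.valuation x < O.valuation (1 - (ζ : F)) ^ p ∧
          (u : F) = (g : F) ^ n * (f : F) ^ p * (1 + x) := by
  have _ : Fact p.Prime := ⟨hp⟩
  have _ := charP_res O hp hpO
  have hl0 := lam_ne hp hζ
  have hlt := val_lam' hp hζ O hpO
  have hlp : (1 - (ζ : F)) ^ p ≠ 0 := pow_ne_zero _ hl0
  have hlv : 0 < O.valuation ((1 - (ζ : F)) ^ p) := zero_lt_iff.2 ((Valuation.ne_zero_iff _).2 hlp)
  have hlplt : O.valuation ((1 - (ζ : F)) ^ p) < 1 := by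
    rw [map_pow]; exact pow_lt_one₀ zero_le hlt hp.ne_zero
  obtain ⟨ε, hε⟩ : ∃ ε : F, ε = p / (1 - (ζ : F)) ^ (p - 1) := ⟨_, rfl⟩
  have hε1 : O.valuation ε = 1 := by
    rw [hε, map_div₀, map_pow, ← val_p hp hζ O, div_self]
    rw [val_p hp hζ O, ← map_pow, Valuation.ne_zero_iff]
    exact pow_ne_zero _ hl0
  have hεO : ε ∈ O := val_one_mem O hε1
  obtain ⟨γ₀, hγ₀⟩ := art_schreier (k := IsLocalRing.ResidueField O) (p := p)
    (IsLocalRing.residue O ⟨ε, hεO⟩)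
  obtain ⟨γ, hγO, hγ⟩ := lift_res O γ₀
  have hγv := (O.valuation_le_one_iff _).2 hγO
  obtain ⟨g, hg, hg1⟩ := exists_unit_one_add O (x := (1 - (ζ : F)) ^ p * γ) (by
    rw [map_mul]
    exact mul_lt_one_of_nonneg_of_lt_one_left zero_le hlplt hγv)
  refine ⟨g, ?_, ?_⟩
  · rw [hg, add_sub_cancel_left, map_mul, map_pow]
    exact mul_le_of_le_one_right zero_le hγv
  intro u hu
  obtain ⟨x, hx⟩ : ∃ x : F, (u : F) = 1 + (1 - (ζ : F)) ^ p * x :=
    ⟨((u : F) - 1) / (1 - (ζ : F)) ^ p, by rw [mul_div_cancel₀ _ hlp]; ring⟩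
  have hxv : O.valuation x ≤ 1 := by
    rw [hx, add_sub_cancel_left, map_mul, ← map_pow] at hu
    exact (mul_le_iff_le_one_right hlv).1 hu
  have hxO := (O.valuation_le_one_iff _).1 hxv
  obtain ⟨n, y₀, hy₀⟩ := hγ₀ (IsLocalRing.residue O ⟨x, hxO⟩)
  obtain ⟨y, hyO, hy⟩ := lift_res O y₀
  have hyv := (O.valuation_le_one_iff _).2 hyO
  -- the residues agree
  have h1 : O.valuation (x - (n * γ + (y ^ p + ε * y))) < 1 := by
    have h2 := residue_eq_zero_iff O (⟨x, hxO⟩ - (n * ⟨γ, hγO⟩ + (⟨y, hyO⟩ ^ p +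
      ⟨ε, hεO⟩ * ⟨y, hyO⟩)))
    rw [map_sub, map_add, map_add, map_mul, map_mul, map_pow, map_natCast, hγ, hy, ← hy₀,
      sub_self] at h2
    have h3 := h2.1 rfl
    push_cast at h3
    exact h3
  obtain ⟨r, hr, h5⟩ := lam_pow hp hζ O hyv
  rw [← hε] at h5
  obtain ⟨f, hf, hf1⟩ := exists_unit_one_add O (x := (1 - (ζ : F)) * y) (by
    rw [map_mul]
    exact mul_lt_one_of_nonneg_of_lt_one_left zero_le hlt hyv)
  rw [← hf] at h5
  have hgO : (1 - (ζ : F)) ^ p * γ ∈ O := O.mul_mem _ _ ((O.valuation_le_one_iff _).1 hlplt.le) hγO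
  obtain ⟨k, hk⟩ := Polynomial.powAddExpansion (1 : O) ⟨(1 - (ζ : F)) ^ p * γ, hgO⟩ n
  have h6 : (g : F) ^ n = 1 + n * ((1 - (ζ : F)) ^ p * γ) + k * ((1 - (ζ : F)) ^ p * γ) ^ 2 := by
    have := congrArg Subtype.val hk
    push_cast at this
    rw [hg, this]
    ring
  have hkv : O.valuation (k : F) ≤ 1 := (O.valuation_le_one_iff _).2 k.2
  have hnv : O.valuation (n : F) ≤ 1 := val_natCast_le O n
  -- the product
  obtain ⟨D, hD⟩ : ∃ D : F, D = (g : F) ^ n * (f : F) ^ p := ⟨_, rfl⟩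
  have hD1 : O.valuation D = 1 := by
    rw [hD, map_mul, map_pow, map_pow, hg1, hf1, one_pow, one_pow, one_mul]
  have hD0 : D ≠ 0 := by
    intro e
    rw [e, map_zero] at hD1
    exact zero_ne_one hD1
  obtain ⟨s, hs⟩ : ∃ s : F, s = y ^ p + ε * y * (1 + (1 - (ζ : F)) * y * r) := ⟨_, rfl⟩
  have hsv : O.valuation s ≤ 1 := by
    rw [hs]
    refine Valuation.map_add_le _ ?_ ?_
    · rw [map_pow]
      exact pow_le_one₀ zero_le hyv
    · rw [map_mul, map_mul, hε1, one_mul]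
      refine mul_le_one₀ hyv zero_le ?_
      refine Valuation.map_add_le _ (by rw [map_one]) ?_
      rw [map_mul, map_mul]
      exact mul_le_one₀ (mul_le_one₀ hlt.le zero_le hyv) zero_le hr
  obtain ⟨w, hw⟩ : ∃ w : F, w = (x - (n * γ + (y ^ p + ε * y))) -
      (1 - (ζ : F)) * (ε * y * (y * r)) - (1 - (ζ : F)) ^ p * (n * γ * s + k * γ ^ 2 +
        (1 - (ζ : F)) ^ p * (k * γ ^ 2 * s)) := ⟨_, rfl⟩
  have hwv : O.valuation w < 1 := by
    have hsub : ∀ a b : F, O.valuation a < 1 → O.valuation b < 1 → O.valuation (a - b) < 1 := by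
      intro a b ha hb
      rw [sub_eq_add_neg]
      exact Valuation.map_add_lt _ ha (by rwa [Valuation.map_neg])
    rw [hw]
    refine hsub _ _ (hsub _ _ h1 ?_) ?_
    · rw [map_mul]
      refine mul_lt_one_of_nonneg_of_lt_one_left zero_le hlt ?_
      rw [map_mul, map_mul, map_mul, hε1, one_mul]
      exact mul_le_one₀ hyv zero_le (mul_le_one₀ hyv zero_le hr)
    · rw [map_mul]
      refine mul_lt_one_of_nonneg_of_lt_one_left zero_le hlplt ?_
      refine Valuation.map_add_le _ (Valuation.map_add_le _ ?_ ?_) ?_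
      · rw [map_mul, map_mul]
        exact mul_le_one₀ (mul_le_one₀ hnv zero_le hγv) zero_le hsv
      · rw [map_mul, map_pow]
        exact mul_le_one₀ hkv zero_le (pow_le_one₀ zero_le hγv)
      · rw [map_mul, map_mul, map_mul, map_pow O.valuation γ]
        exact mul_le_one₀ hlplt.le zero_le (mul_le_one₀ (mul_le_one₀ hkv zero_le
          (pow_le_one₀ zero_le hγv)) zero_le hsv)
  have h7 : (u : F) - D = (1 - (ζ : F)) ^ p * w := by
    rw [hx, hD, h6, h5, hw, ← hs]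
    rw [show s = y ^ p + ε * y * (1 + (1 - (ζ : F)) * y * r) from hs]
    ring
  refine ⟨n, f, ((u : F) - D) / D, ?_, ?_⟩
  · rw [map_div₀, hD1, div_one, h7, map_mul, map_pow]
    rw [map_pow] at hlv
    exact mul_lt_of_lt_one_right hlv hwv
  · rw [← hD]
    field_simp
    ring

include hp hζ in
/-- the data of a wild leaf -/
lemma exists_dsc {φ : Fˣ →* A} {A₀ : Type} [CommGroup A₀] [Finite A₀] {φ₀ : Fˣ →* A₀}
    (hk : ∀ u : Fˣ, φ₀ u = 1 ↔ ∃ c : Fˣ, u = c ^ p) (hkp : ∀ c : Fˣ, φ (c ^ p) = 1)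
    (hO : Pd φ p O) : ∃ (ϖ : Fˣ) (e : ℕ) (g : Fˣ), Dsc φ p ζ O ϖ e g := by
  have hlt := val_lam' hp hζ O hO.pv
  have hl0 := lam_ne hp hζ
  obtain ⟨c, hc⟩ := hO.nu
  have hc' : ∀ f : Fˣ, O.valuation (c : F) ≠ O.valuation (f : F) ^ p := by
    intro f hf
    apply hc (c / f ^ p)
    · rw [Units.val_div_eq_div_val, map_div₀, Units.val_pow_eq_pow_val, map_pow, hf, div_self]
      exact pow_ne_zero _ (val_ne O f)
    · rw [map_div, hkp, div_one]
  obtain ⟨ϖ, hϖ, hmax⟩ := exists_unif hp hζ O hk hO.arch hc' hlt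
  have hfin := finite_res hp hζ O hk hlt hϖ hmax
  obtain ⟨g, hg, hgen⟩ := exists_gen hp hζ O hO.pv
  obtain ⟨d, hd1, hd⟩ := hO.opn
  obtain ⟨n, hn⟩ := exists_zpow O hO.arch hϖ hmax (Units.mk0 _ hl0)
  rw [Units.val_mk0] at hn
  obtain ⟨e, rfl⟩ : ∃ e : ℕ, n = e := by
    refine ⟨n.toNat, (Int.toNat_of_nonneg ?_).symm⟩
    by_contra hcon
    rw [not_le] at hcon
    have h1 : 1 < O.valuation (ϖ : F) ^ n := one_lt_zpow_of_neg₀ (val_pos O ϖ) hϖ hcon
    rw [← hn] at h1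
    exact absurd hlt (not_lt.2 h1.le)
  rw [zpow_natCast] at hn
  refine ⟨ϖ, e, g, hϖ, hmax, hn, ?_, exists_zpow O hO.arch hϖ hmax,
    fun a ha => pf_of_finite O hp hO.pv ha,
    fun x hx => one_of_open hp hζ O hO.pv hkp hd hO.arch hx, hg, hgen⟩
  rw [Nat.one_le_iff_ne_zero]
  rintro rfl
  rw [hn, pow_zero] at hlt
  exact lt_irrefl _ hlt

end

end Pool.Agent.Helper58.ET
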